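import Pool.Agent.Lib.MP_8646f6_al.Line

/-! A Lipschitz height function on a free group that grows linearly along a periodic line, by
counting subwords. -/

namespace Pool.Agent.Lib.MP_8646f6_al.Brk

open FreeGroup

variable {α : Type} [DecidableEq α]

lemma word_step {u g : FreeGroup α} {l : α × Bool} (h : ¬side u l g⁻¹) :
    (g * (u * gen l))⁻¹.toWord = linv l :: (g * u)⁻¹.toWord := by
  rw [← mul_assoc, mul_inv_rev, ← gen_linv]
  rcases toWord_gen_mul (linv l) (g * u)⁻¹ with ⟨h1, -⟩ | ⟨-, h2⟩
  · rw [linv_linv, head_inv] at h1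
    rw [side_iff_last, inv_inv] at h
    exact absurd h1 h
  · exact h2

omit [DecidableEq α] in
lemma lip_mul {φ : FreeGroup α → ℤ} {C : ℤ} (h : ∀ g l, |φ (g * gen l) - φ g| ≤ C)
    (v : FreeGroup α) : ∃ K, ∀ g, |φ (g * v) - φ g| ≤ K := by
  induction v using FreeGroup.induction_on with
  | C1 => exact ⟨0, fun g => by simp⟩
  | of i => exact ⟨C, fun g => h g (i, true)⟩
  | inv_of i _ => exact ⟨C, fun g => by simpa only [gen_false] using h g (i, false)⟩
  | mul a b ha hb =>
    obtain ⟨K, hK⟩ := ha
    obtain ⟨K', hK'⟩ := hb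
    refine ⟨K + K', fun g => ?_⟩
    have h1 := abs_le.1 (hK g)
    have h2 := abs_le.1 (hK' (g * a))
    rw [← mul_assoc]
    exact abs_le.2 ⟨by omega, by omega⟩

lemma all_of_lt {P : ℤ → Prop} {L : ℕ} (hL : 0 < L) (hp : Function.Periodic P (L : ℤ))
    (h : ∀ i : ℕ, i < L → P i) (x : ℤ) : P x := by
  have h0 : (0 : ℤ) < L := by exact_mod_cast hL
  have h1 := Int.emod_nonneg x h0.ne'
  have h2 := Int.emod_lt_of_pos x h0
  have h3 := h (x % L).toNat (by omega)
  rw [Int.toNat_of_nonneg h1, ← hp.int_mul (x / L), Int.cast_id, mul_comm,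
    Int.emod_add_mul_ediv] at h3
  exact h3

variable (lt : ℤ → α × Bool) (L : ℕ)

open Classical in
/-- The weight of the beginning of a word. -/
noncomputable def wt (l : List (α × Bool)) : ℤ :=
  (if ∀ i < L, l[i]? = some (linv (lt (-(i : ℕ)))) then 1 else 0) -
    if ∀ i < L, l[i]? = some (lt (i : ℕ)) then 1 else 0

/-- The sum of the weights. -/
noncomputable def cnt : List (α × Bool) → ℤ
  | [] => 0
  | x :: l => cnt l + wt lt L (x :: l)

/-- The counting function. -/
noncomputable def phi (g : FreeGroup α) : ℤ := cnt lt L g⁻¹.toWord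

open Classical in
/-- The indicator of the periods. -/
noncomputable def occ (j : ℤ) : ℤ := if ∀ x, lt (j + x) = lt x then 1 else 0

lemma phi_gen (g : FreeGroup α) (l : α × Bool) : |phi lt L (g * gen l) - phi lt L g| ≤ 1 := by
  have hw : ∀ l, |wt lt L l| ≤ 1 := fun l => by
    unfold wt
    split_ifs <;> simp
  simp only [phi, mul_inv_rev, ← gen_linv]
  rcases toWord_gen_mul (linv l) g⁻¹ with ⟨-, h⟩ | ⟨-, h⟩
  · rw [h, cnt, abs_sub_comm, add_sub_cancel_left]
    exact hw _
  · rw [h, cnt, add_sub_cancel_left]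
    exact hw _

variable {lt L} {cl : ℤ → FreeGroup α} (H : IsLine cl lt) (hL : 0 < L)
  (hp : Function.Periodic lt (L : ℤ))

omit [DecidableEq α] in
include H in
lemma no_refl (c : ℤ) : ¬∀ x, lt (c - x) = linv (lt x) := by
  intro h
  rcases Int.even_or_odd' c with ⟨m, rfl | rfl⟩
  · have := h m
    rw [show 2 * m - m = m by ring] at this
    exact linv_ne _ this.symm
  · have := h m
    rw [show 2 * m + 1 - m = m + 1 by ring] at this
    exact H.nb m this

include hL hp in
lemma fwd (g : FreeGroup α) {j : ℤ} (hj : H.proj g⁻¹ + L ≤ j + 1) :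
    phi lt L (g * cl (j + 1)) = phi lt L (g * cl j) + occ lt j := by
  have st : ∀ j, H.proj g⁻¹ ≤ j →
      (g * cl (j + 1))⁻¹.toWord = linv (lt j) :: (g * cl j)⁻¹.toWord := fun j hj => by
    rw [H.step]
    exact word_step (by rw [← H.lt_proj]; omega)
  have get : ∀ (i : ℕ) (j : ℤ), H.proj g⁻¹ + i ≤ j →
      (g * cl (j + 1))⁻¹.toWord[i]? = some (linv (lt (j - i))) := by
    intro i
    induction i with
    | zero => intro j hj; rw [st j (by omega)]; simp
    | succ i ih =>
      intro j hj
      have := ih (j - 1) (by omega)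
      rw [sub_add_cancel] at this
      rw [st j (by omega), List.getElem?_cons_succ, this]
      congr 3
      push_cast
      ring
  have e1 : (∀ i < L, (g * cl (j + 1))⁻¹.toWord[i]? = some (linv (lt (-(i : ℕ))))) ↔
      ∀ x, lt (j + x) = lt x := by
    constructor
    · intro h x
      have := all_of_lt (P := fun x => lt (j - x) = lt (-x)) hL (fun x => by
        beta_reduce
        rw [← hp (j - (x + L)), ← hp (-(x + L))]
        congr 2 <;> ring) (fun i hi => by
          have := h i hi
          rw [get i j (by omega), Option.some.injEq] at this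
          simpa using congrArg linv this) (-x)
      simpa using this
    · intro h i hi
      rw [get i j (by omega), sub_eq_add_neg, h]
  have e2 : ¬∀ i < L, (g * cl (j + 1))⁻¹.toWord[i]? = some (lt (i : ℕ)) := fun h =>
    no_refl H j (all_of_lt (P := fun x => lt (j - x) = linv (lt x)) hL (fun x => by
      beta_reduce
      rw [← hp (j - (x + L)), hp x]
      congr 2; ring) fun i hi => by
        have := h i hi
        rw [get i j (by omega), Option.some.injEq] at this
        rw [← this, linv_linv])
  have e3 : wt lt L (g * cl (j + 1))⁻¹.toWord = occ lt j := by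
    rw [wt, occ, if_neg e2, sub_zero]
    classical
    exact if_congr e1 rfl rfl
  rw [phi, phi, ← e3, st j (by omega), cnt]

include hL hp in
lemma bwd (g : FreeGroup α) {j : ℤ} (hj : j + L ≤ H.proj g⁻¹) :
    phi lt L (g * cl (j + 1)) = phi lt L (g * cl j) + occ lt j := by
  have st : ∀ j, j < H.proj g⁻¹ →
      (g * cl j)⁻¹.toWord = lt j :: (g * cl (j + 1))⁻¹.toWord := fun j hj => by
    have := word_step (u := cl (j + 1)) (g := g) (l := linv (lt j))
      (by rw [H.step, side_rev, not_not, ← H.lt_proj]; exact hj)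
    rwa [linv_linv, gen_linv, H.step, mul_inv_cancel_right, ← H.step] at this
  have get : ∀ (i : ℕ) (j : ℤ), j + i < H.proj g⁻¹ →
      (g * cl j)⁻¹.toWord[i]? = some (lt (j + i)) := by
    intro i
    induction i with
    | zero => intro j hj; rw [st j (by omega)]; simp
    | succ i ih =>
      intro j hj
      rw [st j (by omega), List.getElem?_cons_succ, ih (j + 1) (by omega)]
      congr 2
      push_cast
      ring
  have e1 : (∀ i < L, (g * cl j)⁻¹.toWord[i]? = some (lt (i : ℕ))) ↔ ∀ x, lt (j + x) = lt x := by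
    constructor
    · intro h
      exact all_of_lt (P := fun x => lt (j + x) = lt x) hL (fun x => by
        beta_reduce
        rw [← add_assoc, hp, hp]) fun i hi => by
          have := h i hi
          rwa [get i j (by omega), Option.some.injEq] at this
    · intro h i hi
      rw [get i j (by omega), h]
  have e2 : ¬∀ i < L, (g * cl j)⁻¹.toWord[i]? = some (linv (lt (-(i : ℕ)))) := fun h =>
    no_refl H j fun x => by
      have := all_of_lt (P := fun x => lt (j + x) = linv (lt (-x))) hL (fun x => by
        beta_reduce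
        rw [← add_assoc, hp, ← hp (-(x + L))]
        congr 3; ring) (fun i hi => by
          have := h i hi
          rwa [get i j (by omega), Option.some.injEq] at this) (-x)
      simpa [sub_eq_add_neg] using this
  have e3 : wt lt L (g * cl j)⁻¹.toWord = -occ lt j := by
    rw [wt, occ, if_neg e2, zero_sub, neg_inj]
    classical
    exact if_congr e1 rfl rfl
  have e4 : phi lt L (g * cl j) = phi lt L (g * cl (j + 1)) + wt lt L (g * cl j)⁻¹.toWord := by
    rw [phi, phi, st j (by omega), cnt]
  omega

include H hL hp in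
theorem exists_height {w : FreeGroup α} (hw : ∀ j, cl (j + L) = w * cl j) :
    ∃ (η : FreeGroup α → ℤ) (C : ℤ), (∀ g, η (g * w) = η g + L) ∧
      ∀ g l, |η (g * gen l) - η g| ≤ C := by
  have h0 : (0 : ℤ) < L := by exact_mod_cast hL
  set m : ℤ := ∑ i ∈ Finset.range L, occ lt i with hm
  have o1 : ∀ j, 0 ≤ occ lt j ∧ occ lt j ≤ 1 := fun j => by
    unfold occ
    split_ifs <;> simp
  have m1 : 1 ≤ m := by
    have := Finset.single_le_sum (f := fun i : ℕ => occ lt i) (fun i _ => (o1 i).1)
      (Finset.mem_range.2 hL)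
    have e : occ lt (0 : ℕ) = 1 := by simp [occ]
    rwa [e] at this
  have m2 : m ≤ L := by
    simpa using Finset.sum_le_card_nsmul (Finset.range L) (fun i : ℕ => occ lt i) 1
      fun i _ => (o1 i).2
  have oper : ∀ k j : ℤ, occ lt (L * k + j) = occ lt j := fun k j => by
    have : ∀ x, lt (L * k + j + x) = lt (j + x) := fun x => by
      rw [← hp.int_mul k (j + x), Int.cast_id]
      congr 1; ring
    rw [occ, occ]
    classical
    exact if_congr (by simp only [this]) rfl rfl
  let a : FreeGroup α → ℤ → ℤ := fun g k => phi lt L (g * cl (L * k)) - m * k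
  have blk : ∀ g (k : ℤ), (∀ j : ℤ, L * k ≤ j → j < L * k + L →
      phi lt L (g * cl (j + 1)) = phi lt L (g * cl j) + occ lt j) → a g (k + 1) = a g k := by
    intro g k h
    have : ∀ i : ℕ, i ≤ L → phi lt L (g * cl (L * k + i)) =
        phi lt L (g * cl (L * k)) + ∑ r ∈ Finset.range i, occ lt r := by
      intro i
      induction i with
      | zero => simp
      | succ i ih =>
        intro hi
        rw [Finset.sum_range_succ, Nat.cast_succ, ← add_assoc, h _ (by omega) (by omega),
          ih (by omega), oper, add_assoc]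
    simp only [a, mul_add, mul_one, this L le_rfl]
    ring
  have lip : ∀ g k, |a g (k + 1) - a g k| ≤ 2 * L := by
    intro g k
    have : ∀ i : ℕ, |phi lt L (g * cl (L * k + i)) - phi lt L (g * cl (L * k))| ≤ i := by
      intro i
      induction i with
      | zero => simp
      | succ i ih =>
        have h1 := abs_le.1 (phi_gen lt L (g * cl (L * k + i)) (lt (L * k + i)))
        have h2 := abs_le.1 ih
        rw [mul_assoc, ← H.step] at h1
        rw [Nat.cast_succ, ← add_assoc]
        exact abs_le.2 ⟨by omega, by omega⟩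
    have h1 := abs_le.1 (this L)
    simp only [a, mul_add, mul_one]
    exact abs_le.2 ⟨by omega, by omega⟩
  have near : ∀ g k, |a g k - a g (H.proj g⁻¹ / L)| ≤ 4 * L := by
    intro g k
    set κ := H.proj g⁻¹ / L with hκ
    have p1 : L * κ ≤ H.proj g⁻¹ := Int.mul_ediv_self_le h0.ne'
    have p2 : H.proj g⁻¹ < L * κ + L := Int.lt_mul_ediv_self_add h0
    have b1 := abs_le.1 (lip g κ)
    have b2 := abs_le.1 (lip g (κ + 1))
    have b3 := abs_le.1 (lip g (κ - 1))
    rw [sub_add_cancel] at b3
    have up : ∀ n : ℕ, a g (κ + 1 + 1 + n) = a g (κ + 1 + 1) := by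
      intro n
      induction n with
      | zero => simp
      | succ n ih =>
        rw [Nat.cast_succ, ← add_assoc, blk g _ fun j h1 _ => fwd H hL hp g (by nlinarith), ih]
    have down : ∀ n : ℕ, a g (κ - 1 - n) = a g (κ - 1) := by
      intro n
      induction n with
      | zero => simp
      | succ n ih =>
        rw [← ih, ← blk g _ fun j _ h2 => bwd H hL hp g (by push_cast at h2; nlinarith)]
        congr 1
        push_cast
        ring
    rcases le_or_gt (κ + 1 + 1) k with h | h
    · obtain ⟨n, rfl⟩ := Int.le.dest h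
      rw [up]
      exact abs_le.2 ⟨by omega, by omega⟩
    rcases le_or_gt k (κ - 1) with h' | h'
    · obtain ⟨n, hn⟩ := Int.le.dest h'
      rw [show k = κ - 1 - n by omega, down]
      exact abs_le.2 ⟨by omega, by omega⟩
    obtain rfl | rfl : k = κ ∨ k = κ + 1 := by omega
    · simp
    · exact abs_le.2 ⟨by omega, by omega⟩
  have shift : ∀ g, H.proj (g * w)⁻¹ = H.proj g⁻¹ - L := fun g => int_ext_lt fun j => by
    rw [H.lt_proj, ← side_mul_left w, mul_inv_rev, mul_inv_cancel_left, ← hw, ← hp j, ← H.lt_proj]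
    omega
  obtain ⟨K, hK⟩ := lip_mul (phi_gen lt L) (cl 0)
  refine ⟨fun g => L * a g (H.proj g⁻¹ / L) / m, L * (8 * L + 2 * K + 1) + 1, fun g => ?_,
    fun g l => ?_⟩
  · have e : a (g * w) (H.proj (g * w)⁻¹ / L) = a g (H.proj g⁻¹ / L) + m := by
      rw [shift, show H.proj g⁻¹ - L = H.proj g⁻¹ + -1 * L by ring,
        Int.add_mul_ediv_right _ _ h0.ne']
      simp only [a, mul_assoc, ← hw]
      rw [show L * (H.proj g⁻¹ / L + -1) + L = L * (H.proj g⁻¹ / L) by ring]
      ring
    simp only [e, mul_add]
    rw [Int.add_mul_ediv_right _ _ (by omega)]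
  · have b1 := abs_le.1 (near g 0)
    have b2 := abs_le.1 (near (g * gen l) 0)
    have b3 := abs_le.1 (hK g)
    have b4 := abs_le.1 (hK (g * gen l))
    have b5 := abs_le.1 (phi_gen lt L g l)
    have e0 : ∀ g, a g 0 = phi lt L (g * cl 0) := fun g => by simp [a]
    rw [e0] at b1 b2
    beta_reduce
    set x := a g (H.proj g⁻¹ / L)
    set y := a (g * gen l) (H.proj (g * gen l)⁻¹ / L)
    have hK0 : 0 ≤ K := (abs_nonneg _).trans (hK g)
    have key : ∀ x y : ℤ, y ≤ x + (8 * L + 2 * K + 1) →
        L * y / m ≤ L * x / m + L * (8 * L + 2 * K + 1) := fun x y h => by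
      rw [← Int.add_mul_ediv_right _ _ (by omega : m ≠ 0)]
      refine Int.ediv_le_ediv (by omega) ?_
      have : 0 ≤ (L : ℤ) * (8 * L + 2 * K + 1) := by positivity
      nlinarith
    have k1 := key x y (by omega)
    have k2 := key y x (by omega)
    exact abs_le.2 ⟨by omega, by omega⟩

end Pool.Agent.Lib.MP_8646f6_al.Brk
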