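import Pool.Agent.Lib.MP_8646f6_al.Defs

/-! Basic inequalities in CAT(0) spaces. -/

namespace Pool.Agent.Lib.MP_8646f6_al

open Defs

universe u

variable {X : Type u} [MetricSpace X]

lemma exists_comparison {a b c : ℝ} (ha : 0 ≤ a) (hb : 0 ≤ b) (hc : 0 ≤ c) (h1 : c ≤ a + b)
    (h2 : a ≤ b + c) (h3 : b ≤ a + c) :
    ∃ x' y' z' : EuclideanSpace ℝ (Fin 2), dist x' y' = a ∧ dist x' z' = b ∧ dist y' z' = c := by
  have key : ∀ p q r t : ℝ, dist (!₂[p, q] : EuclideanSpace ℝ (Fin 2)) !₂[r, t] =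
      Real.sqrt ((p - r) ^ 2 + (q - t) ^ 2) := by
    intro p q r t
    rw [EuclideanSpace.dist_eq]
    simp [Fin.sum_univ_two, Real.dist_eq]
  rcases ha.eq_or_lt with h0 | h0
  · subst h0
    have : c = b := by linarith
    subst this
    refine ⟨!₂[0, 0], !₂[0, 0], !₂[c, 0], by simp, ?_, ?_⟩ <;>
    · rw [key]; simp [hc]
  · set p := (a ^ 2 + b ^ 2 - c ^ 2) / (2 * a) with hp
    have hp' : 2 * a * p = a ^ 2 + b ^ 2 - c ^ 2 := by rw [hp]; field_simp
    have hq : 0 ≤ b ^ 2 - p ^ 2 := by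
      have e1 : p ≤ b := by
        rw [hp, div_le_iff₀ (by positivity)]; nlinarith
      have e2 : -b ≤ p := by
        rw [hp, le_div_iff₀ (by positivity)]; nlinarith
      nlinarith
    refine ⟨!₂[0, 0], !₂[a, 0], !₂[p, Real.sqrt (b ^ 2 - p ^ 2)], ?_, ?_, ?_⟩
    · rw [key]; simp [ha]
    · rw [key, Real.sqrt_eq_iff_mul_self_eq (by positivity) hb]
      have := Real.sq_sqrt hq
      nlinarith
    · rw [key, Real.sqrt_eq_iff_mul_self_eq (by positivity) hc]
      have := Real.sq_sqrt hq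
      nlinarith

/-- `m` is a midpoint of `x` and `y`. -/
def IsMid (x y m : X) : Prop := dist x m = dist x y / 2 ∧ dist m y = dist x y / 2

lemma exists_mid_CN (h : IsCAT0 X) (x y : X) : ∃ m, IsMid x y m ∧
    ∀ z, dist z m ^ 2 ≤ dist z x ^ 2 / 2 + dist z y ^ 2 / 2 - dist x y ^ 2 / 4 := by
  obtain ⟨γ, hγ⟩ := h.1 x y
  have i0 : (0 : ℝ) ∈ Set.Icc (0 : ℝ) 1 := ⟨le_rfl, zero_le_one⟩
  have i1 : (1 : ℝ) ∈ Set.Icc (0 : ℝ) 1 := ⟨zero_le_one, le_rfl⟩
  have ih : (1 / 2 : ℝ) ∈ Set.Icc (0 : ℝ) 1 := ⟨by norm_num, by norm_num⟩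
  refine ⟨γ (1 / 2), ⟨?_, ?_⟩, fun z => ?_⟩
  · have := hγ.2.2 0 i0 _ ih
    rw [hγ.1] at this
    rw [this]; norm_num [abs_of_nonneg]; ring
  · have := hγ.2.2 _ ih 1 i1
    rw [hγ.2.1] at this
    rw [this]; norm_num [abs_of_nonneg]; ring
  · obtain ⟨δ, hδ⟩ := h.1 x z
    obtain ⟨x', y', z', e1, e2, e3⟩ := exists_comparison (a := dist x y) (b := dist x z)
      (c := dist y z) dist_nonneg dist_nonneg dist_nonneg
      (by rw [dist_comm x y]; exact dist_triangle _ _ _)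
      (by rw [dist_comm y z]; exact dist_triangle _ _ _) (dist_triangle _ _ _)
    have := h.2 x y z γ δ hγ hδ x' y' z' e1 e2 e3 _ ih 1 i1
    rw [hδ.2.1, AffineMap.lineMap_apply_one] at this
    have ap := EuclideanGeometry.dist_sq_add_dist_sq_eq_two_mul_dist_midpoint_sq_add_half_dist_sq
      z' x' y'
    have em : (AffineMap.lineMap x' y' (1 / 2 : ℝ) : EuclideanSpace ℝ (Fin 2)) = midpoint ℝ x' y' := by
      simp [midpoint]
    rw [em] at this
    rw [dist_comm z' x', dist_comm z' y', e1, e2, e3, dist_comm z'] at ap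
    rw [dist_comm z x, dist_comm z y, dist_comm z]
    have h0 : 0 ≤ dist (γ (1 / 2)) z := dist_nonneg
    nlinarith

lemma CN (h : IsCAT0 X) {x y m : X} (hm : IsMid x y m) (z : X) :
    dist z m ^ 2 ≤ dist z x ^ 2 / 2 + dist z y ^ 2 / 2 - dist x y ^ 2 / 4 := by
  obtain ⟨m0, -, h0⟩ := exists_mid_CN h x y
  have := h0 m
  rw [dist_comm m x, hm.1, hm.2] at this
  have e : dist m m0 = 0 := by
    have h1 : 0 ≤ dist m m0 := dist_nonneg
    nlinarith
  rw [dist_eq_zero.1 e]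
  exact h0 z

lemma quad (h : IsCAT0 X) (p q r s : X) :
    dist p r ^ 2 + dist q s ^ 2 ≤ dist p q ^ 2 + dist q r ^ 2 + dist r s ^ 2 + dist s p ^ 2 := by
  obtain ⟨m, -, hm⟩ := exists_mid_CN h p r
  have h1 := hm q
  have h2 := hm s
  have h3 := dist_triangle q m s
  rw [dist_comm m s] at h3
  rw [dist_comm q p] at h1
  rw [dist_comm s r] at h2
  have h4 : 0 ≤ dist q s := dist_nonneg
  have h5 : dist q s ^ 2 ≤ (dist q m + dist s m) ^ 2 := by gcongr
  nlinarith [sq_nonneg (dist q m - dist s m)]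

lemma exists_point (h : IsCAT0 X) (x y : X) {a r : ℝ} (ha : 0 ≤ a) (hr : 0 ≤ r)
    (hd : dist x y ≤ a + r) : ∃ z, dist x z ≤ a ∧ dist z y ≤ r := by
  by_cases h1 : dist x y ≤ a
  · exact ⟨y, h1, by simpa using hr⟩
  obtain ⟨γ, hγ⟩ := h.1 x y
  have hpos : 0 < dist x y := by linarith [not_le.1 h1]
  have i0 : (0 : ℝ) ∈ Set.Icc (0 : ℝ) 1 := ⟨le_rfl, zero_le_one⟩
  have i1 : (1 : ℝ) ∈ Set.Icc (0 : ℝ) 1 := ⟨zero_le_one, le_rfl⟩
  have t0 : 0 ≤ a / dist x y := by positivity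
  have t1 : a / dist x y ≤ 1 := by rw [div_le_one hpos]; linarith [not_le.1 h1]
  refine ⟨γ (a / dist x y), ?_, ?_⟩
  · have := hγ.2.2 0 i0 _ ⟨t0, t1⟩
    rw [hγ.1] at this
    rw [this, zero_sub, abs_neg, abs_of_nonneg t0, div_mul_cancel₀ _ hpos.ne']
  · have := hγ.2.2 _ ⟨t0, t1⟩ 1 i1
    rw [hγ.2.1] at this
    rw [this, abs_sub_comm, abs_of_nonneg (by linarith), sub_mul, div_mul_cancel₀ _ hpos.ne']
    linarith

variable {G : Type} [Group G] [MulAction G X] [IsIsometricSMul G X]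

lemma local_finite [ProperlyDiscontinuousSMul G X] (x y : X) :
    ∃ r > 0, {g : G | dist (g • x) y < r}.Finite := by
  by_contra hc
  push Not at hc
  have step : ∀ (n : ℕ) (T : Finset G), ∃ g, g ∉ T ∧ dist (g • x) y < 1 / ((n : ℝ) + 1) := by
    intro n T
    obtain ⟨g, hg, hg'⟩ := (hc (1 / ((n : ℝ) + 1)) (by positivity)).exists_notMem_finset T
    exact ⟨g, hg', hg⟩
  classical
  choose f hf1 hf2 using step
  let T : ℕ → Finset G := fun n => Nat.rec ∅ (fun n T => insert (f n T) T) n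
  have hT : ∀ n, T (n + 1) = insert (f n (T n)) (T n) := fun n => rfl
  have hcard : ∀ n, (T n).card = n := by
    intro n
    induction n with
    | zero => rfl
    | succ n ih => rw [hT, Finset.card_insert_of_notMem (hf1 _ _), ih]
  have hlim : Filter.Tendsto (fun n => f n (T n) • x) Filter.atTop (nhds y) := by
    rw [tendsto_iff_dist_tendsto_zero]
    exact squeeze_zero (fun _ => dist_nonneg) (fun n => (hf2 n _).le)
      tendsto_one_div_add_atTop_nhds_zero_nat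
  have hfin := ProperlyDiscontinuousSMul.finite_disjoint_inter_image (Γ := G)
    (isCompact_singleton (x := x)) hlim.isCompact_insert_range
  have hsub : ∀ n, T n ⊆ hfin.toFinset := by
    intro n
    induction n with
    | zero => exact Finset.empty_subset _
    | succ n ih =>
      rw [hT]
      refine Finset.insert_subset ?_ ih
      rw [Set.Finite.mem_toFinset]
      exact ⟨f n (T n) • x, ⟨x, rfl, rfl⟩, Or.inr ⟨n, rfl⟩⟩
  have := Finset.card_le_card (hsub (hfin.toFinset.card + 1))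
  have h2 := hcard (hfin.toFinset.card + 1)
  exact absurd (h2.symm.trans_le this) (by omega)

lemma compact_finite [ProperlyDiscontinuousSMul G X] {K : Set X} (hK : IsCompact K) :
    ∃ r > 0, {g : G | ∃ k ∈ K, ∃ k' ∈ K, dist (g • k) k' < r}.Finite := by
  choose r hr hfin using fun p : X × X => local_finite (G := G) p.1 p.2
  obtain ⟨t, ht⟩ := (hK.prod hK).elim_nhds_subcover'
    (fun p _ => Metric.ball p (r p / 3)) (fun p _ => Metric.ball_mem_nhds p (by linarith [hr p]))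
  obtain ⟨r0, hr0, hle⟩ : ∃ r0 > 0, ∀ p ∈ t, r0 ≤ r p.1 / 3 := by
    classical
    induction t using Finset.induction_on with
    | empty => exact ⟨1, one_pos, by simp⟩
    | insert a s _ _ =>
      have : ∀ s : Finset (K ×ˢ K : Set (X × X)), ∃ r0 > 0, ∀ p ∈ s, r0 ≤ r p.1 / 3 := by
        intro s
        induction s using Finset.induction_on with
        | empty => exact ⟨1, one_pos, by simp⟩
        | insert a s _ ih =>
          obtain ⟨r0, h0, h1⟩ := ih
          refine ⟨min r0 (r a.1 / 3), lt_min h0 (by linarith [hr a.1]), ?_⟩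
          intro p hp
          rcases Finset.mem_insert.1 hp with rfl | hp
          · exact min_le_right _ _
          · exact (min_le_left _ _).trans (h1 p hp)
      exact this _
  refine ⟨r0, hr0, (t.finite_toSet.biUnion fun p _ => hfin p.1).subset ?_⟩
  rintro g ⟨k, hk, k', hk', hd⟩
  have := ht (show (k, k') ∈ K ×ˢ K from ⟨hk, hk'⟩)
  simp only [Set.mem_iUnion] at this
  obtain ⟨p, hp, hb⟩ := this
  simp only [Set.mem_iUnion]
  refine ⟨p, hp, ?_⟩
  rw [Metric.mem_ball, Prod.dist_eq, max_lt_iff] at hb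
  have h1 := dist_triangle4 (g • p.1.1) (g • k) k' p.1.2
  rw [dist_smul, dist_comm p.1.1 k] at h1
  have h2 := hle p hp
  simp only [Set.mem_ofPred_eq]
  linarith [hb.1, hb.2]

lemma bounded_finite [ProperlyDiscontinuousSMul G X] (h : IsCAT0 X) {K : Set X} (hK : IsCompact K)
    (hcov : ∀ x : X, ∃ g : G, g • x ∈ K) (R : ℝ) :
    {g : G | ∃ k ∈ K, ∃ k' ∈ K, dist (g • k) k' ≤ R}.Finite := by
  obtain ⟨r, hr, hfin⟩ := compact_finite (G := G) hK
  have key : ∀ n : ℕ, {g : G | ∃ k ∈ K, ∃ k' ∈ K, dist (g • k) k' ≤ n * (r / 2)}.Finite := by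
    intro n
    induction n with
    | zero =>
      refine hfin.subset ?_
      rintro g ⟨k, hk, k', hk', hd⟩
      exact ⟨k, hk, k', hk', by simp only [Nat.cast_zero, zero_mul] at hd; linarith⟩
    | succ n ih =>
      refine (hfin.image2 (· * ·) ih).subset ?_
      rintro g ⟨k, hk, k', hk', hd⟩
      obtain ⟨z, hz1, hz2⟩ := exists_point h (g • k) k' (a := n * (r / 2)) (r := r / 2)
        (by positivity) (by positivity) (by push_cast at hd; linarith)
      obtain ⟨γ, hγ⟩ := hcov z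
      refine ⟨γ⁻¹, ⟨γ • z, hγ, k', hk', by rw [inv_smul_smul]; linarith⟩, γ * g,
        ⟨k, hk, γ • z, hγ, by rwa [mul_smul, dist_smul]⟩, by simp⟩
  obtain ⟨n, hn⟩ := exists_nat_ge (R / (r / 2))
  refine (key n).subset ?_
  rintro g ⟨k, hk, k', hk', hd⟩
  refine ⟨k, hk, k', hk', hd.trans ?_⟩
  rwa [div_le_iff₀ (by positivity)] at hn

lemma exists_min [ProperlyDiscontinuousSMul G X] [Nonempty X] (h : IsCAT0 X) {K : Set X}
    (hK : IsCompact K) (hcov : ∀ x : X, ∃ g : G, g • x ∈ K) (g : G) :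
    ∃ x : X, ∀ y : X, dist x (g • x) ≤ dist y (g • y) := by
  classical
  obtain ⟨y0⟩ := ‹Nonempty X›
  have hfin := bounded_finite (G := G) h hK hcov (dist y0 (g • y0))
  have hKne : K.Nonempty := by
    obtain ⟨γ, hγ⟩ := hcov y0
    exact ⟨_, hγ⟩
  have hmin : ∀ a : G, ∃ k ∈ K, ∀ k' ∈ K, dist k (a • k) ≤ dist k' (a • k') := by
    intro a
    have hc : Continuous fun k : X => dist k (a • k) :=
      continuous_id.dist (isometry_smul X a).continuous
    obtain ⟨k, hk, hk'⟩ := hK.exists_isMinOn hKne hc.continuousOn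
    exact ⟨k, hk, fun k' h' => hk' h'⟩
  choose kk hkk1 hkk2 using hmin
  let T : Set G := {a | (∃ k ∈ K, ∃ k' ∈ K, dist (a • k) k' ≤ dist y0 (g • y0)) ∧
    ∃ γ : G, a = γ * g * γ⁻¹}
  have hT : T.Finite := hfin.subset fun a ha => ha.1
  have mem : ∀ y : X, dist y (g • y) ≤ dist y0 (g • y0) → ∀ γ : G, γ • y ∈ K →
      γ * g * γ⁻¹ ∈ T := by
    intro y hy γ hγ
    refine ⟨⟨γ • y, hγ, γ • y, hγ, ?_⟩, γ, rfl⟩
    rwa [mul_smul, mul_smul, inv_smul_smul, dist_smul, dist_comm]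
  have hne : T.Nonempty := by
    obtain ⟨γ, hγ⟩ := hcov y0
    exact ⟨_, mem y0 le_rfl γ hγ⟩
  obtain ⟨a, ⟨-, γ0, ha⟩, hmin⟩ := Set.exists_min_image T (fun a => dist (kk a) (a • kk a)) hT hne
  have e0 : dist (γ0⁻¹ • kk a) (g • γ0⁻¹ • kk a) = dist (kk a) (a • kk a) := by
    rw [← dist_smul γ0, smul_inv_smul, ← mul_smul, ← mul_smul, ← ha]
  have main : ∀ y : X, dist y (g • y) ≤ dist y0 (g • y0) → dist (kk a) (a • kk a) ≤ dist y (g • y) := by
    intro y hy
    obtain ⟨γ, hγ⟩ := hcov y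
    refine (hmin _ (mem y hy γ hγ)).trans ((hkk2 _ _ hγ).trans (le_of_eq ?_))
    rw [mul_smul, mul_smul, inv_smul_smul, dist_smul]
  refine ⟨γ0⁻¹ • kk a, fun y => ?_⟩
  rw [e0]
  by_cases hy : dist y (g • y) ≤ dist y0 (g • y0)
  · exact main y hy
  · exact (main y0 le_rfl).trans (not_le.1 hy).le

end Pool.Agent.Lib.MP_8646f6_al
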