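import Pool.Agent.Lib.MP_8646f6_al.Cat0a

/-! The obstruction: if `t` commutes with `a` and `b` and is conjugate to `[a,b] t`, then `[a,b]`
has finite order in a group acting geometrically on a CAT(0) space. -/

namespace Pool.Agent.Lib.MP_8646f6_al

open Defs

universe u

variable {X : Type u} [MetricSpace X] {G : Type} [Group G] [MulAction G X] [IsIsometricSMul G X]

/-- `x` has minimal displacement under `g`. -/
def IsMinPt (g : G) (x : X) : Prop := ∀ y : X, dist x (g • x) ≤ dist y (g • y)

lemma IsMinPt.eq {g : G} {x y : X} (hx : IsMinPt g x) (hy : IsMinPt g y) :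
    dist y (g • y) = dist x (g • x) := le_antisymm (hy x) (hx y)

lemma IsMinPt.smul {g a : G} {x : X} (hx : IsMinPt g x) (ha : Commute g a) : IsMinPt g (a • x) := by
  intro y
  rw [← mul_smul, ha.eq, mul_smul, dist_smul]
  exact hx y

lemma IsMinPt.mid (h : IsCAT0 X) {g : G} {x : X} (hx : IsMinPt g x) :
    dist x (g • g • x) = 2 * dist x (g • x) := by
  obtain ⟨m, hm, hm'⟩ := exists_mid_CN h x (g • x)
  have hm2 : IsMid (g • x) (g • g • x) (g • m) := by
    constructor
    · rw [dist_smul, dist_smul]; exact hm.1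
    · rw [dist_smul, dist_smul]; exact hm.2
  have h1 := CN h hm2 m
  have h2 := hm' (g • g • x)
  have h3 := hx m
  have h4 := dist_triangle x (g • x) (g • g • x)
  rw [dist_smul] at h1 h2 h4
  rw [hm.2, dist_comm m (g • g • x)] at h1
  rw [dist_comm (g • g • x) x, dist_comm (g • x) x] at h2
  have p1 : 0 ≤ dist x (g • x) := dist_nonneg
  have p2 : 0 ≤ dist x (g • g • x) := dist_nonneg
  have h5 : dist x (g • x) ^ 2 ≤ dist m (g • m) ^ 2 := by gcongr
  have h6 : (2 * dist x (g • x)) ^ 2 ≤ dist x (g • g • x) ^ 2 := by nlinarith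
  have h7 := (abs_le_of_sq_le_sq' h6 p2).2
  linarith

lemma IsMinPt.convex (h : IsCAT0 X) {g : G} {x : X} (hx : IsMinPt g x) (z : X) (k : ℤ) :
    2 * dist z (g ^ k • x) ^ 2 + 2 * dist x (g • x) ^ 2 ≤
      dist z (g ^ (k - 1) • x) ^ 2 + dist z (g ^ (k + 1) • x) ^ 2 := by
  have e1 : g ^ k • x = g ^ (k - 1) • g • x := by rw [← mul_smul, ← zpow_add_one, sub_add_cancel]
  have e2 : g ^ (k + 1) • x = g ^ (k - 1) • g • g • x := by
    rw [← mul_smul, ← mul_smul, ← zpow_add_one, ← zpow_add_one, sub_add_cancel]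
  have hm : IsMid (g ^ (k - 1) • x) (g ^ (k + 1) • x) (g ^ k • x) := by
    rw [e1, e2]
    constructor
    · rw [dist_smul, dist_smul, hx.mid h]; ring
    · rw [dist_smul, dist_smul, dist_smul, hx.mid h]; ring
  have := CN h hm z
  rw [e2, dist_smul, hx.mid h, ← e2] at this
  nlinarith

lemma dist_pow_le (g : G) (x : X) (n : ℕ) : dist x (g ^ n • x) ≤ n * dist x (g • x) := by
  induction n with
  | zero => simp
  | succ n ih =>
    have := dist_triangle x (g ^ n • x) (g ^ (n + 1) • x)
    rw [pow_succ, mul_smul, dist_smul] at this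
    rw [pow_succ, mul_smul]
    push_cast
    linarith

lemma IsMinPt.dist_pow (h : IsCAT0 X) {g : G} {x : X} (hx : IsMinPt g x) (n : ℕ) :
    dist x (g ^ n • x) = n * dist x (g • x) := by
  have key : ∀ n : ℕ, dist x (g ^ n • x) ^ 2 + (2 * n + 1) * dist x (g • x) ^ 2 ≤
      dist x (g ^ (n + 1) • x) ^ 2 := by
    intro n
    induction n with
    | zero => simp
    | succ n ih =>
      have := hx.convex h x ((n + 1 : ℕ) : ℤ)
      rw [show ((n + 1 : ℕ) : ℤ) - 1 = (n : ℕ) by push_cast; ring,
        show ((n + 1 : ℕ) : ℤ) + 1 = ((n + 1 + 1 : ℕ) : ℤ) by push_cast; ring,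
        zpow_natCast, zpow_natCast, zpow_natCast] at this
      push_cast
      nlinarith
  have key2 : ∀ n : ℕ, (n * dist x (g • x)) ^ 2 ≤ dist x (g ^ n • x) ^ 2 := by
    intro n
    induction n with
    | zero => simp
    | succ n ih =>
      have := key n
      push_cast
      nlinarith
  exact le_antisymm (dist_pow_le g x n) (abs_le_of_sq_le_sq' (key2 n) dist_nonneg).2

lemma affine_of_convex (D : ℤ → ℝ) (hc : ∀ k, 2 * D k ≤ D (k - 1) + D (k + 1))
    (hs : ∀ n : ℕ, D n + D (-n) ≤ 2 * D 0) (k : ℤ) : D k = D 0 + k * (D 1 - D 0) := by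
  have mono : Monotone fun k => D (k + 1) - D k := by
    apply monotone_int_of_le_succ
    intro k
    have := hc (k + 1)
    rw [add_sub_cancel_right] at this
    linarith
  have ge : ∀ n : ℕ, 2 * D 0 ≤ D n + D (-n) := by
    intro n
    induction n with
    | zero => simp [two_mul]
    | succ n ih =>
      have := mono (show -((n : ℤ) + 1) ≤ n by omega)
      simp only [neg_add_rev, neg_add_cancel_comm] at this
      push_cast
      rw [neg_add_rev]
      linarith
  have eqn : ∀ n : ℕ, D (n + 1) - D n = D (-((n : ℤ) + 1) + 1) - D (-((n : ℤ) + 1)) := by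
    intro n
    have a1 := hs n
    have a2 := ge n
    have a3 := hs (n + 1)
    have a4 := ge (n + 1)
    push_cast at a3 a4
    rw [show -((n : ℤ) + 1) + 1 = -n by ring]
    linarith
  have const : ∀ k : ℤ, D (k + 1) - D k = D 1 - D 0 := by
    intro k
    have a1 := mono (show -((k.natAbs : ℤ) + 1) ≤ k by omega)
    have a2 := mono (show k ≤ (k.natAbs : ℤ) by omega)
    have a3 := mono (show -((k.natAbs : ℤ) + 1) ≤ 0 by omega)
    have a4 := mono (show 0 ≤ (k.natAbs : ℤ) by omega)
    have a5 := eqn k.natAbs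
    simp only [zero_add] at a1 a2 a3 a4
    linarith
  induction k using Int.induction_on with
  | zero => simp
  | succ n ih => have := const n; push_cast at ih ⊢; linarith
  | pred n ih =>
    have := const (-(n : ℤ) - 1)
    rw [sub_add_cancel] at this
    push_cast at ih ⊢
    linarith

/-- The shift of `y` with respect to `x` along the axes of `g`. -/
noncomputable def shift (g : G) (x y : X) : ℝ :=
  dist x (g • y) ^ 2 - dist x y ^ 2 - dist x (g • x) ^ 2

lemma IsMinPt.quadratic (h : IsCAT0 X) {g : G} {x y : X} (hx : IsMinPt g x) (hy : IsMinPt g y)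
    (k : ℤ) : dist x (g ^ k • y) ^ 2 = dist x y ^ 2 + k * shift g x y + k ^ 2 * dist x (g • x) ^ 2 := by
  have := affine_of_convex (fun k => dist x (g ^ k • y) ^ 2 - k ^ 2 * dist x (g • x) ^ 2) (by
    intro k
    have := hy.convex h x k
    rw [hx.eq hy] at this
    push_cast
    nlinarith) (by
    intro n
    have := quad h x (g ^ n • x) (g ^ n • y) y
    rw [dist_smul, hx.dist_pow h, dist_comm (g ^ n • y) y, hy.dist_pow h, hx.eq hy,
      dist_comm y x] at this
    have e : dist (g ^ n • x) y = dist x (g ^ (-(n : ℤ)) • y) := by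
      rw [← dist_smul (g ^ n) x, ← mul_smul, zpow_neg, zpow_natCast, mul_inv_cancel, one_smul]
    rw [e] at this
    simp only [zpow_natCast, zpow_zero, one_smul]
    push_cast
    nlinarith) k
  simp only [zpow_zero, one_smul, zpow_one] at this
  simp only [shift]
  push_cast at this
  nlinarith

lemma eq_zero_of_mul_le {a C : ℝ} (h : ∀ k : ℤ, k * a ≤ C) : a = 0 := by
  by_contra hne
  obtain ⟨n, hn⟩ := exists_nat_gt (C / |a|)
  rw [div_lt_iff₀ (abs_pos.2 hne)] at hn
  rcases abs_cases a with ⟨h1, -⟩ | ⟨h1, -⟩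
  · have := h n
    rw [h1] at hn
    push_cast at this
    linarith
  · have := h (-n)
    rw [h1] at hn
    push_cast at this
    linarith

lemma IsMinPt.shift_add (h : IsCAT0 X) {g : G} {x y z : X} (hx : IsMinPt g x) (hy : IsMinPt g y)
    (hz : IsMinPt g z) : shift g x z = shift g x y + shift g y z := by
  have : 2 * (shift g x z - shift g x y - shift g y z) = 0 := by
    apply eq_zero_of_mul_le (C := 2 * dist x y ^ 2 + 2 * dist y z ^ 2)
    intro k
    have h1 := hx.quadratic h hz (k + k)
    have h2 := hx.quadratic h hy k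
    have h3 := hy.quadratic h hz k
    have h4 := dist_triangle x (g ^ k • y) (g ^ (k + k) • z)
    rw [zpow_add, mul_smul, dist_smul, ← mul_smul, ← zpow_add] at h4
    rw [hx.eq hy] at h3
    have p : 0 ≤ dist x (g ^ (k + k) • z) := dist_nonneg
    have h5 : dist x (g ^ (k + k) • z) ^ 2 ≤ (dist x (g ^ k • y) + dist y (g ^ k • z)) ^ 2 := by
      gcongr
    push_cast at h1
    nlinarith [sq_nonneg (dist x (g ^ k • y) - dist y (g ^ k • z)), sq_nonneg (dist x z)]
  linarith

lemma shift_smul {g a : G} (ha : Commute g a) (x y : X) :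
    shift g (a • x) (a • y) = shift g x y := by
  simp only [shift, ← mul_smul, ha.eq]
  simp only [mul_smul, dist_smul]

lemma IsMinPt.shift_mul (h : IsCAT0 X) {g a b : G} {x : X} (hx : IsMinPt g x) (ha : Commute g a)
    (hb : Commute g b) : shift g x ((a * b) • x) = shift g x (a • x) + shift g x (b • x) := by
  rw [hx.shift_add h (hx.smul ha) (hx.smul (ha.mul_right hb)), mul_smul, shift_smul ha]

theorem finite_order_of_geometric [Nonempty X] (h : IsCAT0 X) (hG : IsGeometricAction G X)
    {t a b s : G} (ha : Commute t a) (hb : Commute t b)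
    (hs : s⁻¹ * t * s = a * b * a⁻¹ * b⁻¹ * t) : IsOfFinOrder (a * b * a⁻¹ * b⁻¹) := by
  obtain ⟨-, hpd, K, hK, hcov⟩ := hG
  set c := a * b * a⁻¹ * b⁻¹ with hc
  have hct : Commute t c := ((ha.mul_right hb).mul_right ha.inv_right).mul_right hb.inv_right
  obtain ⟨x, hx⟩ : ∃ x : X, IsMinPt t x := exists_min h hK hcov t
  obtain ⟨y, hy⟩ : ∃ y : X, IsMinPt c y := exists_min h hK hcov c
  have s1 : shift t x ((1 : G) • x) = 0 := by simp [shift]
  have sinv : ∀ u, Commute t u → shift t x (u⁻¹ • x) = -shift t x (u • x) := by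
    intro u hu
    have := hx.shift_mul h hu hu.inv_right
    rw [mul_inv_cancel, s1] at this
    linarith
  have sc : shift t x (c • x) = 0 := by
    rw [hc, hx.shift_mul h ((ha.mul_right hb).mul_right ha.inv_right) hb.inv_right,
      hx.shift_mul h (ha.mul_right hb) ha.inv_right, hx.shift_mul h ha hb, sinv a ha, sinv b hb]
    ring
  have scn : ∀ n : ℕ, shift t x (c ^ n • x) = 0 := by
    intro n
    induction n with
    | zero => rw [pow_zero]; exact s1
    | succ n ih => rw [pow_succ, hx.shift_mul h (hct.pow_right n) hct, ih, sc, add_zero]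
  have bound : ∀ n : ℕ, dist x (c ^ n • x) ^ 2 ≤
      4 * dist x (s • x) ^ 2 + 4 * dist x (s • x) * n * dist x (t • x) := by
    intro n
    have h1 := hx.quadratic h (hx.smul (hct.pow_right n)) n
    rw [scn, zpow_natCast, ← mul_smul, (hct.pow_pow n n).eq, ← hct.symm.mul_pow, ← hs] at h1
    have e : (s⁻¹ * t * s) ^ n = s⁻¹ * t ^ n * s := by
      have := conj_pow (a := s⁻¹) (b := t) (i := n)
      rwa [inv_inv] at this
    rw [e, mul_smul, mul_smul, ← dist_smul s, smul_inv_smul] at h1
    have h2 := dist_triangle4 (s • x) x (t ^ n • x) (t ^ n • s • x)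
    rw [dist_smul, hx.dist_pow h, dist_comm (s • x) x] at h2
    have p : 0 ≤ dist (s • x) (t ^ n • s • x) := dist_nonneg
    have h3 : dist (s • x) (t ^ n • s • x) ^ 2 ≤
        (dist x (s • x) + n * dist x (t • x) + dist x (s • x)) ^ 2 := by gcongr
    push_cast at h1
    nlinarith
  have hfix : dist y (c • y) = 0 := by
    by_contra hne
    have hpos : 0 < dist y (c • y) := lt_of_le_of_ne dist_nonneg (Ne.symm hne)
    set τ := dist y (c • y)
    set A := 8 * dist x y ^ 2 + 8 * dist x (s • x) ^ 2
    set B := 8 * dist x (s • x) * dist x (t • x)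
    have key : ∀ n : ℕ, (n * τ) ^ 2 ≤ A + B * n := by
      intro n
      have h1 := dist_triangle4 y x (c ^ n • x) (c ^ n • y)
      rw [dist_smul, hy.dist_pow h, dist_comm y x] at h1
      have h2 := bound n
      have p : 0 ≤ n * τ := by positivity
      have h3 : (n * τ) ^ 2 ≤ (dist x y + dist x (c ^ n • x) + dist x y) ^ 2 := by gcongr
      simp only [A, B]
      nlinarith [sq_nonneg (2 * dist x y - dist x (c ^ n • x))]
    have hA : 0 ≤ A := by positivity
    have hB : 0 ≤ B := by positivity
    obtain ⟨n, hn⟩ := exists_nat_gt ((A + B) / τ ^ 2)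
    rw [div_lt_iff₀ (by positivity)] at hn
    have := key (n + 1)
    push_cast at this
    have hn0 : (0 : ℝ) ≤ n := Nat.cast_nonneg n
    nlinarith [mul_nonneg hn0 hA, mul_nonneg hn0 hB, sq_pos_of_pos hpos, mul_nonneg hn0 hn0,
      mul_le_mul_of_nonneg_left hn.le hn0]
  have hfix' : c • y = y := (dist_eq_zero.1 hfix).symm
  have hfin := ProperlyDiscontinuousSMul.finite_disjoint_inter_image (Γ := G)
    (isCompact_singleton (x := y)) (isCompact_singleton (x := y))
  rw [← finite_powers]
  refine hfin.subset ?_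
  rintro g ⟨n, rfl⟩
  refine ⟨y, ⟨y, rfl, ?_⟩, rfl⟩
  exact (MulAction.stabilizer G y).pow_mem (show c ∈ MulAction.stabilizer G y from hfix') n

end Pool.Agent.Lib.MP_8646f6_al
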