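import Mathlib

namespace Pool.Agent.Lib.MP_8646f6_al.Defs

universe u

/-- The mapping torus `F ⋊ ℤ` of an automorphism `Φ` of the free group of rank `n`; the generator
`t` of `ℤ` satisfies `t x t⁻¹ = Φ x`. -/
abbrev MappingTorus {n : ℕ} (Φ : MulAut (FreeGroup (Fin n))) : Type :=
  SemidirectProduct (FreeGroup (Fin n)) (Multiplicative ℤ)
    (zpowersHom (MulAut (FreeGroup (Fin n))) Φ)

/-- A median algebra. -/
def IsMedianAlgebra {P : Type} (m : P → P → P → P) : Prop :=
  (∀ a b c, m a b c = m b a c) ∧ (∀ a b c, m a b c = m b c a) ∧ (∀ a b, m a a b = a) ∧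
    ∀ a b c d e, m a b (m c d e) = m (m a b c) (m a b d) e

/-- Bowditch's conditions (C1) and (C2) for a coarse median `μ` on a space with metric `ρ`. -/
def IsCoarseMedian {Λ : Type} (ρ : Λ → Λ → ℝ) (μ : Λ → Λ → Λ → Λ) : Prop :=
  (∃ k h₀ : ℝ, ∀ a b c a' b' c',
    ρ (μ a b c) (μ a' b' c') ≤ k * (ρ a a' + ρ b b' + ρ c c') + h₀) ∧
  ∃ h : ℕ → ℝ, ∀ (p : ℕ) (A : Finset Λ), 1 ≤ A.card → A.card ≤ p →
    ∃ (P : Type) (_ : Finite P) (m : P → P → P → P) (π : A → P) (lam : P → Λ),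
      IsMedianAlgebra m ∧ (∀ x y z, ρ (lam (m x y z)) (μ (lam x) (lam y) (lam z)) ≤ h p) ∧
        ∀ a : A, ρ a (lam (π a)) ≤ h p

/-- A finitely generated group whose word metric, for each finite generating set, admits a coarse
median. -/
def IsCoarseMedianGroup (G : Type) [Group G] : Prop :=
  Group.FG G ∧ ∀ S : Finset G, Subgroup.closure (S : Set G) = ⊤ →
    ∃ μ : G → G → G → G,
      IsCoarseMedian (fun x y => ((SimpleGraph.mulCayley (S : Set G)).dist x y : ℝ)) μ

/-- A geodesic segment from `x` to `y`, parametrised on `[0,1]` with constant speed. -/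
def IsGeodesic {X : Type u} [MetricSpace X] (γ : ℝ → X) (x y : X) : Prop :=
  γ 0 = x ∧ γ 1 = y ∧
    ∀ s ∈ Set.Icc (0 : ℝ) 1, ∀ t ∈ Set.Icc (0 : ℝ) 1, dist (γ s) (γ t) = |s - t| * dist x y

/-- A CAT(0) space: geodesic, and points on two sides of a geodesic triangle are no further apart
than their comparison points in the Euclidean plane. -/
def IsCAT0 (X : Type u) [MetricSpace X] : Prop :=
  (∀ x y : X, ∃ γ : ℝ → X, IsGeodesic γ x y) ∧
  ∀ (x y z : X) (γ δ : ℝ → X), IsGeodesic γ x y → IsGeodesic δ x z →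
    ∀ x' y' z' : EuclideanSpace ℝ (Fin 2),
      dist x' y' = dist x y → dist x' z' = dist x z → dist y' z' = dist y z →
        ∀ s ∈ Set.Icc (0 : ℝ) 1, ∀ t ∈ Set.Icc (0 : ℝ) 1,
          dist (γ s) (δ t) ≤ dist (AffineMap.lineMap x' y' s) (AffineMap.lineMap x' z' t)

/-- A geometric action: by isometries, properly discontinuous and cocompact. -/
def IsGeometricAction (G : Type) (X : Type u) [Group G] [MetricSpace X] [MulAction G X] : Prop :=
  IsIsometricSMul G X ∧ ProperlyDiscontinuousSMul G X ∧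
    ∃ K : Set X, IsCompact K ∧ ∀ x : X, ∃ g : G, g • x ∈ K

end Pool.Agent.Lib.MP_8646f6_al.Defs
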