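import Pool.Agent.Lib.MP_8646f6_al.Neutral
import Pool.Agent.Lib.MP_8646f6_al.Cat0b

/-! The obstruction passes to subgroups of finite index and to overgroups. -/

namespace Pool.Agent.Lib.MP_8646f6_al.Neu

open Filter Topology Defs

universe u

variable {Γ : Type} [Group Γ] (H : Subgroup Γ)

/-- The cocycle of a transversal. -/
noncomputable def coc (g : Γ) (q : Γ ⧸ H) : H :=
  ⟨q.out⁻¹ * (g * (g⁻¹ • q).out), by
    rw [← QuotientGroup.eq, QuotientGroup.out_eq', ← smul_eq_mul, MulAction.Quotient.coe_smul_out,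
      smul_inv_smul]⟩

lemma coc_mul (γ g : Γ) (q : Γ ⧸ H) : coc H (γ * g) q = coc H γ q * coc H g (γ⁻¹ • q) := by
  ext
  simp only [coc, Subgroup.coe_mul, mul_inv_rev, mul_smul]
  group

/-- In every isometric action of a subgroup of finite index on a CAT(0) space some element of
infinite order has sublinear displacement. -/
theorem exists_sublinear {t c s : Γ}
    (hc : c ∈ ⁅Subgroup.centralizer {t}, Subgroup.centralizer {t}⁆) (hs : s⁻¹ * t * s = c * t)
    (hinf : ¬IsOfFinOrder c) [H.FiniteIndex] {X : Type u} [MetricSpace X] [MulAction H X]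
    [IsIsometricSMul H X] (hX : IsCAT0 X) (x : X) : ∃ v : H, ¬IsOfFinOrder v ∧
      Tendsto (fun n : ℕ => dist x (v ^ n • x) / n) atTop (𝓝 0) := by
  classical
  have := Fintype.ofFinite (Γ ⧸ H)
  let F : Γ → PiLp 2 (fun _ : Γ ⧸ H => X) := fun g => WithLp.toLp 2 fun q => coc H g q • x
  have dsq : ∀ a b : PiLp 2 (fun _ : Γ ⧸ H => X), dist a b ^ 2 = ∑ q, dist (a q) (b q) ^ 2 := by
    intro a b
    rw [PiLp.dist_eq_sum (by norm_num)]
    simp only [ENNReal.toReal_ofNat, Real.rpow_two]
    rw [← Real.sqrt_eq_rpow, Real.sq_sqrt (by positivity)]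
  have Q : Quad fun g h => dist (F g) (F h) := by
    refine ⟨fun g => dist_self _, fun g h => dist_comm _ _, fun g h k => dist_triangle _ _ _,
      fun γ g h => ?_, fun p q r s => ?_⟩
    · refine (pow_left_inj₀ dist_nonneg dist_nonneg two_ne_zero).1 ?_
      rw [dsq, dsq]
      simp only [F, coc_mul, mul_smul, dist_smul]
      exact Equiv.sum_comp (MulAction.toPerm γ⁻¹) fun q => dist (coc H g q • x) (coc H h q • x) ^ 2
    · simp only [dsq, ← Finset.sum_add_distrib]
      exact Finset.sum_le_sum fun i _ => quad hX _ _ _ _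
  obtain ⟨N, hN, -, hNH⟩ := Subgroup.exists_pow_mem_of_index_ne_zero
    (Subgroup.FiniteIndex.index_ne_zero (H := H)) c
  let q0 : Γ ⧸ H := (1 : Γ)
  have fix : ∀ g ∈ H, g • q0 = q0 := fun g hg => by
    show ((g * 1 : Γ) : Γ ⧸ H) = (1 : Γ)
    rw [QuotientGroup.eq]
    simpa using hg
  have e : ∀ n : ℕ, coc H (c ^ (N * n)) q0 = coc H (c ^ N) q0 ^ n := by
    intro n
    induction n with
    | zero => ext; simp [coc]
    | succ n ih =>
      rw [mul_add, mul_one, pow_add, coc_mul, ih, pow_succ, fix]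
      rw [pow_mul]
      exact inv_mem (pow_mem hNH n)
  refine ⟨coc H (c ^ N) q0, fun hv => hinf ?_, ?_⟩
  · obtain ⟨n, hn, h1⟩ := isOfFinOrder_iff_pow_eq_one.1 hv
    rw [← e] at h1
    have h2 := congrArg Subtype.val h1
    simp only [coc, OneMemClass.coe_one] at h2
    rw [fix _ (by rw [pow_mul]; exact inv_mem (pow_mem hNH n)), inv_mul_eq_one] at h2
    exact isOfFinOrder_iff_pow_eq_one.2 ⟨N * n, by positivity, by simpa using h2⟩
  · have h1 := Q.tends c
    rw [Q.len_eq_zero hc hs] at h1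
    have h2 := (h1.comp (tendsto_id.const_mul_atTop' hN)).const_mul (N : ℝ)
    rw [mul_zero] at h2
    refine squeeze_zero (fun n => by positivity) (fun n => ?_) h2
    have h3 : dist x (coc H (c ^ N) q0 ^ n • x) ≤ dist (F 1) (F (c ^ (N * n))) := by
      have := PiLp.dist_apply_le (F 1) (F (c ^ (N * n))) q0
      have e0 := e 0
      rw [mul_zero, pow_zero, pow_zero] at e0
      simpa only [F, e, e0, one_smul] using this
    have hN' : (N : ℝ) ≠ 0 := by positivity
    simp only [Function.comp, id, Nat.cast_mul]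
    rw [← mul_div_assoc, mul_div_mul_left _ _ hN']
    exact div_le_div_of_nonneg_right h3 (Nat.cast_nonneg n)

theorem not_geometric_virt {t c s : Γ}
    (hc : c ∈ ⁅Subgroup.centralizer {t}, Subgroup.centralizer {t}⁆) (hs : s⁻¹ * t * s = c * t)
    (hinf : ¬IsOfFinOrder c) [H.FiniteIndex] {G : Type} [Group G] (f : H →* G)
    (hf : Function.Injective f) (X : Type u) [MetricSpace X] [Nonempty X] [MulAction G X]
    (hX : IsCAT0 X) : ¬IsGeometricAction G X := by
  rintro ⟨hi, hpd, K, hK, hcov⟩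
  let _ : MulAction H X := MulAction.compHom X f
  have : IsIsometricSMul H X := ⟨fun v => isometry_smul X (f v)⟩
  obtain ⟨x⟩ := ‹Nonempty X›
  obtain ⟨v, hv, hlim⟩ := exists_sublinear H hc hs hinf hX x
  obtain ⟨y, hy⟩ : ∃ y : X, IsMinPt (f v) y := exists_min hX hK hcov (f v)
  have h0 : dist y (f v • y) ≤ 0 := by
    have h1 := hlim.add (tendsto_const_div_atTop_nhds_zero_nat (2 * dist x y))
    rw [add_zero] at h1
    refine ge_of_tendsto h1 ?_
    filter_upwards [eventually_gt_atTop 0] with n hn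
    have h2 := dist_triangle4 y x (f v ^ n • x) (f v ^ n • y)
    rw [dist_smul, hy.dist_pow hX, dist_comm y x] at h2
    have h3 : v ^ n • x = f v ^ n • x := by rw [← map_pow]; rfl
    rw [← add_div, le_div_iff₀ (by exact_mod_cast hn), h3]
    linarith
  have hfix : f v • y = y := (dist_le_zero.1 h0).symm
  have hfin := ProperlyDiscontinuousSMul.finite_disjoint_inter_image (Γ := G)
    (isCompact_singleton (x := y)) (isCompact_singleton (x := y))
  refine hv (hf.isOfFinOrder_iff.1 ?_)
  rw [← finite_powers]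
  refine hfin.subset ?_
  rintro g ⟨n, rfl⟩
  refine ⟨y, ⟨y, rfl, ?_⟩, rfl⟩
  exact (MulAction.stabilizer G y).pow_mem (show f v ∈ MulAction.stabilizer G y from hfix) n

end Pool.Agent.Lib.MP_8646f6_al.Neu
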