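import Pool.Agent.Lib.MP_8646f6_al.Defs

/-! Transport of a Lipschitz median algebra structure to the word metric of a group. -/

namespace Pool.Agent.Lib.MP_8646f6_al

open Defs

section chain
variable {M : Type} (N : M → M → Prop)

/-- A chain of `n` steps. -/
def Chain : ℕ → M → M → Prop
  | 0, p, q => p = q
  | n + 1, p, q => ∃ r, N p r ∧ Chain n r q

variable {N}

lemma Chain.trans {m n : ℕ} {p q r : M} (h1 : Chain N m p q) (h2 : Chain N n q r) :
    Chain N (m + n) p r := by
  induction m generalizing p with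
  | zero => obtain rfl : p = q := h1; simpa using h2
  | succ m ih =>
    obtain ⟨s, hs, hs'⟩ := h1
    rw [Nat.add_right_comm]
    exact ⟨s, hs, ih hs'⟩

lemma Chain.single {p q : M} (h : N p q) : Chain N 1 p q := ⟨q, h, rfl⟩

lemma Chain.refl (hr : ∀ p, N p p) (n : ℕ) (p : M) : Chain N n p p := by
  induction n with
  | zero => rfl
  | succ n ih => exact ⟨p, hr p, ih⟩

lemma Chain.mono (hr : ∀ p, N p p) {m n : ℕ} {p q : M} (h : Chain N m p q) (hmn : m ≤ n) :
    Chain N n p q := by
  obtain ⟨k, rfl⟩ := Nat.exists_eq_add_of_le hmn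
  exact h.trans (Chain.refl hr k q)

lemma Chain.symm (hs : ∀ p q, N p q → N q p) {n : ℕ} {p q : M} (h : Chain N n p q) :
    Chain N n q p := by
  induction n generalizing p with
  | zero => exact Eq.symm h
  | succ n ih =>
    obtain ⟨r, hr, hr'⟩ := h
    exact (ih hr').trans (Chain.single (hs _ _ hr))

lemma Chain.map {φ : M → M} (hφ : ∀ p q, N p q → N (φ p) (φ q)) {n : ℕ} {p q : M}
    (h : Chain N n p q) : Chain N n (φ p) (φ q) := by
  induction n generalizing p with
  | zero => exact congrArg φ h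
  | succ n ih =>
    obtain ⟨r, hr, hr'⟩ := h
    exact ⟨φ r, hφ _ _ hr, ih hr'⟩

end chain

section cayley
variable {G : Type} [Group G] (S : Set G)

lemma cayley_connected (hS : Subgroup.closure S = ⊤) : (SimpleGraph.mulCayley S).Connected := by
  have key : ∀ g : G, ∀ x, (SimpleGraph.mulCayley S).Reachable x (x * g) := by
    intro g
    have hg : g ∈ Subgroup.closure S := hS ▸ Subgroup.mem_top g
    induction hg using Subgroup.closure_induction with
    | mem s hs =>
      intro x
      by_cases h : x = x * s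
      · rw [← h]
      · exact SimpleGraph.Adj.reachable
          ((SimpleGraph.mulCayley_adj' S _ _).2 ⟨h, s, hs, Or.inl rfl⟩)
    | one => intro x; rw [mul_one]
    | mul a b _ _ ha hb => intro x; rw [← mul_assoc]; exact (ha x).trans (hb _)
    | inv a _ ha =>
      intro x
      have := ha (x * a⁻¹)
      rw [inv_mul_cancel_right] at this
      exact this.symm
  haveI : Nonempty G := ⟨1⟩
  refine ⟨fun x y => ?_⟩
  have := key (x⁻¹ * y) x
  rwa [mul_inv_cancel_left] at this

lemma cayley_dist_mul (hS : Subgroup.closure S = ⊤) (x e : G) :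
    (SimpleGraph.mulCayley S).dist x (x * e) ≤ (SimpleGraph.mulCayley S).dist 1 e := by
  obtain ⟨p, hp⟩ := (cayley_connected S hS).exists_walk_length_eq_dist 1 e
  let φ : SimpleGraph.mulCayley S →g SimpleGraph.mulCayley S :=
    ⟨fun y => x * y, fun h => SimpleGraph.mulCayley_adj_mul_iff_right.2 h⟩
  have := SimpleGraph.dist_le (p.map φ)
  rw [SimpleGraph.Walk.length_map, hp] at this
  simpa [φ] using this

end cayley

theorem transport {G : Type} [Group G] (S : Finset G) (hS : Subgroup.closure (S : Set G) = ⊤)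
    {M : Type} (m : M → M → M → M) (hm : IsMedianAlgebra m)
    (hfin : ∀ A : Finset M, ∃ B : Set M, B.Finite ∧ (∀ a ∈ A, a ∈ B) ∧
      ∀ x ∈ B, ∀ y ∈ B, ∀ z ∈ B, m x y z ∈ B)
    (N : M → M → Prop) (hr : ∀ p, N p p) (hs : ∀ p q, N p q → N q p)
    (hN : ∀ p q y z, N p q → N (m p y z) (m q y z))
    (f : G → M) (g : M → G) (hgf : ∀ x, g (f x) = x)
    (E : Set G) (hE : E.Finite) (hE' : ∀ p q, N p q → ∃ e ∈ E, g q = g p * e ∨ g p = g q * e)
    (h1 : ∀ s : G, ∃ C, ∀ x, Chain N C (f x) (f (x * s)))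
    (h2 : ∃ C, ∀ p, Chain N C p (f (g p))) :
    ∃ μ : G → G → G → G,
      IsCoarseMedian (fun x y => ((SimpleGraph.mulCayley (S : Set G)).dist x y : ℝ)) μ := by
  classical
  set Γ := SimpleGraph.mulCayley (S : Set G) with hΓ
  have hconn : Γ.Connected := cayley_connected _ hS
  obtain ⟨C0, hC0⟩ : ∃ C0 : ℕ, ∀ p q, N p q → Γ.dist (g p) (g q) ≤ C0 := by
    refine ⟨hE.toFinset.sup fun e => Γ.dist 1 e, fun p q h => ?_⟩
    obtain ⟨e, he, h'⟩ := hE' p q h
    have hle : Γ.dist 1 e ≤ hE.toFinset.sup fun e => Γ.dist 1 e :=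
      Finset.le_sup (f := fun e => Γ.dist 1 e) (hE.mem_toFinset.2 he)
    rcases h' with h' | h'
    · rw [h']; exact (cayley_dist_mul _ hS _ _).trans hle
    · rw [SimpleGraph.dist_comm, h']; exact (cayley_dist_mul _ hS _ _).trans hle
  have hchain : ∀ n p q, Chain N n p q → Γ.dist (g p) (g q) ≤ C0 * n := by
    intro n
    induction n with
    | zero => intro p q h; obtain rfl : p = q := h; simp
    | succ n ih =>
      rintro p q ⟨r, h, h'⟩
      have a1 := hconn.dist_triangle (u := g p) (v := g r) (w := g q)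
      have a2 := hC0 _ _ h
      have a3 := ih _ _ h'
      rw [Nat.mul_succ]
      omega
  choose C1 hC1 using h1
  obtain ⟨C2, hC2⟩ := h2
  set C := S.sup C1 with hC
  have hwalk : ∀ x y (p : Γ.Walk x y), Chain N (C * p.length) (f x) (f y) := by
    intro x y p
    induction p with
    | nil => rfl
    | cons h p ih =>
      rw [SimpleGraph.Walk.length_cons, Nat.mul_succ, Nat.add_comm]
      refine Chain.trans ?_ ih
      obtain ⟨-, s, hsS, h' | h'⟩ := (SimpleGraph.mulCayley_adj' _ _ _).1 h
      · rw [← h']; exact (hC1 s _).mono hr (Finset.le_sup hsS)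
      · rw [h']; exact ((hC1 s _).mono hr (Finset.le_sup hsS)).symm hs
  have hdist : ∀ x y, Chain N (C * Γ.dist x y) (f x) (f y) := by
    intro x y
    obtain ⟨p, hp⟩ := hconn.exists_walk_length_eq_dist x y
    rw [← hp]; exact hwalk x y p
  have h3 : ∀ {i j k : ℕ} {a b c a' b' c' : M}, Chain N i a a' → Chain N j b b' →
      Chain N k c c' → Chain N (i + j + k) (m a b c) (m a' b' c') := by
    intro i j k a b c a' b' c' ha hb hc
    have e1 : Chain N i (m a b c) (m a' b c) :=
      ha.map (φ := fun p => m p b c) fun p q h => hN p q _ _ h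
    have e2 : Chain N j (m a' b c) (m a' b' c) := by
      rw [hm.1 a' b, hm.1 a' b']
      exact hb.map (φ := fun p => m p a' c) fun p q h => hN p q _ _ h
    have e3 : Chain N k (m a' b' c) (m a' b' c') := by
      rw [← hm.2.1 c a' b', ← hm.2.1 c' a' b']
      exact hc.map (φ := fun p => m p a' b') fun p q h => hN p q _ _ h
    exact (e1.trans e2).trans e3
  refine ⟨fun x y z => g (m (f x) (f y) (f z)), ⟨C0 * C, 0, ?_⟩, fun _ => C0 * (C2 + C2 + C2), ?_⟩
  · intro a b c a' b' c'
    have := hchain _ _ _ (h3 (hdist a a') (hdist b b') (hdist c c'))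
    rw [add_zero]
    have e : C0 * (C * Γ.dist a a' + C * Γ.dist b b' + C * Γ.dist c c') =
        C0 * C * (Γ.dist a a' + Γ.dist b b' + Γ.dist c c') := by ring
    rw [e] at this
    beta_reduce
    exact_mod_cast this
  · intro p A _ _
    obtain ⟨B, hB, hAB, hcl⟩ := hfin (A.image f)
    refine ⟨B, hB.to_subtype, fun x y z => ⟨m x y z, hcl _ x.2 _ y.2 _ z.2⟩,
      fun a => ⟨f a, hAB _ (Finset.mem_image_of_mem f a.2)⟩, fun x => g x, ⟨?_, ?_, ?_, ?_⟩, ?_, ?_⟩
    · intro a b c; exact Subtype.ext (hm.1 _ _ _)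
    · intro a b c; exact Subtype.ext (hm.2.1 _ _ _)
    · intro a b; exact Subtype.ext (hm.2.2.1 _ _)
    · intro a b c d e; exact Subtype.ext (hm.2.2.2 _ _ _ _ _)
    · intro x y z
      have := hchain _ _ _ (h3 (hC2 x.1) (hC2 y.1) (hC2 z.1))
      beta_reduce
      exact_mod_cast this
    · intro a
      simp only [hgf, SimpleGraph.dist_self, Nat.cast_zero]
      positivity

end Pool.Agent.Lib.MP_8646f6_al
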