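import Pool.Agent.Lib.MP_8646f6_al.GModel
import Pool.Agent.Lib.MP_8646f6_al.Brooks
import Pool.Agent.Lib.MP_8646f6_al.Transport
import Pool.Agent.Lib.MP_8646f6_al.Induce

/-! The mapping torus of the twist `s ↦ s w` that fixes the other generators. -/

namespace Pool.Agent.Lib.MP_8646f6_al.Gen

open FreeGroup (of)
open Defs SemidirectProduct Multiplicative Dat

universe u

variable {n : ℕ} {Φ : MulAut (FreeGroup (Fin n))}

lemma zpow_fix {v : FreeGroup (Fin n)} (h : Φ v = v) (k : ℤ) : (Φ ^ k) v = v :=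
  (MulAction.stabilizer (MulAut (FreeGroup (Fin n))) v).zpow_mem
    (show Φ ∈ MulAction.stabilizer (MulAut (FreeGroup (Fin n))) v from h) k

/-- The element `v t^k`. -/
def mkG (Φ : MulAut (FreeGroup (Fin n))) (v : FreeGroup (Fin n)) (k : ℤ) : MappingTorus Φ :=
  ⟨v, ofAdd k⟩

lemma mkG_mul (v v' : FreeGroup (Fin n)) (k k' : ℤ) :
    mkG Φ v k * mkG Φ v' k' = mkG Φ (v * (Φ ^ k) v') (k + k') := rfl

lemma mkG_surj (x : MappingTorus Φ) : ∃ v k, x = mkG Φ v k := ⟨x.left, toAdd x.right, rfl⟩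

lemma closure_gens : Subgroup.closure
    (insert (mkG Φ 1 1) (Set.range fun i => mkG Φ (of i) 0)) = ⊤ := by
  rw [eq_top_iff]
  intro x _
  rw [← inl_left_mul_inr_right x]
  apply Subgroup.mul_mem
  · induction x.left using FreeGroup.induction_on with
    | C1 => rw [map_one]; exact Subgroup.one_mem _
    | of i => exact Subgroup.subset_closure (Or.inr ⟨i, rfl⟩)
    | inv_of i ih => rw [map_inv]; exact Subgroup.inv_mem _ ih
    | mul a b ha hb => rw [map_mul]; exact Subgroup.mul_mem _ ha hb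
  · have : x.right = ofAdd (1 : ℤ) ^ toAdd x.right := by
      rw [← ofAdd_zsmul]; simp
    rw [this, map_zpow]
    apply Subgroup.zpow_mem
    exact Subgroup.subset_closure (Or.inl rfl)

lemma zpow_s {s w : FreeGroup (Fin n)} (hw : Φ w = w) (hs : Φ s = s * w) (k : ℤ) :
    (Φ ^ k) s = s * w ^ k := by
  induction k using Int.induction_on with
  | zero => simp
  | succ m ih =>
    rw [zpow_add_one, MulAut.mul_apply, hs, map_mul, ih, zpow_fix hw, zpow_add_one, mul_assoc]
  | pred m ih =>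
    have e : (Φ ^ (-(m : ℤ))) s = (Φ ^ (-(m : ℤ) - 1)) s * w := by
      conv_lhs => rw [← sub_add_cancel (-(m : ℤ)) 1, zpow_add_one, MulAut.mul_apply, hs, map_mul,
        zpow_fix hw]
    rw [ih] at e
    rw [zpow_sub_one w, ← mul_assoc, e, mul_inv_cancel_right]

lemma add_zpow {η : FreeGroup (Fin n) → ℤ} {w : FreeGroup (Fin n)} {L : ℤ}
    (h : ∀ g, η (g * w) = η g + L) (g : FreeGroup (Fin n)) (k : ℤ) :
    η (g * w ^ k) = η g + L * k := by
  induction k using Int.induction_on with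
  | zero => simp
  | succ m ih => rw [zpow_add_one, ← mul_assoc, h, ih]; ring
  | pred m ih =>
    have := h (g * w ^ (-(m : ℤ) - 1))
    rw [mul_assoc, ← zpow_add_one, sub_add_cancel, ih] at this
    linear_combination -this

lemma cl_zpow {c : ℤ → FreeGroup (Fin n)} {w : FreeGroup (Fin n)} {L : ℤ}
    (h : ∀ j, c (j + L) = w * c j) (j k : ℤ) : c (j + L * k) = w ^ k * c j := by
  induction k using Int.induction_on with
  | zero => simp
  | succ m ih => rw [mul_add, mul_one, ← add_assoc, h, ih, ← mul_assoc, ← zpow_one_add, add_comm]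
  | pred m ih =>
    have := h (j + L * (-(m : ℤ) - 1))
    rw [show j + L * (-(m : ℤ) - 1) + L = j + L * -(m : ℤ) by ring, ih] at this
    rw [sub_eq_neg_add, zpow_add, zpow_neg_one, mul_assoc, this, inv_mul_cancel_left,
      ← sub_eq_neg_add]

variable [Dat (Fin n)]

lemma fix_mem (hf : ∀ i ≠ sg, Φ (of i) = of i) {v : FreeGroup (Fin n)}
    (hv : v ∈ Subgroup.closure (of '' {i : Fin n | i ≠ sg})) : Φ v = v := by
  induction hv using Subgroup.closure_induction with
  | mem x hx =>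
    obtain ⟨i, hi, rfl⟩ := hx
    exact hf i hi
  | one => exact map_one _
  | mul x y _ _ hx hy => rw [map_mul, hx, hy]
  | inv x _ hx => rw [map_inv, hx]

lemma fix_gen (hf : ∀ i ≠ sg, Φ (of i) = of i) {l : Fin n × Bool} (hl : l.1 ≠ sg) :
    Φ (gen l) = gen l := by
  obtain ⟨i, b⟩ := l
  cases b
  · rw [gen_false, map_inv, hf i hl]
  · exact hf i hl

lemma near_refl (p : Pt (Fin n)) : Near p p := Or.inl (Or.inl rfl)

lemma chain_up (v : FreeGroup (Fin n)) (j : ℤ) (m : ℕ) : Chain Near m (v, j) (v, j + m) := by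
  induction m with
  | zero => simp [Chain]
  | succ m ih =>
    refine ih.trans (Chain.single (Or.inl (Or.inr (Or.inl ?_))))
    push_cast
    rw [add_assoc]

lemma chain_vert (v : FreeGroup (Fin n)) {j j' : ℤ} {m : ℕ} (h : j' ≤ j + m) (h' : j ≤ j' + m) :
    Chain Near m (v, j) (v, j') := by
  rcases le_total j j' with hh | hh
  · obtain ⟨k, rfl⟩ := Int.le.dest hh
    exact (chain_up v j k).mono near_refl (by omega)
  · obtain ⟨k, rfl⟩ := Int.le.dest hh
    exact ((chain_up v j' k).mono near_refl (by omega)).symm fun _ _ => Near.symm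

lemma chain_hor {v : FreeGroup (Fin n)} (hv : v ∈ Subgroup.closure (of '' {i : Fin n | i ≠ sg})) :
    ∃ D, ∀ g (j : ℤ), Chain Near D (g, j) (g * v, j) := by
  induction hv using Subgroup.closure_induction with
  | mem x hx =>
    obtain ⟨i, hi, rfl⟩ := hx
    exact ⟨1, fun g j => Chain.single (Or.inl (Or.inr (Or.inr (Or.inr ⟨(i, true), hi, rfl⟩))))⟩
  | one => exact ⟨0, fun g j => by rw [mul_one]; rfl⟩
  | mul x y _ _ hx hy =>
    obtain ⟨D, hD⟩ := hx
    obtain ⟨E, hE⟩ := hy
    exact ⟨D + E, fun g j => by rw [← mul_assoc]; exact (hD g j).trans (hE _ j)⟩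
  | inv x _ hx =>
    obtain ⟨D, hD⟩ := hx
    refine ⟨D, fun g j => ?_⟩
    have := hD (g * x⁻¹) j
    rw [inv_mul_cancel_right] at this
    exact this.symm fun _ _ => Near.symm

theorem coarseMedian {w : FreeGroup (Fin n)} {L : ℕ} {C : ℤ} (hf : ∀ i ≠ sg, Φ (of i) = of i)
    (hw : Φ w = w) (hs : Φ (of sg) = of sg * w) (hL : 0 < L) (hcl : ∀ j, cl (j + L) = w * cl j)
    (het : ∀ g, et (g * w) = et g + L)
    (hC : ∀ (g : FreeGroup (Fin n)) l, |et (g * gen l) - et g| ≤ C) :
    IsCoarseMedianGroup (MappingTorus Φ) := by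
  have h0 : (0 : ℤ) < L := by exact_mod_cast hL
  let toM : MappingTorus Φ → Pt (Fin n) := fun x => (x.left, L * toAdd x.right - et x.left)
  let ofM : Pt (Fin n) → MappingTorus Φ := fun p => mkG Φ p.1 ((p.2 + et p.1) / L)
  have toM_mkG : ∀ v k, toM (mkG Φ v k) = (v, L * k - et v) := fun _ _ => rfl
  have hgf : ∀ x, ofM (toM x) = x := fun x => by
    obtain ⟨v, k, rfl⟩ := mkG_surj x
    simp only [toM_mkG, ofM, sub_add_cancel, Int.mul_ediv_cancel_left _ h0.ne']
  have all : ∀ s : MappingTorus Φ, ∃ D, ∀ x, Chain Near D (toM x) (toM (x * s)) := by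
    intro s
    have hm : s ∈ Subgroup.closure _ := (closure_gens (Φ := Φ)) ▸ Subgroup.mem_top s
    induction hm using Subgroup.closure_induction with
    | mem s hm =>
      rcases hm with rfl | ⟨i, rfl⟩
      · refine ⟨L, fun x => ?_⟩
        obtain ⟨v, k, rfl⟩ := mkG_surj x
        rw [mkG_mul, map_one, mul_one, toM_mkG, toM_mkG, mul_add]
        apply chain_vert <;> omega
      by_cases hi : i = sg
      · subst hi
        obtain ⟨D, hD⟩ := chain_hor (inv_mem (cl_mem (α := Fin n) 0))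
        refine ⟨1 + D, fun x => ?_⟩
        obtain ⟨v, k, rfl⟩ := mkG_surj x
        beta_reduce
        rw [mkG_mul, zpow_s hw hs, toM_mkG, toM_mkG]
        refine Chain.trans (q := inP v (L * k)) (Chain.single (Or.inr (Or.inl ⟨v, L * k, rfl, rfl⟩)))
          ?_
        have := hD (v * of sg * cl (L * k)) (-et (v * of sg))
        convert this using 2
        · rfl
        · rfl
        · rw [← zero_add ((L : ℤ) * k), cl_zpow hcl]
          group
        · rw [← mul_assoc, add_zpow het]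
          ring
      · refine ⟨1 + C.toNat, fun x => ?_⟩
        obtain ⟨v, k, rfl⟩ := mkG_surj x
        beta_reduce
        rw [mkG_mul, zpow_fix (hf i hi), toM_mkG, toM_mkG, add_zero]
        have := abs_le.1 (hC v (i, true))
        rw [gen_true] at this
        refine Chain.trans (q := (v * of i, L * k - et v))
          (Chain.single (Or.inl (Or.inr (Or.inr (Or.inr ⟨(i, true), hi, rfl⟩)))))
          (chain_vert _ ?_ ?_) <;> omega
    | one => exact ⟨0, fun x => by rw [mul_one]; rfl⟩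
    | mul a b _ _ ha hb =>
      obtain ⟨D, hD⟩ := ha
      obtain ⟨E, hE⟩ := hb
      exact ⟨D + E, fun x => by rw [← mul_assoc]; exact (hD x).trans (hE _)⟩
    | inv a _ ha =>
      obtain ⟨D, hD⟩ := ha
      refine ⟨D, fun x => ?_⟩
      have := hD (x * a⁻¹)
      rw [inv_mul_cancel_right] at this
      exact this.symm fun _ _ => Near.symm
  have back : ∀ p, Chain Near L p (toM (ofM p)) := by
    rintro ⟨v, j⟩
    have p1 : L * ((j + et v) / L) ≤ j + et v := Int.mul_ediv_self_le h0.ne'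
    have p2 : j + et v < L * ((j + et v) / L) + L := Int.lt_mul_ediv_self_add h0
    simp only [ofM, toM_mkG]
    apply chain_vert <;> omega
  have dv : ∀ x y K : ℤ, |y - x| ≤ K → y / L - x / L ∈ Set.Icc (-K) K := by
    have key : ∀ x y K : ℤ, 0 ≤ K → y ≤ x + K → y / L ≤ x / L + K := fun x y K hK h => by
      rw [← Int.add_mul_ediv_right _ _ h0.ne']
      exact Int.ediv_le_ediv h0 (by nlinarith)
    intro x y K h
    have hK := (abs_nonneg _).trans h
    have h1 := abs_le.1 h
    have := key x y K hK (by omega)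
    have := key y x K hK (by omega)
    exact ⟨by omega, by omega⟩
  choose K hK using fun r : ℤ => Brk.lip_mul hC (cl r)
  let E : Set (MappingTorus Φ) := mkG Φ 1 '' Set.Icc (-1) 1 ∪
    Set.image2 (mkG Φ) (Set.range gen) (Set.Icc (-C) C) ∪
    ⋃ r ∈ Set.Ico (0 : ℤ) L, mkG Φ (of sg * cl r) '' Set.Icc (-K r) (K r)
  have hE : E.Finite := (((Set.finite_Icc _ _).image _).union
    ((Set.finite_range _).image2 _ (Set.finite_Icc _ _))).union
    ((Set.finite_Ico _ _).biUnion fun r _ => (Set.finite_Icc _ _).image _)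
  have up : ∀ p : Pt (Fin n), ∃ e ∈ E, ofM (p.1, p.2 + 1) = ofM p * e := by
    intro p
    refine ⟨_, Or.inl (Or.inl ⟨_, dv (p.2 + et p.1) (p.2 + 1 + et p.1) 1 (by simp), rfl⟩), ?_⟩
    simp only [ofM, mkG_mul, map_one, mul_one, add_sub_cancel]
  have io : ∀ u j, ∃ e ∈ E, ofM (inP u j) = ofM (outP u j) * e := by
    intro u j
    have a := hK (j % L) (u * of sg * w ^ (j / L))
    have e1 : cl j = w ^ (j / L) * cl (j % L) := by
      rw [← cl_zpow hcl, Int.emod_add_mul_ediv]
    refine ⟨_, Or.inr (Set.mem_biUnion (show j % L ∈ Set.Ico (0 : ℤ) L from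
      ⟨Int.emod_nonneg _ h0.ne', Int.emod_lt_of_pos _ h0⟩)
      ⟨_, dv (L * (j / L)) (-et (u * of sg) + et (u * of sg * cl j)) (K (j % L)) ?_, rfl⟩), ?_⟩
    · rw [add_zpow het, mul_assoc, ← e1] at a
      convert a using 2
      ring
    · simp only [ofM, inP, outP, mkG_mul, sub_add_cancel, map_mul, zpow_s hw hs,
        zpow_fix (fix_mem hf (cl_mem _)), sL, gen_true, Int.mul_ediv_cancel_left _ h0.ne',
        add_sub_cancel]
      rw [mul_assoc (of sg), ← e1, mul_assoc]
  refine ⟨Group.fg_iff.2 ⟨_, closure_gens, Set.toFinite _⟩, fun S hS => ?_⟩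
  refine transport S hS mm ⟨mm_comm12, mm_rot, mm_same, mm_assoc⟩ exists_finite_subalgebra Near
    near_refl (fun _ _ => Near.symm) (fun _ _ y z h => h.mm y z) toM ofM hgf E hE ?_ all ⟨L, back⟩
  rintro p q ((rfl | rfl | rfl | ⟨l, hl, rfl⟩) | ⟨u, j, rfl, rfl⟩ | ⟨u, j, rfl, rfl⟩)
  · exact ⟨mkG Φ 1 0, Or.inl (Or.inl ⟨0, ⟨by omega, by omega⟩, rfl⟩), Or.inl (mul_one _).symm⟩
  · obtain ⟨e, he, h⟩ := up p
    exact ⟨e, he, Or.inl h⟩
  · obtain ⟨e, he, h⟩ := up q
    exact ⟨e, he, Or.inr h⟩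
  · refine ⟨_, Or.inl (Or.inr ⟨_, ⟨l, rfl⟩, _, dv (p.2 + et p.1) (p.2 + et (p.1 * gen l)) C
      (by simpa using hC p.1 l), rfl⟩), Or.inl ?_⟩
    simp only [ofM, mkG_mul, zpow_fix (fix_gen hf hl), add_sub_cancel]
  · obtain ⟨e, he, h⟩ := io u j
    exact ⟨e, he, Or.inl h⟩
  · obtain ⟨e, he, h⟩ := io u j
    exact ⟨e, he, Or.inr h⟩

end Pool.Agent.Lib.MP_8646f6_al.Gen
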