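import Pool.Agent.Lib.MP_8646f6_al.Line

/-! A median algebra on `F × ℤ` for a free group `F`: a tree of products of a tree with a line,
glued along gated lines (general form of the file `Model`). -/

namespace Pool.Agent.Lib.MP_8646f6_al.Gen

open FreeGroup (of)

/-- A generator, a line that avoids it, and a height function. -/
class Dat (α : Type) where
  sg : α
  cl : ℤ → FreeGroup α
  lt : ℤ → α × Bool
  et : FreeGroup α → ℤ
  line : IsLine cl lt
  lt_ne : ∀ j, (lt j).1 ≠ sg
  cl_mem : ∀ j, cl j ∈ Subgroup.closure (of '' {i | i ≠ sg})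

open Dat

/-- The points of the model. -/
abbrev Pt (α : Type) : Type := FreeGroup α × ℤ

variable {α : Type} [DecidableEq α] [Dat α]

/-- The special generator as a letter. -/
def sL : α × Bool := (sg, true)

/-- The vertical line at `u`. -/
noncomputable def outP (u : (FreeGroup α)) (j : ℤ) : (Pt α) := (u, j - et u)

/-- The horizontal line glued to the vertical line at `u`. -/
noncomputable def inP (u : (FreeGroup α)) (j : ℤ) : (Pt α) := (u * gen sL * cl j, -et (u * gen sL))

/-- The gate map to the vertical line. -/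
noncomputable def gout (u : (FreeGroup α)) (x : (Pt α)) : ℤ := x.2 + et u

/-- The gate map to the horizontal line. -/
noncomputable def gin (u : (FreeGroup α)) (x : (Pt α)) : ℤ := line.proj ((u * gen sL)⁻¹ * x.1)

/-- The product median. -/
noncomputable def pmed (x y z : (Pt α)) : (Pt α) := (tmed x.1 y.1 z.1, zmed x.2 y.2 z.2)

lemma tmed_comm12 (x y z : (FreeGroup α)) : tmed x y z = tmed y x z :=
  side_ext fun u l => by simp only [side_tmed, Maj]; tauto

lemma tmed_comm23 (x y z : (FreeGroup α)) : tmed x y z = tmed x z y :=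
  side_ext fun u l => by simp only [side_tmed, Maj]; tauto

lemma tmed_same (x y : (FreeGroup α)) : tmed x y y = y :=
  side_ext fun u l => by simp only [side_tmed, Maj]; tauto

lemma pmed_comm12 (x y z : (Pt α)) : pmed x y z = pmed y x z := by
  simp only [pmed, tmed_comm12 x.1, zmed]; congr 1; omega

lemma pmed_comm23 (x y z : (Pt α)) : pmed x y z = pmed x z y := by
  simp only [pmed, tmed_comm23 x.1 y.1, zmed]; congr 1; omega

lemma gout_outP (u : (FreeGroup α)) (j : ℤ) : gout u (outP u j) = j := by simp [gout, outP]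

lemma gin_inP (u : (FreeGroup α)) (j : ℤ) : gin u (inP u j) = j := by
  simp only [gin, inP, inv_mul_cancel_left, line.proj_cl]

lemma gout_pmed (u : (FreeGroup α)) (x y z : (Pt α)) :
    gout u (pmed x y z) = zmed (gout u x) (gout u y) (gout u z) := by
  simp only [gout, pmed, zmed_add]

lemma gin_pmed (u : (FreeGroup α)) (x y z : (Pt α)) :
    gin u (pmed x y z) = zmed (gin u x) (gin u y) (gin u z) := by
  simp only [gin, pmed, ← tmed_mul_left, line.proj_tmed]

lemma pmed_out_gate (u : (FreeGroup α)) (y : (Pt α)) (i j : ℤ) :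
    pmed y (outP u i) (outP u j) = outP u (zmed (gout u y) i j) := by
  simp only [pmed, outP, tmed_same, gout, zmed]; congr 1; omega

lemma pmed_in_gate (u : (FreeGroup α)) (y : (Pt α)) (i j : ℤ) :
    pmed y (inP u i) (inP u j) = inP u (zmed (gin u y) i j) := by
  simp only [pmed, inP, gin, ← line.tmed_gate, ← tmed_mul_left, mul_inv_cancel_left]
  congr 1; simp only [zmed]; omega

open Classical in
/-- Transport of a point across the edge from `u` to `u * gen l`. -/
noncomputable def stepP (u : (FreeGroup α)) (l : α × Bool) (x : (Pt α)) : (Pt α) :=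
  if l = sL then inP u (gout u x) else
    if l = linv sL then outP (u * gen l) (gin (u * gen l) x) else x

lemma exists_pi (x : (Pt α)) : ∃ π : (FreeGroup α) → (Pt α), π x.1 = x ∧
    ∀ u l, ¬ side u l x.1 → π (u * gen l) = stepP u l (π u) := by
  classical
  let piN : ℕ → (FreeGroup α) → (Pt α) := fun n => Nat.rec (fun _ => x) (fun _ ih u =>
    if h : x.1 = u then x else
      stepP (u * gen (exists_side h).choose) (linv (exists_side h).choose)
        (ih (u * gen (exists_side h).choose))) n
  refine ⟨fun u => piN (td x.1 u) u, by simp [piN], fun u l hl => ?_⟩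
  have h1 := td_of_not_side hl
  have hne : x.1 ≠ u * gen l := by
    intro h
    rw [← h, td_self] at h1
    omega
  have h2 : (exists_side hne).choose = linv l :=
    side_unique (exists_side hne).choose_spec ((side_rev _ _ _).2 hl)
  simp only [h1, piN, dif_neg hne, h2, linv_linv, gen_linv, mul_inv_cancel_right]

/-- The projection of a point to the piece of `u`. -/
noncomputable def prj (x : (Pt α)) : (FreeGroup α) → (Pt α) := (exists_pi x).choose

lemma prj_base (x : (Pt α)) : prj x x.1 = x := (exists_pi x).choose_spec.1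

lemma prj_step (x : (Pt α)) (u : (FreeGroup α)) (l : α × Bool) (h : ¬ side u l x.1) :
    prj x (u * gen l) = stepP u l (prj x u) := (exists_pi x).choose_spec.2 u l h

lemma letter_cases (l : α × Bool) : l.1 ≠ sg ∨ l = sL ∨ l = linv sL := by
  obtain ⟨i, b⟩ := l
  by_cases h : i = sg
  · subst h
    cases b
    · exact Or.inr (Or.inr rfl)
    · exact Or.inr (Or.inl rfl)
  · exact Or.inl h

lemma stepP_ne (u : (FreeGroup α)) {l : α × Bool} (hl : l.1 ≠ sg) (x : (Pt α)) : stepP u l x = x := by
  have h1 : l ≠ sL := by rintro rfl; exact hl rfl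
  have h2 : l ≠ linv sL := by rintro rfl; exact hl rfl
  simp [stepP, h1, h2]

lemma stepP_sL (u : (FreeGroup α)) (x : (Pt α)) : stepP u sL x = inP u (gout u x) := by simp [stepP]

lemma stepP_inv (u : (FreeGroup α)) (x : (Pt α)) : stepP (u * gen sL) (linv sL) x = outP u (gin u x) := by
  simp [stepP, linv_ne, gen_linv]

/-- Two vertices lie in the same piece. -/
def SP (u v : (FreeGroup α)) : Prop := ∀ w, side w sL u ↔ side w sL v

lemma SP.refl (u : (FreeGroup α)) : SP u u := fun _ => Iff.rfl
lemma SP.symm {u v : (FreeGroup α)} (h : SP u v) : SP v u := fun w => (h w).symm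
lemma SP.trans {u v w : (FreeGroup α)} (h : SP u v) (h' : SP v w) : SP u w := fun t => (h t).trans (h' t)

lemma sp_gen (u : (FreeGroup α)) {l : α × Bool} (hl : l.1 ≠ sg) : SP (u * gen l) u := by
  intro w
  apply side_step
  · rintro ⟨-, rfl⟩; exact hl rfl
  · rintro ⟨-, rfl⟩; exact hl rfl

lemma sp_mem {v : FreeGroup α} (hv : v ∈ Subgroup.closure (of '' {i : α | i ≠ sg})) :
    ∀ u, SP (u * v) u := by
  induction hv using Subgroup.closure_induction with
  | mem x hx =>
    obtain ⟨i, hi, rfl⟩ := hx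
    exact fun u => sp_gen u (l := (i, true)) hi
  | one => exact fun u => by rw [mul_one]; exact SP.refl _
  | mul x y _ _ hx hy => exact fun u => by rw [← mul_assoc]; exact (hy _).trans (hx _)
  | inv x _ hx =>
    intro u
    have := hx (u * x⁻¹)
    rw [inv_mul_cancel_right] at this
    exact this.symm

lemma sp_cl (u : FreeGroup α) (j : ℤ) : SP (u * cl j) u := sp_mem (cl_mem j) u

lemma side_inv_sL (u w : (FreeGroup α)) : side (u * gen sL) (linv sL) w ↔ ¬ side u sL w := side_rev _ _ _

lemma mul_gen_inv (u : (FreeGroup α)) : u * gen (linv sL) * gen sL = u := by simp [gen_linv]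

lemma SP.side_iff {u v : (FreeGroup α)} (h : SP u v) (w : (FreeGroup α)) {l : α × Bool} (hl : ¬ l.1 ≠ sg) :
    side w l u ↔ side w l v := by
  rcases letter_cases l with h' | rfl | rfl
  · exact (hl h').elim
  · exact h w
  · rw [← mul_gen_inv w, side_inv_sL, side_inv_sL, h]

lemma prj_gen (x : (Pt α)) (u : (FreeGroup α)) {l : α × Bool} (hl : l.1 ≠ sg) :
    prj x (u * gen l) = prj x u := by
  by_cases h : side u l x.1
  · have := prj_step x (u * gen l) (linv l) (by rw [side_rev]; tauto)
    rw [gen_linv, mul_inv_cancel_right, stepP_ne _ (by simpa using hl)] at this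
    exact this.symm
  · rw [prj_step x u l h, stepP_ne _ hl]

lemma prj_sp (x : (Pt α)) {u v : (FreeGroup α)} (h : SP u v) : prj x v = prj x u := by
  refine geod_induction u (fun v => SP u v → prj x v = prj x u) (fun _ => rfl) ?_ v h
  intro v l hv ih h
  by_cases hl : l.1 ≠ sg
  · rw [prj_gen x v hl]
    exact ih (h.trans (sp_gen v hl))
  · exact (hv ((h.side_iff v hl).2 (side_self _ _))).elim

lemma prj_self {x : (Pt α)} {u : (FreeGroup α)} (h : SP x.1 u) : prj x u = x := by
  rw [prj_sp x h, prj_base]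

lemma prj_out {x : (Pt α)} {u : (FreeGroup α)} (h : ¬ side u sL x.1) :
    prj x (u * gen sL) = inP u (gout u (prj x u)) := by
  rw [prj_step x u sL h, stepP_sL]

lemma prj_in {x : (Pt α)} {u : (FreeGroup α)} (h : side u sL x.1) :
    prj x u = outP u (gin u (prj x (u * gen sL))) := by
  have := prj_step x (u * gen sL) (linv sL) (by rw [side_rev]; tauto)
  rwa [gen_linv, mul_inv_cancel_right, stepP_inv] at this

lemma prj_fst (x : (Pt α)) (u : (FreeGroup α)) : SP (prj x u).1 u := by
  refine geod_induction x.1 (fun u => SP (prj x u).1 u) (by rw [prj_base]; exact SP.refl _) ?_ u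
  intro v l hv ih
  rcases letter_cases l with hl | rfl | rfl
  · rw [prj_gen x v hl]; exact ih.trans (sp_gen v hl).symm
  · rw [prj_out hv]; exact sp_cl _ _
  · rw [← mul_gen_inv v, side_inv_sL, not_not] at hv
    rw [prj_in hv]; exact SP.refl _

lemma gate_eq (x : (Pt α)) (u : (FreeGroup α)) : gout u (prj x u) = gin u (prj x (u * gen sL)) := by
  by_cases h : side u sL x.1
  · rw [prj_in h, gout_outP]
  · rw [prj_out h, gin_inP]

lemma key_out (x : (Pt α)) {y z : (Pt α)} {u : (FreeGroup α)} (hy : ¬ side u sL y.1) (hz : ¬ side u sL z.1) :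
    inP u (gout u (pmed (prj x u) (prj y u) (prj z u))) =
      pmed (prj x (u * gen sL)) (prj y (u * gen sL)) (prj z (u * gen sL)) := by
  rw [prj_out hy, prj_out hz, pmed_in_gate, gout_pmed, gate_eq]

lemma key_in (x : (Pt α)) {y z : (Pt α)} {u : (FreeGroup α)} (hy : side u sL y.1) (hz : side u sL z.1) :
    outP u (gin u (pmed (prj x (u * gen sL)) (prj y (u * gen sL)) (prj z (u * gen sL)))) =
      pmed (prj x u) (prj y u) (prj z u) := by
  rw [prj_in hy, prj_in hz, pmed_out_gate, gin_pmed, gate_eq]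

/-- The median on the model. -/
noncomputable def mm (x y z : (Pt α)) : (Pt α) :=
  pmed (prj x (tmed x.1 y.1 z.1)) (prj y (tmed x.1 y.1 z.1)) (prj z (tmed x.1 y.1 z.1))

lemma mm_sp (x y z : (Pt α)) : SP (mm x y z).1 (tmed x.1 y.1 z.1) := by
  intro w
  simp only [mm, pmed]
  rw [side_tmed, prj_fst x _ w, prj_fst y _ w, prj_fst z _ w]
  simp only [Maj]; tauto

lemma side_mm (x y z : (Pt α)) (w : (FreeGroup α)) :
    side w sL (mm x y z).1 ↔ Maj (side w sL x.1) (side w sL y.1) (side w sL z.1) := by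
  rw [mm_sp x y z w, side_tmed]

lemma prj_mm (x y z : (Pt α)) (u : (FreeGroup α)) : prj (mm x y z) u = pmed (prj x u) (prj y u) (prj z u) := by
  refine geod_induction (tmed x.1 y.1 z.1)
    (fun u => prj (mm x y z) u = pmed (prj x u) (prj y u) (prj z u)) (prj_self (mm_sp x y z)) ?_ u
  intro v l hv ih
  rcases letter_cases l with hl | rfl | rfl
  · simp only [prj_gen _ v hl, ih]
  · rw [prj_out (by rwa [mm_sp x y z v]), ih]
    rw [side_tmed] at hv
    by_cases hx : side v sL x.1
    · exact key_out x (fun h => hv (Or.inl ⟨hx, h⟩)) (fun h => hv (Or.inr (Or.inr ⟨hx, h⟩)))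
    by_cases hy : side v sL y.1
    · rw [pmed_comm12, key_out y hx (fun h => hv (Or.inr (Or.inl ⟨hy, h⟩))), pmed_comm12]
    · rw [pmed_comm23, pmed_comm12, key_out z hx hy, pmed_comm12, pmed_comm23]
  · set u := v * gen (linv sL) with hu
    have e : v = u * gen sL := (mul_gen_inv v).symm
    rw [e] at hv ih
    rw [side_inv_sL, not_not] at hv
    rw [prj_in (by rwa [mm_sp x y z u]), ih]
    rw [side_tmed] at hv
    rcases hv with ⟨h1, h2⟩ | ⟨h1, h2⟩ | ⟨h1, h2⟩
    · rw [pmed_comm23, pmed_comm12, key_in z h1 h2, pmed_comm12, pmed_comm23]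
    · exact key_in x h1 h2
    · rw [pmed_comm12, key_in y h1 h2, pmed_comm12]

/-- The index set of the walls. -/
abbrev Wall (α : Type) : Type := (FreeGroup α) ⊕ ((FreeGroup α) × (FreeGroup α) × (α × Bool)) ⊕ ((FreeGroup α) × ℤ)

/-- The side of a wall on which a point lies. -/
def sig (x : (Pt α)) : (Wall α) → Prop
  | Sum.inl w => side w sL x.1
  | Sum.inr (Sum.inl (u, w, l)) => side w l (prj x u).1
  | Sum.inr (Sum.inr (u, k)) => k < (prj x u).2

lemma sig_mm (x y z : (Pt α)) (i : (Wall α)) : sig (mm x y z) i ↔ Maj (sig x i) (sig y i) (sig z i) := by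
  rcases i with w | ⟨u, w, l⟩ | ⟨u, k⟩
  · exact side_mm x y z w
  · simp only [sig, prj_mm, pmed, side_tmed]
  · simp only [sig, prj_mm, pmed, lt_zmed]

lemma sig_inj {x y : (Pt α)} (h : ∀ i, sig x i ↔ sig y i) : x = y := by
  have h1 : SP y.1 x.1 := fun w => (h (Sum.inl w)).symm
  rw [← prj_base x, ← prj_self h1]
  exact Prod.ext (side_ext fun w l => h (Sum.inr (Sum.inl (x.1, w, l))))
    (int_ext_lt fun k => h (Sum.inr (Sum.inr (x.1, k))))

/-- Equal or adjacent inside one piece. -/
def VAdj (p q : (Pt α)) : Prop :=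
  q = p ∨ q = (p.1, p.2 + 1) ∨ p = (q.1, q.2 + 1) ∨ ∃ l : α × Bool, l.1 ≠ sg ∧ q = (p.1 * gen l, p.2)

lemma VAdj.symm {p q : (Pt α)} (h : VAdj p q) : VAdj q p := by
  rcases h with h | h | h | ⟨l, hl, rfl⟩
  · exact Or.inl h.symm
  · exact Or.inr (Or.inr (Or.inl h))
  · exact Or.inr (Or.inl h)
  · exact Or.inr (Or.inr (Or.inr ⟨linv l, by simpa using hl, by simp [gen_linv]⟩))

lemma VAdj.sp {p q : (Pt α)} (h : VAdj p q) : SP p.1 q.1 := by
  rcases h with rfl | rfl | rfl | ⟨l, hl, rfl⟩
  · exact SP.refl _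
  · exact SP.refl _
  · exact SP.refl _
  · exact (sp_gen _ hl).symm

lemma vadj_inP (u : (FreeGroup α)) (j : ℤ) : VAdj (inP u j) (inP u (j + 1)) :=
  Or.inr (Or.inr (Or.inr ⟨lt j, lt_ne j, by simp only [inP, line.step, mul_assoc]⟩))

lemma vadj_outP (u : (FreeGroup α)) (j : ℤ) : VAdj (outP u j) (outP u (j + 1)) :=
  Or.inr (Or.inl (by simp only [outP]; congr 1; ring))

lemma VAdj.out_step {p q : (Pt α)} (h : VAdj p q) (u : (FreeGroup α)) :
    VAdj (inP u (gout u p)) (inP u (gout u q)) := by
  rcases h with rfl | rfl | rfl | ⟨l, hl, rfl⟩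
  · exact Or.inl rfl
  · have : gout u (p.1, p.2 + 1) = gout u p + 1 := by simp only [gout]; ring
    rw [this]; exact vadj_inP _ _
  · have : gout u (q.1, q.2 + 1) = gout u q + 1 := by simp only [gout]; ring
    rw [this]; exact (vadj_inP _ _).symm
  · exact Or.inl rfl

lemma VAdj.in_step {p q : (Pt α)} (h : VAdj p q) (u : (FreeGroup α)) :
    VAdj (outP u (gin u p)) (outP u (gin u q)) := by
  rcases h with rfl | rfl | rfl | ⟨l, hl, rfl⟩
  · exact Or.inl rfl
  · exact Or.inl rfl
  · exact Or.inl rfl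
  · have := line.proj_step ((u * gen sL)⁻¹ * p.1) l
    simp only [gin, ← mul_assoc]
    rcases this with h | h | h
    · rw [h]; exact Or.inl rfl
    · rw [h]; exact vadj_outP _ _
    · rw [← h]; exact (vadj_outP _ _).symm

lemma VAdj.prj {p q : (Pt α)} (h : VAdj p q) (u : (FreeGroup α)) : VAdj (prj p u) (prj q u) := by
  refine geod_induction p.1 (fun u => VAdj (Gen.prj p u) (Gen.prj q u)) ?_ ?_ u
  · rwa [prj_base, prj_self h.sp.symm]
  intro v l hv ih
  rcases letter_cases l with hl | rfl | rfl
  · rwa [prj_gen _ v hl, prj_gen _ v hl]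
  · rw [prj_out hv, prj_out (by rwa [← h.sp v])]
    exact ih.out_step v
  · set u := v * gen (linv sL) with hu
    have e : v = u * gen sL := (mul_gen_inv v).symm
    rw [e] at hv ih
    rw [side_inv_sL, not_not] at hv
    rw [prj_in hv, prj_in (x := q) (by rwa [← h.sp u])]
    exact ih.in_step u

lemma VAdj.pmed {p q : (Pt α)} (h : VAdj p q) (y z : (Pt α)) : VAdj (pmed p y z) (pmed q y z) := by
  rcases h with rfl | rfl | rfl | ⟨l, hl, rfl⟩
  · exact Or.inl rfl
  · rcases zmed_step p.2 y.2 z.2 with h | h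
    · exact Or.inl (by simp only [Gen.pmed, h])
    · exact Or.inr (Or.inl (by simp only [Gen.pmed, h]))
  · rcases zmed_step q.2 y.2 z.2 with h | h
    · exact Or.inl (by simp only [Gen.pmed, h])
    · exact Or.inr (Or.inr (Or.inl (by simp only [Gen.pmed, h])))
  · rcases tmed_step p.1 l y.1 z.1 with h | ⟨h1, h2⟩
    · exact Or.inl (by simp only [Gen.pmed, h])
    · exact Or.inr (Or.inr (Or.inr ⟨l, hl, by simp only [Gen.pmed, h1, h2]⟩))

/-- Equal or adjacent in the model. -/
def Near (p q : (Pt α)) : Prop :=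
  VAdj p q ∨ (∃ u j, p = outP u j ∧ q = inP u j) ∨ (∃ u j, p = inP u j ∧ q = outP u j)

lemma Near.symm {p q : (Pt α)} (h : Near p q) : Near q p := by
  rcases h with h | ⟨u, j, h1, h2⟩ | ⟨u, j, h1, h2⟩
  · exact Or.inl h.symm
  · exact Or.inr (Or.inr ⟨u, j, h2, h1⟩)
  · exact Or.inr (Or.inl ⟨u, j, h2, h1⟩)

lemma side_inP (u : (FreeGroup α)) (j : ℤ) (w : (FreeGroup α)) (hw : w ≠ u) :
    side w sL (inP u j).1 ↔ side w sL u := by
  rw [show (inP u j).1 = u * gen sL * cl j from rfl, sp_cl _ _ w]
  apply side_step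
  · rintro ⟨h, -⟩; exact hw h.symm
  · rintro ⟨-, h⟩; exact linv_ne _ h.symm

lemma prj_out_in (u : (FreeGroup α)) (j : ℤ) (v : (FreeGroup α)) : prj (outP u j) v = prj (inP u j) v := by
  have far : side u sL (inP u j).1 := (sp_cl _ _ u).2 (side_self _ _)
  have e1 : prj (inP u j) (u * gen sL) = inP u j := prj_self (sp_cl _ _)
  have e2 : prj (outP u j) u = outP u j := prj_base _
  refine geod_induction u (fun v => prj (outP u j) v = prj (inP u j) v) ?_ ?_ v
  · rw [prj_in far, e1, e2, gin_inP]
  intro v l hv ih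
  rcases letter_cases l with hl | rfl | rfl
  · rwa [prj_gen _ v hl, prj_gen _ v hl]
  · by_cases hvu : v = u
    · subst hvu
      rw [e1, prj_out (x := outP v j) hv, e2, gout_outP]
    · rw [prj_out (x := outP u j) hv, prj_out (by rwa [side_inP u j v hvu]), ih]
  · set w := v * gen (linv sL) with hw
    have e : v = w * gen sL := (mul_gen_inv v).symm
    rw [e] at hv ih
    rw [side_inv_sL, not_not] at hv
    have hwu : w ≠ u := by
      intro h; rw [h] at hv; exact not_side_self _ _ hv
    rw [prj_in (x := outP u j) hv, prj_in (x := inP u j) (by rwa [side_inP u j w hwu]), ih]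

lemma mm_out_in (u : (FreeGroup α)) (j : ℤ) (y z : (Pt α)) : Near (mm (outP u j) y z) (mm (inP u j) y z) := by
  have hp : ∀ v, prj (mm (outP u j) y z) v = prj (mm (inP u j) y z) v := by
    intro v; rw [prj_mm, prj_mm, prj_out_in]
  set m := mm (outP u j) y z with hm
  set m' := mm (inP u j) y z with hm'
  have other : ∀ w, w ≠ u → (side w sL m.1 ↔ side w sL m'.1) := by
    intro w hw
    rw [hm, hm', side_mm, side_mm, side_inP u j w hw]
    rfl
  by_cases hs : side u sL m.1 ↔ side u sL m'.1
  · have sp : SP m.1 m'.1 := by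
      intro w
      by_cases hw : w = u
      · rw [hw]; exact hs
      · exact other w hw
    left; left
    rw [← prj_base m', ← hp, prj_self sp]
  · have far : side u sL (inP u j).1 := (sp_cl _ _ u).2 (side_self _ _)
    have near : ¬ side u sL (outP u j).1 := not_side_self _ _
    have h1 : ¬ side u sL m.1 ∧ side u sL m'.1 := by
      rw [hm, hm', side_mm, side_mm] at hs ⊢
      simp only [Maj] at hs ⊢
      tauto
    have sp1 : SP m.1 u := by
      intro w
      by_cases hw : w = u
      · rw [hw]; simp [h1.1, not_side_self]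
      · exact (between_of_sep h1.1 h1.2 w sL (other w hw)).1.symm
    have sp2 : SP m'.1 (u * gen sL) := by
      intro w
      by_cases hw : w = u
      · rw [hw]; simp [h1.2, side_self]
      · rw [← other w hw]
        exact (between_of_sep h1.1 h1.2 w sL (other w hw)).2.symm
    have e1 : m = outP u (gin u m') := by
      rw [← prj_self sp1, hp, prj_in h1.2, prj_self sp2]
    have e2 : m' = inP u (gout u m) := by
      rw [← prj_self sp2, ← hp, prj_out h1.1, prj_self sp1]
    refine Or.inr (Or.inl ⟨u, gin u m', e1, ?_⟩)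
    rw [e1, gout_outP] at e2
    exact e2

lemma Near.mm {p q : (Pt α)} (h : Near p q) (y z : (Pt α)) : Near (mm p y z) (mm q y z) := by
  rcases h with h | ⟨u, j, rfl, rfl⟩ | ⟨u, j, rfl, rfl⟩
  · left
    have sp : SP (tmed p.1 y.1 z.1) (tmed q.1 y.1 z.1) := by
      intro w; rw [side_tmed, side_tmed, h.sp w]
    simp only [Gen.mm, prj_sp _ sp]
    exact (h.prj _).pmed _ _
  · exact mm_out_in u j y z
  · exact (mm_out_in u j y z).symm

lemma mm_comm12 (x y z : (Pt α)) : mm x y z = mm y x z :=
  sig_inj fun i => by simp only [sig_mm, Maj]; tauto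

lemma mm_rot (x y z : (Pt α)) : mm x y z = mm y z x :=
  sig_inj fun i => by simp only [sig_mm, Maj]; tauto

lemma mm_same (x y : (Pt α)) : mm x x y = x :=
  sig_inj fun i => by simp only [sig_mm, Maj]; tauto

lemma mm_assoc (a b c d e : (Pt α)) : mm a b (mm c d e) = mm (mm a b c) (mm a b d) e :=
  sig_inj fun i => by simp only [sig_mm, Maj]; tauto

/-- Every finite set of points lies in a finite subalgebra. -/
lemma exists_finite_subalgebra (A : Finset (Pt α)) : ∃ B : Set (Pt α), B.Finite ∧ (∀ a ∈ A, a ∈ B) ∧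
    ∀ x ∈ B, ∀ y ∈ B, ∀ z ∈ B, mm x y z ∈ B := by
  classical
  refine ⟨{p | ∀ i j : (Wall α), (∀ a ∈ A, sig a i ↔ sig a j) → (sig p i ↔ sig p j)}, ?_, ?_, ?_⟩
  · let φ : (Pt α) → ((A → Prop) → Prop) := fun p τ => ∃ i, (∀ a : A, sig a i ↔ τ a) ∧ sig p i
    apply Set.Finite.of_finite_image (f := φ) (Set.toFinite _)
    have key : ∀ p q : (Pt α), (∀ i j : (Wall α), (∀ a ∈ A, sig a i ↔ sig a j) → (sig q i ↔ sig q j)) →
        φ p = φ q → ∀ i, sig p i → sig q i := by
      intro p q hq h i hi
      have : φ p (fun a => sig a i) := ⟨i, fun _ => Iff.rfl, hi⟩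
      rw [h] at this
      obtain ⟨j, hj, hj'⟩ := this
      exact (hq j i fun a ha => hj ⟨a, ha⟩).1 hj'
    intro p hp q hq h
    exact sig_inj fun i => ⟨key p q hq h i, key q p hp h.symm i⟩
  · intro a ha i j h
    exact h a ha
  · intro x hx y hy z hz i j h
    rw [sig_mm, sig_mm, hx i j h, hy i j h, hz i j h]

end Pool.Agent.Lib.MP_8646f6_al.Gen
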