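import Pool.Agent.Lib.MP_8646f6_al.Model
import Pool.Agent.Lib.MP_8646f6_al.Transport
import Pool.Agent.Lib.MP_8646f6_al.Cat0b

/-! The mapping torus of `a ↦ a, b ↦ b, s ↦ s [a,b]`. -/

namespace Pool.Agent.Lib.MP_8646f6_al

open FreeGroup (of)
open Defs SemidirectProduct Multiplicative

universe u

/-- The automorphism `a ↦ a, b ↦ b, s ↦ s [a,b]`. -/
def twist : MulAut F3 :=
  MonoidHom.toMulEquiv (FreeGroup.lift ![of 0, of 1, of 2 * cc])
    (FreeGroup.lift ![of 0, of 1, of 2 * cc⁻¹])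
    (by ext i; fin_cases i <;> simp [cc, mul_assoc])
    (by ext i; fin_cases i <;> simp [cc, mul_assoc])

lemma twist_0 : twist (of 0) = of 0 := by simp [twist]
lemma twist_1 : twist (of 1) = of 1 := by simp [twist]
lemma twist_2 : twist (of 2) = of 2 * cc := by simp [twist]

section
variable {Φ : MulAut F3} (h0 : Φ (of 0) = of 0) (h1 : Φ (of 1) = of 1) (h2 : Φ (of 2) = of 2 * cc)

lemma zpow_fix {w : F3} (h : Φ w = w) (k : ℤ) : (Φ ^ k) w = w :=
  (MulAction.stabilizer (MulAut F3) w).zpow_mem (show Φ ∈ MulAction.stabilizer (MulAut F3) w from h) k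

include h0 h1 in
lemma fix_cc : Φ cc = cc := by simp [cc, h0, h1]

include h0 h1 in
lemma fix_gen {l : Fin 3 × Bool} (hl : l.1 ≠ 2) : Φ (gen l) = gen l := by
  obtain ⟨i, b⟩ := l
  fin_cases i <;> cases b
  · rw [gen_false, map_inv]; exact congrArg _ h0
  · exact h0
  · rw [gen_false, map_inv]; exact congrArg _ h1
  · exact h1
  · exact (hl rfl).elim
  · exact (hl rfl).elim

include h0 h1 in
lemma fix_pre4 (r : ℤ) : Φ (pre4 r) = pre4 r := by
  simp only [pre4]
  split_ifs <;> simp [h0, h1]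

include h0 h1 h2 in
lemma zpow_s (k : ℤ) : (Φ ^ k) (of 2) = of 2 * cc ^ k := by
  induction k using Int.induction_on with
  | zero => simp
  | succ n ih =>
    rw [zpow_add_one, MulAut.mul_apply, h2, map_mul, ih, zpow_fix (fix_cc h0 h1), zpow_add_one,
      mul_assoc]
  | pred n ih =>
    have e : (Φ ^ (-(n : ℤ))) (of 2) = (Φ ^ (-(n : ℤ) - 1)) (of 2) * cc := by
      conv_lhs => rw [← sub_add_cancel (-(n : ℤ)) 1, zpow_add_one, MulAut.mul_apply, h2, map_mul,
        zpow_fix (fix_cc h0 h1)]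
    rw [ih] at e
    rw [zpow_sub_one cc, ← mul_assoc, e, mul_inv_cancel_right]

/-- The element `w t^k`. -/
def mkG (Φ : MulAut F3) (w : F3) (k : ℤ) : MappingTorus Φ := ⟨w, ofAdd k⟩

lemma mkG_mul (w w' : F3) (k k' : ℤ) :
    mkG Φ w k * mkG Φ w' k' = mkG Φ (w * (Φ ^ k) w') (k + k') := rfl

lemma mkG_surj (x : MappingTorus Φ) : ∃ w k, x = mkG Φ w k := ⟨x.left, toAdd x.right, rfl⟩

lemma closure_gens : Subgroup.closure
    (({mkG Φ (of 0) 0, mkG Φ (of 1) 0, mkG Φ (of 2) 0, mkG Φ 1 1} : Set (MappingTorus Φ))) = ⊤ := by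
  rw [eq_top_iff]
  intro x _
  rw [← inl_left_mul_inr_right x]
  apply Subgroup.mul_mem
  · induction x.left using FreeGroup.induction_on with
    | C1 => rw [map_one]; exact Subgroup.one_mem _
    | of i =>
      apply Subgroup.subset_closure
      fin_cases i
      · exact Or.inl rfl
      · exact Or.inr (Or.inl rfl)
      · exact Or.inr (Or.inr (Or.inl rfl))
    | inv_of i ih => rw [map_inv]; exact Subgroup.inv_mem _ ih
    | mul a b ha hb => rw [map_mul]; exact Subgroup.mul_mem _ ha hb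
  · have : x.right = ofAdd (1 : ℤ) ^ toAdd x.right := by
      rw [← ofAdd_zsmul]; simp
    rw [this, map_zpow]
    apply Subgroup.zpow_mem
    exact Subgroup.subset_closure (Or.inr (Or.inr (Or.inr rfl)))

/-- From the group to the model. -/
noncomputable def toM (x : MappingTorus Φ) : Pt := (x.left, 4 * (toAdd x.right - ht x.left))

/-- From the model to the group. -/
noncomputable def ofM (Φ : MulAut F3) (p : Pt) : MappingTorus Φ := mkG Φ p.1 (p.2 / 4 + ht p.1)

lemma toM_mkG (w : F3) (k : ℤ) : toM (mkG Φ w k) = (w, 4 * (k - ht w)) := rfl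

lemma ofM_toM (x : MappingTorus Φ) : ofM Φ (toM x) = x := by
  obtain ⟨w, k, rfl⟩ := mkG_surj x
  simp only [toM_mkG, ofM]
  congr 1
  omega

lemma near_refl (p : Pt) : Near p p := Or.inl (Or.inl rfl)

lemma chain_up (w : F3) (j : ℤ) (n : ℕ) : Chain Near n (w, j) (w, j + n) := by
  induction n with
  | zero => simp [Chain]
  | succ n ih =>
    refine ih.trans (Chain.single (Or.inl (Or.inr (Or.inl ?_))))
    push_cast
    rw [add_assoc]

lemma chain_vert (w : F3) {j j' : ℤ} {n : ℕ} (h : j' ≤ j + n) (h' : j ≤ j' + n) :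
    Chain Near n (w, j) (w, j') := by
  rcases le_total j j' with hh | hh
  · obtain ⟨k, rfl⟩ := Int.le.dest hh
    exact (chain_up w j k).mono near_refl (by omega)
  · obtain ⟨k, rfl⟩ := Int.le.dest hh
    exact ((chain_up w j' k).mono near_refl (by omega)).symm fun _ _ => Near.symm

include h0 h1 in
lemma chain_gen {l : Fin 3 × Bool} (hl : l.1 ≠ 2) (x : MappingTorus Φ) :
    Chain Near 5 (toM x) (toM (x * mkG Φ (gen l) 0)) := by
  obtain ⟨w, k, rfl⟩ := mkG_surj x
  rw [mkG_mul, zpow_fix (fix_gen h0 h1 hl), toM_mkG, toM_mkG]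
  have := ht_gen w l
  refine Chain.trans (m := 1) (n := 4) (q := (w * gen l, 4 * (k - ht w)))
    (Chain.single (Or.inl (Or.inr (Or.inr (Or.inr ⟨l, hl, rfl⟩))))) (chain_vert _ ?_ ?_) <;> omega

include h0 h1 h2 in
lemma chain_all (s : MappingTorus Φ) : ∃ C, ∀ x, Chain Near C (toM x) (toM (x * s)) := by
  have hs : s ∈ Subgroup.closure _ := (closure_gens (Φ := Φ)) ▸ Subgroup.mem_top s
  induction hs using Subgroup.closure_induction with
  | mem s hs =>
    rcases hs with rfl | rfl | rfl | rfl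
    · exact ⟨5, chain_gen h0 h1 (l := (0, true)) (by decide)⟩
    · exact ⟨5, chain_gen h0 h1 (l := (1, true)) (by decide)⟩
    · refine ⟨1, fun x => ?_⟩
      obtain ⟨w, k, rfl⟩ := mkG_surj x
      rw [mkG_mul, zpow_s h0 h1 h2, toM_mkG, toM_mkG]
      refine Chain.single (Or.inr (Or.inl ⟨w, 4 * k, ?_, ?_⟩))
      · simp only [outP]; congr 1; ring
      · rw [← mul_assoc, ht_cc_zpow]
        simp only [inP, cl4_mul, sL, gen_true]; congr 1; ring
    · refine ⟨4, fun x => ?_⟩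
      obtain ⟨w, k, rfl⟩ := mkG_surj x
      rw [mkG_mul, map_one, mul_one, toM_mkG, toM_mkG]
      apply chain_vert <;> omega
  | one => exact ⟨0, fun x => by rw [mul_one]; rfl⟩
  | mul a b _ _ ha hb =>
    obtain ⟨C, hC⟩ := ha
    obtain ⟨D, hD⟩ := hb
    exact ⟨C + D, fun x => by rw [← mul_assoc]; exact (hC x).trans (hD _)⟩
  | inv a _ ha =>
    obtain ⟨C, hC⟩ := ha
    refine ⟨C, fun x => ?_⟩
    have := hC (x * a⁻¹)
    rw [inv_mul_cancel_right] at this
    exact this.symm fun _ _ => Near.symm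

lemma chain_back (p : Pt) : Chain Near 3 p (toM (ofM Φ p)) := by
  obtain ⟨w, j⟩ := p
  simp only [ofM, toM_mkG]
  apply chain_vert <;> omega

lemma ht_pre4 (w : F3) (r : ℤ) : ht w - 3 ≤ ht (w * pre4 r) ∧ ht (w * pre4 r) ≤ ht w + 3 := by
  have a1 := ht_gen w (0, true)
  have a2 := ht_gen (w * of 0) (1, true)
  have a3 := ht_gen (w * of 0 * of 1) (0, false)
  simp only [gen_true, gen_false] at a1 a2 a3
  simp only [pre4]
  split_ifs
  · rw [mul_one]; omega
  · omega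
  · rw [← mul_assoc]; omega
  · rw [← mul_assoc, ← mul_assoc]; omega

/-- The finite set of short elements. -/
def shortF : Set F3 := {1} ∪ Set.range gen ∪ (fun r => of 2 * pre4 r) '' Set.Icc 0 3

lemma shortF_finite : shortF.Finite :=
  ((Set.finite_singleton _).union (Set.finite_range _)).union ((Set.finite_Icc _ _).image _)

include h0 h1 h2 in
lemma near_short (p q : Pt) (h : Near p q) :
    ∃ e ∈ Set.image2 (mkG Φ) shortF (Set.Icc (-3) 3),
      ofM Φ q = ofM Φ p * e ∨ ofM Φ p = ofM Φ q * e := by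
  have up : ∀ p : Pt, ∃ e ∈ Set.image2 (mkG Φ) shortF (Set.Icc (-3) 3),
      ofM Φ (p.1, p.2 + 1) = ofM Φ p * e := by
    intro p
    refine ⟨mkG Φ 1 ((p.2 + 1) / 4 - p.2 / 4), ⟨1, Or.inl (Or.inl rfl), _, ⟨by omega, by omega⟩, rfl⟩, ?_⟩
    simp only [ofM, mkG_mul, map_one, mul_one]
    congr 1; ring
  have io : ∀ u j, ∃ e ∈ Set.image2 (mkG Φ) shortF (Set.Icc (-3) 3),
      ofM Φ (inP u j) = ofM Φ (outP u j) * e := by
    intro u j
    have a := ht_pre4 (u * of 2 * cc ^ (j / 4)) (j % 4)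
    refine ⟨mkG Φ (of 2 * pre4 (j % 4)) (ht (u * of 2 * cc ^ (j / 4) * pre4 (j % 4)) -
      ht (u * of 2 * cc ^ (j / 4))), ⟨_, Or.inr ⟨j % 4, ⟨by omega, by omega⟩, rfl⟩, _,
        ⟨by omega, by omega⟩, rfl⟩, ?_⟩
    have e : (j - 4 * ht u) / 4 + ht u = j / 4 := by omega
    simp only [ofM, inP, outP, mkG_mul, e, map_mul, zpow_s h0 h1 h2, zpow_fix (fix_pre4 h0 h1 _),
      sL, gen_true, cl4, ← mul_assoc, ht_cc_zpow]
    congr 1; omega
  rcases h with (rfl | rfl | rfl | ⟨l, hl, rfl⟩) | ⟨u, j, rfl, rfl⟩ | ⟨u, j, rfl, rfl⟩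
  · exact ⟨mkG Φ 1 0, ⟨1, Or.inl (Or.inl rfl), 0, ⟨by omega, by omega⟩, rfl⟩,
      Or.inl (mul_one _).symm⟩
  · obtain ⟨e, he, h⟩ := up p
    exact ⟨e, he, Or.inl h⟩
  · obtain ⟨e, he, h⟩ := up q
    exact ⟨e, he, Or.inr h⟩
  · have a := ht_gen p.1 l
    refine ⟨mkG Φ (gen l) (ht (p.1 * gen l) - ht p.1), ⟨_, Or.inl (Or.inr ⟨l, rfl⟩), _,
      ⟨by omega, by omega⟩, rfl⟩, Or.inl ?_⟩
    simp only [ofM, mkG_mul, zpow_fix (fix_gen h0 h1 hl)]
    congr 1; ring
  · obtain ⟨e, he, h⟩ := io u j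
    exact ⟨e, he, Or.inl h⟩
  · obtain ⟨e, he, h⟩ := io u j
    exact ⟨e, he, Or.inr h⟩

include h0 h1 h2 in
theorem coarseMedian : IsCoarseMedianGroup (MappingTorus Φ) := by
  constructor
  · rw [Group.fg_iff]
    exact ⟨_, closure_gens, Set.toFinite _⟩
  · intro S hS
    exact transport S hS mm ⟨mm_comm12, mm_rot, mm_same, mm_assoc⟩ exists_finite_subalgebra Near
      near_refl (fun _ _ => Near.symm) (fun _ _ y z h => h.mm y z) toM (ofM Φ) ofM_toM _
      (shortF_finite.image2 _ (Set.finite_Icc _ _)) (near_short h0 h1 h2) (chain_all h0 h1 h2)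
      ⟨3, chain_back⟩

include h0 h1 h2 in
theorem not_geometric (X : Type u) [MetricSpace X] [Nonempty X] [MulAction (MappingTorus Φ) X]
    (hX : IsCAT0 X) : ¬ IsGeometricAction (MappingTorus Φ) X := by
  intro hG
  haveI := hG.1
  have key := finite_order_of_geometric hX hG (t := mkG Φ 1 1) (a := inl (of 0)) (b := inl (of 1))
    (s := inl (of 2)) ?_ ?_ ?_
  · rw [← map_inv, ← map_inv, ← map_mul, ← map_mul, ← map_mul,
      (inl_injective).isOfFinOrder_iff, isOfFinOrder_iff_pow_eq_one] at key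
    obtain ⟨n, hn, hn'⟩ := key
    have := ht_cc_zpow 1 n
    rw [zpow_natCast, show cc ^ n = 1 from hn', mul_one] at this
    omega
  · change mkG Φ 1 1 * mkG Φ (of 0) 0 = mkG Φ (of 0) 0 * mkG Φ 1 1
    simp [mkG_mul, h0]
  · change mkG Φ 1 1 * mkG Φ (of 1) 0 = mkG Φ (of 1) 0 * mkG Φ 1 1
    simp [mkG_mul, h1]
  · rw [← map_inv, ← map_inv, ← map_inv, ← map_mul, ← map_mul, ← map_mul]
    change mkG Φ (of 2)⁻¹ 0 * mkG Φ 1 1 * mkG Φ (of 2) 0 = mkG Φ cc 0 * mkG Φ 1 1
    simp [mkG_mul, h2]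

end

end Pool.Agent.Lib.MP_8646f6_al
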