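import Pool.Agent.Lib.MP_8646f6_al.Line

/-! A Lipschitz height function on the free group that grows by one along the commutator. -/

namespace Pool.Agent.Lib.MP_8646f6_al

open FreeGroup (of)

/-- The free group of rank three. -/
abbrev F3 : Type := FreeGroup (Fin 3)

/-- The commutator of the first two generators. -/
def cc : F3 := of 0 * of 1 * (of 0)⁻¹ * (of 1)⁻¹

/-- A piecewise linear map of the line commuting with the unit translation. -/
noncomputable def plG (x : ℝ) : ℝ := ⌊x⌋ + min (3 * Int.fract x) ((Int.fract x + 2) / 3)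

lemma plG_add_one (x : ℝ) : plG (x + 1) = plG x + 1 := by
  simp only [plG, Int.floor_add_one, Int.fract_add_one]
  push_cast
  ring

lemma plG_strictMono : StrictMono plG := by
  intro x y hxy
  have hx0 := Int.fract_nonneg x
  have hx1 := Int.fract_lt_one x
  have hy0 := Int.fract_nonneg y
  have hy1 := Int.fract_lt_one y
  have ex := Int.floor_add_fract x
  have ey := Int.floor_add_fract y
  rcases (Int.floor_le_floor hxy.le).eq_or_lt with h | h
  · have h' : Int.fract x < Int.fract y := by
      have : (⌊x⌋ : ℝ) = ⌊y⌋ := by rw [h]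
      linarith
    simp only [plG, h, add_lt_add_iff_left]
    exact min_lt_min (by linarith) (by linarith)
  · have h' : (⌊x⌋ : ℝ) + 1 ≤ ⌊y⌋ := by exact_mod_cast h
    simp only [plG]
    have a1 : min (3 * Int.fract x) ((Int.fract x + 2) / 3) < 1 :=
      lt_of_le_of_lt (min_le_right _ _) (by linarith)
    have a2 : 0 ≤ min (3 * Int.fract y) ((Int.fract y + 2) / 3) :=
      le_min (by linarith) (by linarith)
    linarith

lemma plG_surjective : Function.Surjective plG := by
  intro y
  have hy0 := Int.fract_nonneg y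
  have hy1 := Int.fract_lt_one y
  have ey := Int.floor_add_fract y
  set t := max (Int.fract y / 3) (3 * Int.fract y - 2) with ht
  have t0 : 0 ≤ t := le_max_of_le_left (by linarith)
  have t1 : t < 1 := max_lt (by linarith) (by linarith)
  refine ⟨⌊y⌋ + t, ?_⟩
  have f1 : ⌊(⌊y⌋ : ℝ) + t⌋ = ⌊y⌋ := by
    rw [Int.floor_intCast_add, Int.floor_eq_zero_iff.2 ⟨t0, t1⟩, add_zero]
  have f2 : Int.fract ((⌊y⌋ : ℝ) + t) = t := by
    rw [Int.fract_intCast_add, Int.fract_eq_self.2 ⟨t0, t1⟩]
  simp only [plG, f1, f2]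
  have : min (3 * t) ((t + 2) / 3) = Int.fract y := by
    rcases le_total (Int.fract y / 3) (3 * Int.fract y - 2) with h | h
    · rw [ht, max_eq_right h, min_eq_right (by linarith)]; ring
    · rw [ht, max_eq_left h, min_eq_left (by linarith)]; ring
  rw [this, ey]

/-- The order isomorphism given by `plG`. -/
noncomputable def plI : ℝ ≃o ℝ := plG_strictMono.orderIsoOfSurjective plG plG_surjective

lemma plI_apply (x : ℝ) : plI x = plG x := rfl

lemma plG_zero : plG 0 = 0 := by
  simp only [plG, Int.floor_zero, Int.fract_zero]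
  norm_num

lemma plG_quarter : plG (1 / 4) = 3 / 4 := by
  have f1 : ⌊(1 / 4 : ℝ)⌋ = 0 := Int.floor_eq_zero_iff.2 ⟨by norm_num, by norm_num⟩
  have f2 : Int.fract (1 / 4 : ℝ) = 1 / 4 := Int.fract_eq_self.2 ⟨by norm_num, by norm_num⟩
  simp only [plG, f1, f2]
  norm_num

/-- The image of the first generator. -/
noncomputable def alphaI : ℝ ≃o ℝ :=
  ((OrderIso.addRight (-(1 / 2) : ℝ)).trans plI).trans (OrderIso.addRight (1 / 4))

/-- The image of the second generator. -/
noncomputable def betaI : ℝ ≃o ℝ := (OrderIso.addRight (-(1 / 4) : ℝ)).trans plI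

lemma alphaI_apply (x : ℝ) : alphaI x = plG (x + -(1 / 2)) + 1 / 4 := rfl

lemma betaI_apply (x : ℝ) : betaI x = plG (x + -(1 / 4)) := rfl

/-- The action of the free group on the line. -/
noncomputable def rho : F3 →* (ℝ ≃o ℝ) := FreeGroup.lift ![alphaI, betaI, 1]

lemma rho_0 : rho (of 0) = alphaI := by simp [rho]
lemma rho_1 : rho (of 1) = betaI := by simp [rho]
lemma rho_2 : rho (of 2) = 1 := by simp [rho]

lemma inv_add_one (f : ℝ ≃o ℝ) (h : ∀ x, f (x + 1) = f x + 1) (x : ℝ) :
    f⁻¹ (x + 1) = f⁻¹ x + 1 := by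
  apply f.injective
  rw [h]
  simp

lemma rho_add_one (w : F3) (x : ℝ) : rho w (x + 1) = rho w x + 1 := by
  induction w using FreeGroup.induction_on generalizing x with
  | C1 => simp
  | of i =>
    fin_cases i
    · change rho (of 0) _ = rho (of 0) _ + 1
      rw [rho_0, alphaI_apply, alphaI_apply, add_right_comm, plG_add_one]; ring
    · change rho (of 1) _ = rho (of 1) _ + 1
      rw [rho_1, betaI_apply, betaI_apply, add_right_comm, plG_add_one]
    · change rho (of 2) _ = rho (of 2) _ + 1
      rw [rho_2]; rfl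
  | inv_of i ih => rw [map_inv]; exact inv_add_one _ ih x
  | mul u v hu hv => simp only [map_mul, RelIso.mul_apply, hu, hv]

lemma rho_sub_one (w : F3) (x : ℝ) : rho w (x - 1) = rho w x - 1 := by
  have := rho_add_one w (x - 1)
  rw [sub_add_cancel] at this
  linarith

lemma alpha_half : alphaI (1 / 2) = 1 / 4 := by
  rw [alphaI_apply, add_neg_cancel, plG_zero, zero_add]

lemma alpha_34 : alphaI (3 / 4) = 1 := by
  rw [alphaI_apply, show (3 / 4 + -(1 / 2) : ℝ) = 1 / 4 by norm_num, plG_quarter]; norm_num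

lemma beta_quarter : betaI (1 / 4) = 0 := by
  rw [betaI_apply, add_neg_cancel, plG_zero]

lemma beta_half : betaI (1 / 2) = 3 / 4 := by
  rw [betaI_apply, show (1 / 2 + -(1 / 4) : ℝ) = 1 / 4 by norm_num, plG_quarter]

lemma inv_apply_eq (f : ℝ ≃o ℝ) {x y : ℝ} (h : f x = y) : f⁻¹ y = x := by
  rw [← h]; simp

lemma rho_cc : rho cc 0 = 1 := by
  simp only [cc, map_mul, map_inv, rho_0, rho_1, RelIso.mul_apply]
  rw [inv_apply_eq _ beta_quarter, inv_apply_eq _ alpha_half, beta_half, alpha_34]

lemma bound_of_point (w : F3) {x y : ℝ} (h : rho w x = y) (hx0 : 0 ≤ x) (hx1 : x ≤ 1)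
    (hy0 : 0 ≤ y) (hy1 : y ≤ 1) : -1 ≤ rho w 0 ∧ rho w 0 ≤ 1 := by
  have a1 : rho w 0 ≤ rho w x := (rho w).monotone hx0
  have a2 : rho w (x - 1) ≤ rho w 0 := (rho w).monotone (by linarith)
  rw [rho_sub_one] at a2
  constructor <;> linarith

lemma rho_gen_bound (l : Fin 3 × Bool) : -1 ≤ rho (gen l) 0 ∧ rho (gen l) 0 ≤ 1 := by
  obtain ⟨i, b⟩ := l
  fin_cases i <;> cases b
  · refine bound_of_point _ (x := 1 / 4) (y := 1 / 2) ?_ (by norm_num) (by norm_num) (by norm_num)
      (by norm_num)
    rw [gen_false, map_inv]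
    exact inv_apply_eq _ (rho_0 ▸ alpha_half)
  · refine bound_of_point _ (x := 1 / 2) (y := 1 / 4) ?_ (by norm_num) (by norm_num) (by norm_num)
      (by norm_num)
    rw [gen_true]
    exact rho_0 ▸ alpha_half
  · refine bound_of_point _ (x := 0) (y := 1 / 4) ?_ (by norm_num) (by norm_num) (by norm_num)
      (by norm_num)
    rw [gen_false, map_inv]
    exact inv_apply_eq _ (rho_1 ▸ beta_quarter)
  · refine bound_of_point _ (x := 1 / 4) (y := 0) ?_ (by norm_num) (by norm_num) (by norm_num)
      (by norm_num)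
    rw [gen_true]
    exact rho_1 ▸ beta_quarter
  · refine bound_of_point _ (x := 0) (y := 0) ?_ (by norm_num) (by norm_num) (by norm_num)
      (by norm_num)
    rw [gen_false, map_inv]
    exact inv_apply_eq _ (rho_2 ▸ rfl)
  · refine bound_of_point _ (x := 0) (y := 0) ?_ (by norm_num) (by norm_num) (by norm_num)
      (by norm_num)
    rw [gen_true]
    exact rho_2 ▸ rfl

/-- The height function. -/
noncomputable def ht (w : F3) : ℤ := ⌊rho w 0⌋

lemma ht_cc (w : F3) : ht (w * cc) = ht w + 1 := by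
  simp only [ht, map_mul, RelIso.mul_apply, rho_cc]
  have := rho_add_one w 0
  rw [zero_add] at this
  rw [this, Int.floor_add_one]

lemma ht_cc_zpow (w : F3) (k : ℤ) : ht (w * cc ^ k) = ht w + k := by
  induction k using Int.induction_on with
  | zero => simp
  | succ n ih => rw [zpow_add_one, ← mul_assoc, ht_cc, ih]; ring
  | pred n ih =>
    have := ht_cc (w * cc ^ (-(n : ℤ) - 1))
    rw [mul_assoc, ← zpow_add_one, sub_add_cancel, ih] at this
    omega

lemma ht_gen (w : F3) (l : Fin 3 × Bool) : ht w - 1 ≤ ht (w * gen l) ∧ ht (w * gen l) ≤ ht w + 1 := by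
  obtain ⟨h1, h2⟩ := rho_gen_bound l
  simp only [ht, map_mul, RelIso.mul_apply]
  have a1 : rho w (0 - 1) ≤ rho w (rho (gen l) 0) := (rho w).monotone (by linarith)
  have a2 : rho w (rho (gen l) 0) ≤ rho w (0 + 1) := (rho w).monotone (by linarith)
  rw [rho_sub_one] at a1
  rw [rho_add_one] at a2
  constructor
  · rw [← Int.floor_sub_one]; exact Int.floor_le_floor a1
  · rw [← Int.floor_add_one]; exact Int.floor_le_floor a2

/-- The letters along the axis of the commutator. -/
def lt4 (j : ℤ) : Fin 3 × Bool :=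
  if j % 4 = 0 then (0, true) else if j % 4 = 1 then (1, true) else
    if j % 4 = 2 then (0, false) else (1, false)

/-- Initial segments of the commutator. -/
def pre4 (r : ℤ) : F3 :=
  if r = 0 then 1 else if r = 1 then of 0 else if r = 2 then of 0 * of 1 else
    of 0 * of 1 * (of 0)⁻¹

/-- The axis of the commutator. -/
def cl4 (j : ℤ) : F3 := cc ^ (j / 4) * pre4 (j % 4)

lemma lt4_fst (j : ℤ) : (lt4 j).1 ≠ 2 := by
  simp only [lt4]
  split_ifs <;> decide

lemma cl4_mul (k : ℤ) : cl4 (4 * k) = cc ^ k := by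
  simp [cl4, pre4]

lemma isLine4 : IsLine cl4 lt4 := by
  constructor
  · intro j
    have h : j % 4 = 0 ∨ j % 4 = 1 ∨ j % 4 = 2 ∨ j % 4 = 3 := by omega
    rcases h with h | h | h | h
    · have e1 : (j + 1) / 4 = j / 4 := by omega
      have e2 : (j + 1) % 4 = 1 := by omega
      simp [cl4, lt4, pre4, e1, e2, h, gen_true]
    · have e1 : (j + 1) / 4 = j / 4 := by omega
      have e2 : (j + 1) % 4 = 2 := by omega
      simp [cl4, lt4, pre4, e1, e2, h, gen_true, mul_assoc]
    · have e1 : (j + 1) / 4 = j / 4 := by omega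
      have e2 : (j + 1) % 4 = 3 := by omega
      simp [cl4, lt4, pre4, e1, e2, h, gen_false, mul_assoc]
    · have e1 : (j + 1) / 4 = j / 4 + 1 := by omega
      have e2 : (j + 1) % 4 = 0 := by omega
      simp only [cl4, lt4, pre4, e1, e2, h, gen_false, zpow_add_one]
      simp [gen_false, mul_assoc, cc]
  · intro j
    have h : j % 4 = 0 ∨ j % 4 = 1 ∨ j % 4 = 2 ∨ j % 4 = 3 := by omega
    rcases h with h | h | h | h
    · have e2 : (j + 1) % 4 = 1 := by omega
      simp [lt4, e2, h, linv]
    · have e2 : (j + 1) % 4 = 2 := by omega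
      simp [lt4, e2, h, linv]
    · have e2 : (j + 1) % 4 = 3 := by omega
      simp [lt4, e2, h, linv]
    · have e2 : (j + 1) % 4 = 0 := by omega
      simp [lt4, e2, h, linv]

lemma cl4_zero : cl4 0 = 1 := by simp [cl4, pre4]

end Pool.Agent.Lib.MP_8646f6_al
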