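import Pool.Agent.Lib.MP_8646f6_al.Tree

/-! A geodesic line in the Cayley tree and the projection onto it. -/

namespace Pool.Agent.Lib.MP_8646f6_al

open FreeGroup

/-- The median of three integers. -/
def zmed (a b c : ℤ) : ℤ := max (min a b) (min (max a b) c)

lemma le_zmed (k a b c : ℤ) : k ≤ zmed a b c ↔ Maj (k ≤ a) (k ≤ b) (k ≤ c) := by
  simp only [zmed, Maj, le_max_iff, le_min_iff]
  tauto

lemma lt_zmed (k a b c : ℤ) : k < zmed a b c ↔ Maj (k < a) (k < b) (k < c) := by
  simp only [zmed, Maj, lt_max_iff, lt_min_iff]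
  tauto

lemma int_ext_lt {a b : ℤ} (h : ∀ k, k < a ↔ k < b) : a = b := by
  have h1 := h a
  have h2 := h b
  omega

lemma zmed_add (a b c k : ℤ) : zmed (a + k) (b + k) (c + k) = zmed a b c + k := by
  simp only [zmed]; omega

lemma zmed_self (a : ℤ) : zmed a a a = a := by simp [zmed]

lemma zmed_step (a b c : ℤ) : zmed (a + 1) b c = zmed a b c ∨ zmed (a + 1) b c = zmed a b c + 1 := by
  simp only [zmed]; omega

variable {α : Type} [DecidableEq α]

/-- A bi-infinite edge path without backtracking. -/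
structure IsLine (cl : ℤ → FreeGroup α) (lt : ℤ → α × Bool) : Prop where
  step : ∀ j, cl (j + 1) = cl j * gen (lt j)
  nb : ∀ j, lt (j + 1) ≠ linv (lt j)

namespace IsLine

variable {cl : ℤ → FreeGroup α} {lt : ℤ → α × Bool} (H : IsLine cl lt)
include H

lemma mono (y : FreeGroup α) (j : ℤ) (h : side (cl (j + 1)) (lt (j + 1)) y) :
    side (cl j) (lt j) y := by
  by_contra hc
  have := (side_rev (cl j) (lt j) y).2 hc
  rw [← H.step] at this
  exact H.nb j (side_unique h this)

lemma mono_le (y : FreeGroup α) {i j : ℤ} (hij : i ≤ j) (h : side (cl j) (lt j) y) :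
    side (cl i) (lt i) y := by
  obtain ⟨n, rfl⟩ := Int.le.dest hij
  induction n with
  | zero => simpa using h
  | succ n ih =>
    apply ih (by omega)
    apply H.mono
    simpa [add_assoc] using h

lemma side_cl (j i : ℤ) : side (cl j) (lt j) (cl i) ↔ j < i := by
  constructor
  · intro h
    by_contra hc
    exact not_side_self _ _ (H.mono_le _ (not_lt.1 hc) h)
  · intro h
    apply H.mono_le _ (show j ≤ i - 1 by omega)
    have := side_self (cl (i - 1)) (lt (i - 1))
    rwa [← H.step, sub_add_cancel] at this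

lemma exists_proj (y : FreeGroup α) : ∃ p : ℤ, ∀ j, j < p ↔ side (cl j) (lt j) y := by
  have up : ∃ j, ¬ side (cl j) (lt j) y := by
    by_contra hc
    push Not at hc
    have : ∀ n : ℕ, td y (cl n) + n = td y (cl 0) := by
      intro n
      induction n with
      | zero => simp
      | succ n ih =>
        have := td_of_side (hc n)
        rw [← H.step] at this
        push_cast
        omega
    have := this (td y (cl 0) + 1)
    omega
  have down : ∃ j, side (cl j) (lt j) y := by
    by_contra hc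
    push Not at hc
    have : ∀ n : ℕ, td y (cl (-n)) + n = td y (cl 0) := by
      intro n
      induction n with
      | zero => simp
      | succ n ih =>
        have := td_of_not_side (hc (-((n + 1 : ℕ) : ℤ)))
        rw [← H.step, show -((n + 1 : ℕ) : ℤ) + 1 = -n by push_cast; ring] at this
        omega
    have := this (td y (cl 0) + 1)
    omega
  obtain ⟨j0, hj0⟩ := down
  obtain ⟨p, hp, hmin⟩ := Int.exists_least_of_bdd (P := fun j => ¬ side (cl j) (lt j) y)
    ⟨j0, fun z hz => by
      by_contra hc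
      exact hz (H.mono_le y (by omega) hj0)⟩ up
  refine ⟨p, fun j => ⟨fun h => ?_, fun h => ?_⟩⟩
  · by_contra hc
    have := hmin j hc
    omega
  · by_contra hc
    exact hp (H.mono_le y (not_lt.1 hc) h)

/-- The parameter of the nearest point on the line. -/
noncomputable def proj (y : FreeGroup α) : ℤ := (H.exists_proj y).choose

lemma lt_proj (y : FreeGroup α) (j : ℤ) : j < H.proj y ↔ side (cl j) (lt j) y :=
  (H.exists_proj y).choose_spec j

lemma proj_cl (i : ℤ) : H.proj (cl i) = i :=
  int_ext_lt fun k => by rw [H.lt_proj, H.side_cl]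

lemma inj {i j : ℤ} (h : cl i = cl j) : i = j := by
  rw [← H.proj_cl i, h, H.proj_cl]

lemma proj_tmed (x y z : FreeGroup α) :
    H.proj (tmed x y z) = zmed (H.proj x) (H.proj y) (H.proj z) :=
  int_ext_lt fun k => by simp only [lt_zmed, H.lt_proj, side_tmed]

lemma side_const (u : FreeGroup α) (l : α × Bool) (h1 : ∀ j, ¬ (cl j = u ∧ lt j = l))
    (h2 : ∀ j, ¬ (cl j = u * gen l ∧ lt j = linv l)) (i j : ℤ) :
    side u l (cl i) ↔ side u l (cl j) := by
  have key : ∀ i, side u l (cl i) ↔ side u l (cl 0) := by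
    intro i
    induction i using Int.induction_on with
    | zero => rfl
    | succ n ih => rw [H.step, side_step u l _ _ (h1 _) (h2 _), ih]
    | pred n ih =>
      rw [← ih, show -(n : ℤ) = -n - 1 + 1 by ring, H.step, side_step u l _ _ (h1 _) (h2 _)]
      simp
  rw [key i, key j]

lemma tmed_gate (y : FreeGroup α) (i j : ℤ) :
    tmed y (cl i) (cl j) = cl (zmed (H.proj y) i j) := by
  apply side_ext
  intro u l
  rw [side_tmed]
  by_cases h1 : ∃ k, cl k = u ∧ lt k = l
  · obtain ⟨k, rfl, rfl⟩ := h1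
    simp only [H.side_cl, lt_zmed, H.lt_proj]
  by_cases h2 : ∃ k, cl k = u * gen l ∧ lt k = linv l
  · obtain ⟨k, hk1, hk2⟩ := h2
    have e : ∀ w, side u l w ↔ ¬ side (cl k) (lt k) w := by
      intro w; rw [hk1, hk2, side_rev, not_not]
    simp only [e, H.side_cl, lt_zmed, H.lt_proj, Maj]
    tauto
  push Not at h1 h2
  have c := H.side_const u l (fun j h => h1 j h.1 h.2) (fun j h => h2 j h.1 h.2)
  rw [c j i, c (zmed _ _ _) i]
  simp only [Maj]
  tauto

lemma proj_step (y : FreeGroup α) (l : α × Bool) :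
    H.proj (y * gen l) = H.proj y ∨ H.proj (y * gen l) = H.proj y + 1 ∨
      H.proj (y * gen l) + 1 = H.proj y := by
  have key : ∀ k, ¬ (side (cl k) (lt k) (y * gen l) ↔ side (cl k) (lt k) y) →
      (y = cl k ∧ y * gen l = cl (k + 1)) ∨ (y = cl (k + 1) ∧ y * gen l = cl k) := by
    intro k hk
    by_cases c1 : y = cl k ∧ l = lt k
    · left; refine ⟨c1.1, ?_⟩; rw [H.step, ← c1.1, ← c1.2]
    by_cases c2 : y = cl k * gen (lt k) ∧ l = linv (lt k)
    · right; refine ⟨by rw [H.step]; exact c2.1, ?_⟩
      rw [c2.1, c2.2, gen_linv, mul_inv_cancel_right]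
    exact (hk (side_step _ _ _ _ c1 c2)).elim
  by_cases h : H.proj (y * gen l) = H.proj y
  · exact Or.inl h
  right
  obtain ⟨k, hk⟩ : ∃ k, ¬ (k < H.proj (y * gen l) ↔ k < H.proj y) := by
    by_contra hc
    push Not at hc
    exact h (int_ext_lt hc)
  rw [H.lt_proj, H.lt_proj] at hk
  rcases key k hk with ⟨e1, e2⟩ | ⟨e1, e2⟩
  · left; rw [e2, e1, H.proj_cl, H.proj_cl]
  · right; rw [e2, e1, H.proj_cl, H.proj_cl]

end IsLine

end Pool.Agent.Lib.MP_8646f6_al
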