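import Mathlib

/-! Stable lengths for an invariant pseudometric that satisfies the quadrilateral inequality. -/

namespace Pool.Agent.Lib.MP_8646f6_al.Neu

open Filter Topology

variable {G : Type} [Group G]

/-- A left-invariant pseudometric on a group with the quadrilateral inequality. -/
structure Quad (d : G → G → ℝ) : Prop where
  self : ∀ g, d g g = 0
  symm : ∀ g h, d g h = d h g
  tri : ∀ g h k, d g k ≤ d g h + d h k
  inv : ∀ γ g h, d (γ * g) (γ * h) = d g h
  quad : ∀ p q r s, d p r ^ 2 + d q s ^ 2 ≤ d p q ^ 2 + d q r ^ 2 + d r s ^ 2 + d s p ^ 2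

namespace Quad

variable {d : G → G → ℝ} (Q : Quad d)
include Q

lemma nonneg (g h : G) : 0 ≤ d g h := by
  have := Q.tri g h g
  rw [Q.self, Q.symm h g] at this
  linarith

lemma right (g h : G) : d g (g * h) = d 1 h := by
  have := Q.inv g 1 h
  rwa [mul_one] at this

lemma mul_le (g h : G) : d 1 (g * h) ≤ d 1 g + d 1 h := by
  have := Q.tri 1 g (g * h)
  rwa [Q.right] at this

lemma inv_eq (g : G) : d 1 g⁻¹ = d 1 g := by
  have := Q.inv g 1 g⁻¹
  rw [mul_one, mul_inv_cancel] at this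
  rw [← this, Q.symm]

lemma sub (g : G) : Subadditive fun n : ℕ => d 1 (g ^ n) := fun m n => by
  simp only [pow_add]
  exact Q.mul_le _ _

lemma bdd (g : G) : BddBelow (Set.range fun n : ℕ => d 1 (g ^ n) / n) :=
  ⟨0, by
    rintro _ ⟨n, rfl⟩
    exact div_nonneg (Q.nonneg _ _) (Nat.cast_nonneg n)⟩

/-- The stable length. -/
noncomputable def len (g : G) : ℝ := (Q.sub g).lim

lemma tends (g : G) : Tendsto (fun n : ℕ => d 1 (g ^ n) / n) atTop (𝓝 (Q.len g)) :=
  (Q.sub g).tendsto_lim (Q.bdd g)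

lemma len_nonneg (g : G) : 0 ≤ Q.len g :=
  ge_of_tendsto' (Q.tends g) fun n => div_nonneg (Q.nonneg _ _) (Nat.cast_nonneg n)

lemma le_dist (g : G) (n : ℕ) : n * Q.len g ≤ d 1 (g ^ n) := by
  rcases Nat.eq_zero_or_pos n with rfl | hn
  · simpa using Q.nonneg _ _
  · have := (Q.sub g).lim_le_div (Q.bdd g) hn.ne'
    rw [le_div_iff₀ (by exact_mod_cast hn)] at this
    rw [mul_comm]
    exact this

lemma len_conj_le (s g : G) : Q.len (s⁻¹ * g * s) ≤ Q.len g := by
  have h : Tendsto (fun n : ℕ => d 1 (g ^ n) / n + 2 * d 1 s / n) atTop (𝓝 (Q.len g + 0)) :=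
    (Q.tends g).add (tendsto_const_div_atTop_nhds_zero_nat _)
  rw [add_zero] at h
  refine le_of_tendsto_of_tendsto' (Q.tends _) h fun n => ?_
  have e : (s⁻¹ * g * s) ^ n = s⁻¹ * g ^ n * s := by
    have := conj_pow (a := s⁻¹) (b := g) (i := n)
    rwa [inv_inv] at this
  have h1 := Q.mul_le (s⁻¹ * g ^ n) s
  have h2 := Q.mul_le s⁻¹ (g ^ n)
  rw [Q.inv_eq] at h2
  rw [e, ← add_div]
  exact div_le_div_of_nonneg_right (by linarith) (Nat.cast_nonneg n)

lemma par {g h : G} (c : Commute g h) :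
    Q.len (g * h) ^ 2 + Q.len (g * h⁻¹) ^ 2 ≤ 2 * Q.len g ^ 2 + 2 * Q.len h ^ 2 := by
  refine le_of_tendsto_of_tendsto' (((Q.tends _).pow 2).add ((Q.tends _).pow 2))
    ((((Q.tends g).pow 2).const_mul 2).add (((Q.tends h).pow 2).const_mul 2)) fun n => ?_
  have h1 := Q.quad 1 (g ^ n) (g ^ n * h ^ n) (h ^ n)
  have e1 : d (g ^ n) (h ^ n) = d 1 ((g * h⁻¹) ^ n) := by
    rw [c.inv_right.mul_pow, inv_pow, ← (c.pow_pow n n).inv_right.eq.symm, ← Q.right (h ^ n),
      mul_inv_cancel_left, Q.symm]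
  have e2 : d (g ^ n * h ^ n) (h ^ n) = d 1 (g ^ n) := by
    rw [(c.pow_pow n n).eq, Q.symm, Q.right]
  rw [e1, e2, Q.right, Q.symm (h ^ n) 1, ← c.mul_pow] at h1
  simp only [div_pow]
  rw [← add_div, ← mul_div_assoc, ← mul_div_assoc, ← add_div]
  exact div_le_div_of_nonneg_right (by linarith) (by positivity)

lemma defect {t g g' : G} (hg : Commute t g) (ht : 0 < Q.len t) :
    Tendsto (fun n : ℕ => d 1 (t ^ n * (g * g')) + d 1 (t ^ n) - d 1 (t ^ n * g) -
      d 1 (t ^ n * g')) atTop (𝓝 0) := by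
  set K := d 1 g + d 1 g' with hK
  have K1 := Q.nonneg 1 g
  have K2 := Q.nonneg 1 g'
  refine squeeze_zero_norm' ?_ (tendsto_const_div_atTop_nhds_zero_nat (2 * K ^ 2 / Q.len t))
  filter_upwards [eventually_gt_atTop 0] with n hn
  have hn' : (0 : ℝ) < n := by exact_mod_cast hn
  have hR := Q.le_dist t n
  have e0 : ∀ x, d g⁻¹ (t ^ n * x) = d 1 (t ^ n * (g * x)) := fun x => by
    rw [← Q.inv g, mul_inv_cancel, ← mul_assoc, ← (hg.pow_left n).eq, mul_assoc]
  have q1 := Q.quad g⁻¹ (t ^ n * 1) (t ^ n * g') 1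
  have q2 := Q.quad g⁻¹ (t ^ n * g') (t ^ n * 1) 1
  have near : ∀ x, |d 1 (t ^ n * x) - d 1 (t ^ n)| ≤ d 1 x := fun x => by
    have a1 := Q.mul_le (t ^ n) x
    have a2 := Q.mul_le (t ^ n * x) x⁻¹
    rw [mul_inv_cancel_right, Q.inv_eq] at a2
    exact abs_le.2 ⟨by linarith, by linarith⟩
  have b1 := abs_le.1 (near (g * g'))
  have b2 := abs_le.1 (near g)
  have b3 := abs_le.1 (near g')
  have b4 := Q.mul_le g g'
  simp only [e0, Q.inv] at q1 q2
  simp only [Q.inv_eq, mul_one, Q.symm _ 1] at q1 q2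
  set R := d 1 (t ^ n)
  obtain ⟨α, hα⟩ : ∃ α, d 1 (t ^ n * (g * g')) = R + α := ⟨_, (add_sub_cancel _ _).symm⟩
  obtain ⟨γ, hγ⟩ : ∃ γ, d 1 (t ^ n * g) = R + γ := ⟨_, (add_sub_cancel _ _).symm⟩
  obtain ⟨δ, hδ⟩ : ∃ δ, d 1 (t ^ n * g') = R + δ := ⟨_, (add_sub_cancel _ _).symm⟩
  rw [hα, hγ, hδ] at q1 q2 ⊢
  rw [hα] at b1
  rw [hγ] at b2
  rw [hδ] at b3
  have s1 : α ^ 2 ≤ K ^ 2 := sq_le_sq' (by linarith) (by linarith)
  have s2 : γ ^ 2 ≤ d 1 g ^ 2 := sq_le_sq' (by linarith) (by linarith)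
  have s3 : δ ^ 2 ≤ d 1 g' ^ 2 := sq_le_sq' (by linarith) (by linarith)
  have s4 : d 1 g ^ 2 + d 1 g' ^ 2 ≤ K ^ 2 := by nlinarith [mul_nonneg K1 K2]
  have hR0 : 0 < R := lt_of_lt_of_le (by positivity) hR
  have h1 : |α - γ - δ| * R ≤ K ^ 2 := by
    rw [← abs_of_pos hR0, ← abs_mul]
    exact abs_le.2 ⟨by nlinarith [sq_nonneg γ, sq_nonneg δ], by nlinarith [sq_nonneg α]⟩
  rw [show R + α + R - (R + γ) - (R + δ) = α - γ - δ by ring, Real.norm_eq_abs, div_div,
    le_div_iff₀ (by positivity)]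
  nlinarith [mul_le_mul_of_nonneg_left hR (abs_nonneg (α - γ - δ)), sq_nonneg K]

lemma comm_small {t : G} (ht : 0 < Q.len t) {c : G}
    (hc : c ∈ ⁅Subgroup.centralizer {t}, Subgroup.centralizer {t}⁆) :
    Tendsto (fun n : ℕ => d 1 (t ^ n * c) - d 1 (t ^ n)) atTop (𝓝 0) := by
  have cm : ∀ {g}, g ∈ Subgroup.centralizer {t} → Commute t g := fun hg =>
    (Subgroup.mem_centralizer_singleton_iff.1 hg).symm
  have mem : ∀ {g}, g ∈ ⁅Subgroup.centralizer {t}, Subgroup.centralizer {t}⁆ → Commute t g :=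
    fun hg => cm (Subgroup.commutator_le_self _ hg)
  rw [Subgroup.commutator_def] at hc mem
  induction hc using Subgroup.closure_induction with
  | mem x hx =>
    obtain ⟨a, ha, b, hb, rfl⟩ := hx
    have h1 := Q.defect (g' := b) (cm ha) ht
    have h2 := Q.defect (g' := a⁻¹) ((cm ha).mul_right (cm hb)) ht
    have h3 := Q.defect (g' := b⁻¹) (((cm ha).mul_right (cm hb)).mul_right (cm ha).inv_right) ht
    have h4 := Q.defect (g' := a⁻¹) (cm ha) ht
    have h5 := Q.defect (g' := b⁻¹) (cm hb) ht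
    have := (((h1.add h2).add h3).sub h4).sub h5
    simp only [add_zero, sub_zero, mul_inv_cancel, mul_one] at this
    refine this.congr fun n => ?_
    rw [commutatorElement_def]
    ring
  | one => simp
  | mul x y hx _ ihx ihy =>
    have := ((Q.defect (g' := y) (mem hx) ht).add ihx).add ihy
    simp only [add_zero] at this
    exact this.congr fun n => by ring
  | inv x hx ih =>
    have := ((Q.defect (g' := x⁻¹) (mem hx) ht).add ih).neg
    simp only [add_zero, neg_zero, mul_inv_cancel, mul_one] at this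
    exact this.congr fun n => by ring

lemma lower {t c : G} (hc : c ∈ ⁅Subgroup.centralizer {t}, Subgroup.centralizer {t}⁆) (k : ℕ) :
    k * Q.len t ≤ d 1 (c * t ^ k) := by
  rcases (Q.len_nonneg t).eq_or_lt with h0 | ht
  · rw [← h0, mul_zero]
    exact Q.nonneg _ _
  have hct : Commute t c :=
    (Subgroup.mem_centralizer_singleton_iff.1 (Subgroup.commutator_le_self _ hc)).symm
  refine le_of_forall_pos_le_add fun ε hε => ?_
  obtain ⟨N, hN⟩ := eventually_atTop.1 ((Q.comm_small ht hc).eventually (lt_mem_nhds (neg_lt_zero.2 hε)))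
  have key : ∀ m : ℕ, d 1 (t ^ (N + m * k)) ≤ d 1 (t ^ N) + m * (d 1 (c * t ^ k) + ε) := by
    intro m
    induction m with
    | zero => simp
    | succ m ih =>
      have h1 := hN (N + (m + 1) * k) (by omega)
      have h2 := Q.mul_le (t ^ (N + m * k)) (c * t ^ k)
      rw [← (hct.pow_left k).eq, ← mul_assoc, ← pow_add,
        show N + m * k + k = N + (m + 1) * k by ring, (hct.pow_left k).eq] at h2
      push_cast
      linarith
  by_contra hlt
  have hpos : 0 < k * Q.len t - (d 1 (c * t ^ k) + ε) := by linarith [not_le.1 hlt]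
  obtain ⟨m, hm⟩ := exists_nat_gt (d 1 (t ^ N) / (k * Q.len t - (d 1 (c * t ^ k) + ε)))
  rw [div_lt_iff₀ hpos] at hm
  have h3 := Q.le_dist t (N + m * k)
  have h4 := key m
  push_cast at h3
  nlinarith [mul_nonneg (Nat.cast_nonneg (α := ℝ) N) ht.le]

/-- If `c` lies in the commutator subgroup of the centraliser of `t` and `c t` is conjugate to
`t`, then `c` has stable length zero. -/
theorem len_eq_zero {t c s : G} (hc : c ∈ ⁅Subgroup.centralizer {t}, Subgroup.centralizer {t}⁆)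
    (hs : s⁻¹ * t * s = c * t) : Q.len c = 0 := by
  have hct : Commute t c :=
    (Subgroup.mem_centralizer_singleton_iff.1 (Subgroup.commutator_le_self _ hc)).symm
  have low : ∀ k : ℕ, k * Q.len t ≤ Q.len (c * t ^ k) := fun k => by
    refine ge_of_tendsto (Q.tends _) ?_
    filter_upwards [eventually_gt_atTop 0] with m hm
    have := Q.lower (Subgroup.pow_mem _ hc m) (k * m)
    rw [le_div_iff₀ (by exact_mod_cast hm), (hct.symm.pow_right k).mul_pow, ← pow_mul]
    push_cast at this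
    linarith
  have h1 : Q.len (c * t) ≤ Q.len t := hs ▸ Q.len_conj_le s t
  have h2 : Q.len (c * t) ^ 2 ≤ Q.len t ^ 2 := pow_le_pow_left₀ (Q.len_nonneg _) h1 2
  have h3 := Q.par (g := c * t) (h := t) (hct.symm.mul_left (Commute.refl t))
  rw [mul_inv_cancel_right, mul_assoc, ← sq t] at h3
  have h4 := pow_le_pow_left₀ (mul_nonneg (Nat.cast_nonneg 2) (Q.len_nonneg t)) (low 2) 2
  push_cast at h4
  exact pow_eq_zero_iff (two_ne_zero) |>.1 (le_antisymm (by linarith) (sq_nonneg _))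

end Quad

end Pool.Agent.Lib.MP_8646f6_al.Neu
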