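import Mathlib

/-! The Cayley tree of a free group: halfspaces and medians. -/

namespace Pool.Agent.Lib.MP_8646f6_al

open FreeGroup

variable {α : Type} [DecidableEq α]

/-- The group element of a letter. -/
def gen (l : α × Bool) : FreeGroup α := FreeGroup.mk [l]

/-- The inverse letter. -/
def linv (l : α × Bool) : α × Bool := (l.1, !l.2)

omit [DecidableEq α] in
@[simp] lemma linv_linv (l : α × Bool) : linv (linv l) = l := by
  simp [linv]

omit [DecidableEq α] in
@[simp] lemma linv_fst (l : α × Bool) : (linv l).1 = l.1 := rfl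

omit [DecidableEq α] in
lemma linv_ne (l : α × Bool) : linv l ≠ l := by
  rcases l with ⟨a, _ | _⟩ <;> simp [linv]

omit [DecidableEq α] in
lemma gen_linv (l : α × Bool) : gen (linv l) = (gen l)⁻¹ := by
  simp [gen, linv, FreeGroup.inv_mk, FreeGroup.invRev]

omit [DecidableEq α] in
lemma gen_true (a : α) : gen (a, true) = FreeGroup.of a := rfl

omit [DecidableEq α] in
lemma gen_false (a : α) : gen (a, false) = (FreeGroup.of a)⁻¹ := by
  rw [← gen_true, ← gen_linv]; rfl

lemma toWord_gen (l : α × Bool) : (gen l).toWord = [l] := by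
  simp [gen, toWord_mk, reduce_singleton]

lemma toWord_gen_mul (l : α × Bool) (g : FreeGroup α) :
    (g.toWord.head? = some (linv l) ∧ g.toWord = linv l :: (gen l * g).toWord) ∨
    (g.toWord.head? ≠ some (linv l) ∧ (gen l * g).toWord = l :: g.toWord) := by
  rw [toWord_mul, toWord_gen, List.singleton_append, reduce.cons, reduce_toWord]
  rcases h : g.toWord with _ | ⟨hd, tl⟩
  · right; simp
  · by_cases hh : l.1 = hd.1 ∧ l.2 = !hd.2
    · left
      have : hd = linv l := by
        rcases hd with ⟨a, b⟩; rcases l with ⟨a', b'⟩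
        simp only [linv] at hh ⊢
        obtain ⟨rfl, rfl⟩ := hh
        simp
      simp only [if_pos hh]
      simp [this]
    · right
      have : hd ≠ linv l := by
        rintro rfl
        simp [linv] at hh
      simp [hh, this]

lemma norm_gen_mul (l : α × Bool) (g : FreeGroup α) :
    (g.toWord.head? = some (linv l) ∧ g.norm = (gen l * g).norm + 1) ∨
    (g.toWord.head? ≠ some (linv l) ∧ (gen l * g).norm = g.norm + 1) := by
  rcases toWord_gen_mul l g with ⟨h1, h2⟩ | ⟨h1, h2⟩
  · left; refine ⟨h1, ?_⟩; simp only [FreeGroup.norm]; rw [h2]; simp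
  · right; refine ⟨h1, ?_⟩; simp only [FreeGroup.norm]; rw [h2]; simp

lemma head_inv (g : FreeGroup α) (l : α × Bool) :
    g⁻¹.toWord.head? = some l ↔ g.toWord.getLast? = some (linv l) := by
  rw [toWord_inv, FreeGroup.invRev, List.head?_reverse, List.getLast?_map]
  rcases g.toWord.getLast? with _ | ⟨a, b⟩
  · simp
  · rcases l with ⟨a', b'⟩
    simp only [Option.map_some, Option.some.injEq, linv, Prod.mk.injEq]
    constructor
    · rintro ⟨rfl, rfl⟩; simp
    · rintro ⟨rfl, rfl⟩; simp

lemma norm_mul_gen (l : α × Bool) (g : FreeGroup α) :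
    (g.toWord.getLast? = some (linv l) ∧ g.norm = (g * gen l).norm + 1) ∨
    (g.toWord.getLast? ≠ some (linv l) ∧ (g * gen l).norm = g.norm + 1) := by
  have e : (g * gen l).norm = (gen (linv l) * g⁻¹).norm := by
    rw [← norm_inv_eq, mul_inv_rev, gen_linv]
  rw [e, ← norm_inv_eq (x := g), Ne, ← head_inv]
  have := norm_gen_mul (linv l) g⁻¹
  rwa [linv_linv] at this

/-- Distance in the Cayley tree. -/
def td (x y : FreeGroup α) : ℕ := (x⁻¹ * y).norm

@[simp] lemma td_self (x : FreeGroup α) : td x x = 0 := by simp [td]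

lemma td_eq_zero {x y : FreeGroup α} : td x y = 0 ↔ x = y := by
  simp [td, inv_mul_eq_one]

lemma td_mul_left (g x y : FreeGroup α) : td (g * x) (g * y) = td x y := by
  simp [td, mul_assoc]

/-- `w` lies on the far side of the edge from `u` to `u * gen l`. -/
def side (u : FreeGroup α) (l : α × Bool) (w : FreeGroup α) : Prop := td w (u * gen l) < td w u

lemma side_mul_left (g u : FreeGroup α) (l : α × Bool) (w : FreeGroup α) :
    side (g * u) l (g * w) ↔ side u l w := by
  simp only [side, mul_assoc, td_mul_left]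

lemma side_iff_last (u : FreeGroup α) (l : α × Bool) (w : FreeGroup α) :
    side u l w ↔ (w⁻¹ * u).toWord.getLast? = some (linv l) := by
  simp only [side, td, ← mul_assoc]
  rcases norm_mul_gen l (w⁻¹ * u) with ⟨h1, h2⟩ | ⟨h1, h2⟩
  · simp only [h1, iff_true]; omega
  · simp only [h1, iff_false]; omega

lemma td_step (u : FreeGroup α) (l : α × Bool) (w : FreeGroup α) :
    td w u = td w (u * gen l) + 1 ∨ td w (u * gen l) = td w u + 1 := by
  simp only [td, ← mul_assoc]
  rcases norm_mul_gen l (w⁻¹ * u) with ⟨-, h2⟩ | ⟨-, h2⟩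
  · exact Or.inl h2
  · exact Or.inr h2

lemma td_of_side {u : FreeGroup α} {l : α × Bool} {w : FreeGroup α} (h : side u l w) :
    td w u = td w (u * gen l) + 1 := by
  have := td_step u l w
  simp only [side] at h
  omega

lemma td_of_not_side {u : FreeGroup α} {l : α × Bool} {w : FreeGroup α} (h : ¬ side u l w) :
    td w (u * gen l) = td w u + 1 := by
  have := td_step u l w
  simp only [side] at h
  omega

lemma side_rev (u : FreeGroup α) (l : α × Bool) (w : FreeGroup α) :
    side (u * gen l) (linv l) w ↔ ¬ side u l w := by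
  have := td_step u l w
  simp only [side, gen_linv, mul_inv_cancel_right]
  omega

lemma not_side_self (u : FreeGroup α) (l : α × Bool) : ¬ side u l u := by
  simp [side]

lemma side_self (u : FreeGroup α) (l : α × Bool) : side u l (u * gen l) := by
  have := side_rev u l (u * gen l)
  have h2 := not_side_self (u * gen l) (linv l)
  tauto

lemma exists_side {u w : FreeGroup α} (h : w ≠ u) : ∃ l, side u l w := by
  have hne : (w⁻¹ * u).toWord ≠ [] := by
    rw [Ne, toWord_eq_nil_iff, inv_mul_eq_one]; exact h
  refine ⟨linv ((w⁻¹ * u).toWord.getLast hne), ?_⟩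
  rw [side_iff_last, linv_linv, List.getLast?_eq_some_getLast hne]

lemma side_unique {u w : FreeGroup α} {l l' : α × Bool} (h : side u l w) (h' : side u l' w) :
    l = l' := by
  rw [side_iff_last] at h h'
  have := h.symm.trans h'
  simp only [Option.some.injEq] at this
  rw [← linv_linv l, this, linv_linv]

/-- Moving along an edge changes the side only for that edge. -/
lemma side_step (u : FreeGroup α) (l : α × Bool) (w : FreeGroup α) (l' : α × Bool)
    (h1 : ¬ (w = u ∧ l' = l)) (h2 : ¬ (w = u * gen l ∧ l' = linv l)) :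
    side u l (w * gen l') ↔ side u l w := by
  rw [side_iff_last, side_iff_last]
  have e : (w * gen l')⁻¹ * u = gen (linv l') * (w⁻¹ * u) := by
    rw [mul_inv_rev, gen_linv, mul_assoc]
  rw [e]
  rcases toWord_gen_mul (linv l') (w⁻¹ * u) with ⟨-, h⟩ | ⟨-, h⟩
  · rw [linv_linv] at h
    rcases h' : (gen (linv l') * (w⁻¹ * u)).toWord with _ | ⟨hd, tl⟩
    · rw [h, h']
      simp only [List.getLast?_nil, reduceCtorEq, List.getLast?_singleton, Option.some.injEq,
        false_iff]
      rintro rfl
      apply h2
      refine ⟨?_, rfl⟩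
      rw [toWord_eq_nil_iff, linv_linv, ← mul_assoc, mul_eq_one_iff_eq_inv, mul_inv_eq_iff_eq_mul]
        at h'
      rw [h', mul_inv_cancel_left]
    · rw [h, h']; simp
  · rcases h' : (w⁻¹ * u).toWord with _ | ⟨hd, tl⟩
    · rw [h, h']
      simp only [List.getLast?_singleton, Option.some.injEq, List.getLast?_nil, reduceCtorEq,
        iff_false]
      intro hl
      apply h1
      rw [toWord_eq_nil_iff, inv_mul_eq_one] at h'
      refine ⟨h', ?_⟩
      rw [← linv_linv l', hl, linv_linv]
    · rw [h, h']; simp

/-- Induction along geodesics issuing from `w`. -/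
lemma geod_induction (w : FreeGroup α) (P : FreeGroup α → Prop) (h0 : P w)
    (hs : ∀ u l, ¬ side u l w → P u → P (u * gen l)) (u : FreeGroup α) : P u := by
  induction' hn : td w u with n ih generalizing u
  · rw [td_eq_zero] at hn; exact hn ▸ h0
  · have hne : w ≠ u := by
      rintro rfl; simp at hn
    obtain ⟨l, hl⟩ := exists_side hne
    have h1 := td_of_side hl
    have := hs (u * gen l) (linv l) (by rw [side_rev]; tauto) (ih _ (by omega))
    rwa [gen_linv, mul_inv_cancel_right] at this

lemma side_ext {w w' : FreeGroup α} (h : ∀ u l, side u l w ↔ side u l w') : w = w' := by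
  by_contra hne
  obtain ⟨l, hl⟩ := exists_side hne
  exact not_side_self w' l ((h _ _).1 hl)

/-- The ends of an edge separating `x` from `y` lie between `x` and `y`. -/
lemma between_of_sep {x y u : FreeGroup α} {l : α × Bool} (hx : ¬ side u l x) (hy : side u l y)
    (u' : FreeGroup α) (l' : α × Bool) (h : side u' l' x ↔ side u' l' y) :
    (side u' l' u ↔ side u' l' x) ∧ (side u' l' (u * gen l) ↔ side u' l' x) := by
  have key : ∀ x, ¬ side u l x → (side u' l' x ↔ side u' l' y) → (side u' l' u ↔ side u' l' x) := by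
    intro x
    refine geod_induction y
      (fun x => ¬ side u l x → (side u' l' x ↔ side u' l' y) → (side u' l' u ↔ side u' l' x))
      (fun h => (h hy).elim) ?_ x
    intro v m hv ih hx h
    by_cases c1 : v = u ∧ m = l
    · obtain ⟨rfl, rfl⟩ := c1
      exact (hv hy).elim
    by_cases c2 : v = u * gen l ∧ m = linv l
    · obtain ⟨rfl, rfl⟩ := c2
      rw [gen_linv, mul_inv_cancel_right]
    have e1 := side_step u l v m c1 c2
    by_cases c3 : v = u' ∧ m = l'
    · obtain ⟨rfl, rfl⟩ := c3
      exact (hv (h.1 (side_self _ _))).elim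
    by_cases c4 : v = u' * gen l' ∧ m = linv l'
    · obtain ⟨rfl, rfl⟩ := c4
      rw [gen_linv, mul_inv_cancel_right] at h
      rw [side_rev, not_not] at hv
      exact (not_side_self _ _ (h.2 hv)).elim
    have e2 := side_step u' l' v m c3 c4
    rw [e2] at h ⊢
    exact ih (by rwa [← e1]) h
  have k1 := key x hx h
  refine ⟨k1, ?_⟩
  rw [← k1]
  apply side_step
  · rintro ⟨rfl, rfl⟩
    exact hx (h.2 hy)
  · rintro ⟨rfl, rfl⟩
    rw [side_rev] at hx hy
    tauto

/-- The majority of three propositions. -/
def Maj (p q r : Prop) : Prop := (p ∧ q) ∨ (q ∧ r) ∨ (p ∧ r)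

lemma exists_tmed (w1 w2 w3 : FreeGroup α) :
    ∃ w : FreeGroup α, ∀ u l, side u l w ↔ Maj (side u l w1) (side u l w2) (side u l w3) := by
  classical
  obtain ⟨w, hw⟩ : ∃ w : FreeGroup α, ∀ v, td w1 w + td w2 w + td w3 w ≤
      td w1 v + td w2 v + td w3 v :=
    ⟨Function.argmin (fun w => td w1 w + td w2 w + td w3 w),
      fun v => Function.argmin_le (fun w => td w1 w + td w2 w + td w3 w) v⟩
  have loc : ∀ l, ¬ Maj (side w l w1) (side w l w2) (side w l w3) := by
    intro l hm
    have h := hw (w * gen l)
    have s1 := td_step w l w1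
    have s2 := td_step w l w2
    have s3 := td_step w l w3
    rcases hm with ⟨a, b⟩ | ⟨a, b⟩ | ⟨a, b⟩ <;>
    · have := td_of_side a
      have := td_of_side b
      omega
  have main : ∀ u l, ¬ side u l w → ¬ Maj (side u l w1) (side u l w2) (side u l w3) := by
    intro u l hn hm
    have hne : u * gen l ≠ w := by
      rintro rfl; exact hn (side_self _ _)
    obtain ⟨m, hm'⟩ := exists_side hne
    have mono : ∀ y, side u l y → side w m y := by
      intro y hy
      by_contra hc
      have := (between_of_sep hn hy w m (by simp [hc, not_side_self])).2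
      exact not_side_self _ _ (this.1 hm')
    apply loc m
    rcases hm with ⟨a, b⟩ | ⟨a, b⟩ | ⟨a, b⟩
    · exact Or.inl ⟨mono _ a, mono _ b⟩
    · exact Or.inr (Or.inl ⟨mono _ a, mono _ b⟩)
    · exact Or.inr (Or.inr ⟨mono _ a, mono _ b⟩)
  refine ⟨w, fun u l => ⟨fun h => ?_, fun h => ?_⟩⟩
  · have := main (u * gen l) (linv l) (by rw [side_rev]; tauto)
    simp only [side_rev, Maj] at this ⊢
    tauto
  · by_contra hc
    exact main u l hc h

/-- The median of three vertices of the tree. -/
noncomputable def tmed (w1 w2 w3 : FreeGroup α) : FreeGroup α := (exists_tmed w1 w2 w3).choose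

lemma side_tmed (w1 w2 w3 u : FreeGroup α) (l : α × Bool) :
    side u l (tmed w1 w2 w3) ↔ Maj (side u l w1) (side u l w2) (side u l w3) :=
  (exists_tmed w1 w2 w3).choose_spec u l

lemma tmed_mul_left (g w1 w2 w3 : FreeGroup α) :
    tmed (g * w1) (g * w2) (g * w3) = g * tmed w1 w2 w3 := by
  apply side_ext
  intro u l
  rw [← mul_inv_cancel_left g u]
  simp only [side_tmed, side_mul_left]

/-- The median moves by at most one edge when an argument moves along an edge. -/
lemma tmed_step (y : FreeGroup α) (l : α × Bool) (Y Z : FreeGroup α) :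
    tmed (y * gen l) Y Z = tmed y Y Z ∨ (tmed y Y Z = y ∧ tmed (y * gen l) Y Z = y * gen l) := by
  by_cases h : tmed (y * gen l) Y Z = tmed y Y Z
  · exact Or.inl h
  right
  have other : ∀ u m, ¬ (y = u ∧ l = m) → ¬ (y = u * gen m ∧ l = linv m) →
      (side u m (tmed (y * gen l) Y Z) ↔ side u m (tmed y Y Z)) := by
    intro u m c1 c2
    rw [side_tmed, side_tmed, side_step u m y l c1 c2]
  have impl : side y l (tmed y Y Z) → side y l (tmed (y * gen l) Y Z) := by
    simp only [side_tmed, Maj, not_side_self, side_self]; tauto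
  constructor
  · obtain ⟨m, hm⟩ := exists_side h
    by_cases c1 : y = tmed y Y Z ∧ l = m
    · exact c1.1.symm
    by_cases c2 : y = tmed y Y Z * gen m ∧ l = linv m
    · exfalso
      have h3 : side y l (tmed y Y Z) := by
        have := (side_rev (tmed y Y Z) m (tmed y Y Z)).2 (not_side_self _ _)
        rwa [← c2.1, ← c2.2] at this
      have h4 := impl h3
      have := (side_rev (tmed y Y Z) m (tmed (y * gen l) Y Z))
      rw [← c2.1, ← c2.2] at this
      exact this.1 h4 hm
    · exact (not_side_self _ _ ((other _ _ c1 c2).1 hm)).elim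
  · obtain ⟨m, hm⟩ := exists_side (Ne.symm h)
    by_cases c1 : y = tmed (y * gen l) Y Z ∧ l = m
    · exfalso
      rw [← c1.1, ← c1.2] at hm
      have := impl hm
      rw [← c1.1] at this
      exact not_side_self _ _ this
    by_cases c2 : y = tmed (y * gen l) Y Z * gen m ∧ l = linv m
    · have := c2.1
      rw [← linv_linv m, ← c2.2, gen_linv, eq_mul_inv_iff_mul_eq] at this
      exact this.symm
    · exact (not_side_self _ _ ((other _ _ c1 c2).2 hm)).elim

end Pool.Agent.Lib.MP_8646f6_al
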