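import Pool.Agent.Lib.MP_8646f6_al.GGroup

/-! The twists `s ↦ s w` with `w` a nontrivial element of the commutator subgroup. -/

namespace Pool.Agent.Lib.MP_8646f6_al.Gen

open FreeGroup (of)
open Defs SemidirectProduct Multiplicative

universe u

/-- A nontrivial element of a free group has an axis. -/
theorem exists_line {α : Type} [DecidableEq α] {v : FreeGroup α} (hv : v ≠ 1) :
    ∃ (cl : ℤ → FreeGroup α) (lt : ℤ → α × Bool) (L : ℕ), IsLine cl lt ∧ 0 < L ∧
      Function.Periodic lt (L : ℤ) ∧ ∀ j, cl (j + L) = v * cl j := by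
  have hc := FreeGroup.reduceCyclically.isCyclicallyReduced (FreeGroup.isReduced_toWord (x := v))
  have he := congrArg FreeGroup.mk
    (FreeGroup.reduceCyclically.conj_conjugator_reduceCyclically v.toWord)
  rw [FreeGroup.mk_toWord, ← FreeGroup.mul_mk, ← FreeGroup.mul_mk, ← FreeGroup.inv_mk] at he
  generalize FreeGroup.reduceCyclically v.toWord = l at hc he
  generalize FreeGroup.mk (FreeGroup.reduceCyclically.conjugator v.toWord) = g at he
  have hL : 0 < l.length := by
    rcases l with _ | ⟨a, l⟩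
    · exact absurd (by rw [← he, ← FreeGroup.one_eq_mk]; group) hv
    · simp
  have h0 : (0 : ℤ) < l.length := by exact_mod_cast hL
  have dec : ∀ j : ℤ, ∃ (q : ℤ) (r : ℕ), r < l.length ∧ j = r + l.length * q := fun j => by
    have h1 := Int.emod_nonneg j h0.ne'
    have h2 := Int.emod_lt_of_pos j h0
    exact ⟨j / l.length, (j % l.length).toNat, by omega,
      by rw [Int.toNat_of_nonneg h1, Int.emod_add_mul_ediv]⟩
  have dv : ∀ (q : ℤ) (r : ℕ), r < l.length → ((r : ℤ) + l.length * q) / l.length = q ∧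
      (((r : ℤ) + l.length * q) % l.length).toNat = r := fun q r hr => by
    obtain ⟨h1, h2⟩ := (Int.ediv_emod_unique (a := (r : ℤ) + l.length * q) (r := r) (q := q) h0).2
      ⟨rfl, by omega, by omega⟩
    exact ⟨h1, by rw [h2, Int.toNat_natCast]⟩
  have tk : ∀ r (hr : r < l.length), FreeGroup.mk (l.take (r + 1)) =
      FreeGroup.mk (l.take r) * gen l[r] := fun r hr => by
    rw [gen, FreeGroup.mul_mk, List.take_succ_eq_append_getElem hr]
  have nx : ∀ (q : ℤ) (r : ℕ), r < l.length → (∃ _ : r + 1 < l.length,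
      (r : ℤ) + l.length * q + 1 = (r + 1 : ℕ) + l.length * q) ∨ (r + 1 = l.length ∧
      (r : ℤ) + l.length * q + 1 = (0 : ℕ) + l.length * (q + 1)) := fun q r hr => by
    rcases Nat.lt_or_ge (r + 1) l.length with h | h
    · exact Or.inl ⟨h, by push_cast; ring⟩
    · have e : r + 1 = l.length := by omega
      exact Or.inr ⟨e, by rw [mul_add, mul_one, ← e]; push_cast; ring⟩
  refine ⟨fun j => g * FreeGroup.mk l ^ (j / l.length) *
    FreeGroup.mk (l.take (j % l.length).toNat), fun j => l.getD (j % l.length).toNat l[0],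
    l.length, ⟨fun j => ?_, fun j => ?_⟩, hL, fun j => by simp, fun j => ?_⟩
  · obtain ⟨q, r, hr, rfl⟩ := dec j
    rw [(dv q r hr).1, (dv q r hr).2, List.getD_eq_getElem _ _ hr, mul_assoc _ _ (gen _), ← tk r hr]
    rcases nx q r hr with ⟨h, e⟩ | ⟨h, e⟩
    · rw [e, (dv q _ h).1, (dv q _ h).2]
    · rw [e, (dv _ _ hL).1, (dv _ _ hL).2, h, List.take_length, List.take_zero,
        ← FreeGroup.one_eq_mk, mul_one, zpow_add_one, mul_assoc]
  · obtain ⟨q, r, hr, rfl⟩ := dec j
    have key : ∀ a b : α × Bool, (a.1 = b.1 → a.2 = b.2) → b ≠ linv a := by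
      rintro a b h rfl
      simp [linv] at h
    rw [(dv q r hr).2, List.getD_eq_getElem _ _ hr]
    rcases nx q r hr with ⟨h, e⟩ | ⟨h, e⟩
    · rw [e, (dv q _ h).2, List.getD_eq_getElem _ _ h]
      exact key _ _ (List.isChain_iff_getElem.1 hc.1 r h)
    · rw [e, (dv _ _ hL).2, List.getD_eq_getElem _ _ hL]
      refine key _ _ (hc.2 _ ?_ _ ?_)
      · rw [List.getLast?_eq_getElem?, Option.mem_def, ← List.getElem?_eq_getElem hr]
        congr 1
        omega
      · rw [List.head?_eq_getElem?, Option.mem_def, ← List.getElem?_eq_getElem hL]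
  · have e : (j + l.length) / l.length = j / l.length + 1 := by
      rw [← Int.add_mul_ediv_right _ _ h0.ne', one_mul]
    beta_reduce
    rw [e, Int.add_emod_right, ← he]
    group

lemma map_gen {α β : Type} (f : α → β) (l : α × Bool) :
    FreeGroup.map f (gen l) = gen (f l.1, l.2) := rfl

lemma map_succ_mem {n : ℕ} (v : FreeGroup (Fin n)) :
    FreeGroup.map Fin.succ v ∈ Subgroup.closure (of '' {i : Fin (n + 1) | i ≠ 0}) := by
  induction v using FreeGroup.induction_on with
  | C1 => rw [map_one]; exact one_mem _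
  | of i => exact Subgroup.subset_closure ⟨i.succ, Fin.succ_ne_zero i, rfl⟩
  | inv_of i ih => rw [map_inv]; exact inv_mem ih
  | mul a b ha hb => rw [map_mul]; exact mul_mem ha hb

variable {n : ℕ} {Φ : MulAut (FreeGroup (Fin (n + 1)))} {v : FreeGroup (Fin n)}

lemma fix_map (hf : ∀ i : Fin n, Φ (of i.succ) = of i.succ) (x : FreeGroup (Fin n)) :
    Φ (FreeGroup.map Fin.succ x) = FreeGroup.map Fin.succ x :=
  DFunLike.congr_fun (show Φ.toMonoidHom.comp (FreeGroup.map Fin.succ) = FreeGroup.map Fin.succ from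
    FreeGroup.ext_hom _ _ hf) x

theorem exists_twist (v : FreeGroup (Fin n)) : ∃ Φ : MulAut (FreeGroup (Fin (n + 1))),
    (∀ i : Fin n, Φ (of i.succ) = of i.succ) ∧ Φ (of 0) = of 0 * FreeGroup.map Fin.succ v := by
  let T : FreeGroup (Fin n) → FreeGroup (Fin (n + 1)) →* FreeGroup (Fin (n + 1)) := fun x =>
    FreeGroup.lift (Fin.cases (of 0 * FreeGroup.map Fin.succ x) fun i => of i.succ)
  have T0 : ∀ x, T x (of 0) = of 0 * FreeGroup.map Fin.succ x := fun x => by simp [T]
  have T1 : ∀ x (i : Fin n), T x (of i.succ) = of i.succ := fun x i => by simp [T]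
  have T2 : ∀ x y, T x (FreeGroup.map Fin.succ y) = FreeGroup.map Fin.succ y := fun x y =>
    DFunLike.congr_fun (show (T x).comp (FreeGroup.map Fin.succ) = FreeGroup.map Fin.succ from
      FreeGroup.ext_hom _ _ (T1 x)) y
  have inv : ∀ x y, x * y = 1 → (T x).comp (T y) = MonoidHom.id _ := fun x y h => by
    refine FreeGroup.ext_hom _ _ fun i => ?_
    induction i using Fin.cases with
    | zero => rw [MonoidHom.comp_apply, T0, map_mul, T0, T2, mul_assoc, ← map_mul, h, map_one,
        mul_one, MonoidHom.id_apply]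
    | succ i => rw [MonoidHom.comp_apply, T1, T1, MonoidHom.id_apply]
  exact ⟨MonoidHom.toMulEquiv (T v) (T v⁻¹) (inv _ _ (inv_mul_cancel v)) (inv _ _ (mul_inv_cancel v)),
    T1 v, T0 v⟩

theorem twist_coarseMedian (hv : v ≠ 1) (hf : ∀ i : Fin n, Φ (of i.succ) = of i.succ)
    (hs : Φ (of 0) = of 0 * FreeGroup.map Fin.succ v) : IsCoarseMedianGroup (MappingTorus Φ) := by
  obtain ⟨cl, lt, L, H, hL, hp, hw⟩ := exists_line hv
  have H' : IsLine (fun j => FreeGroup.map Fin.succ (cl j)) fun j => ((lt j).1.succ, (lt j).2) :=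
    ⟨fun j => by rw [H.step, map_mul, map_gen], fun j h => H.nb j (by
      simp only [linv, Prod.mk.injEq, Fin.succ_inj] at h
      exact Prod.ext h.1 h.2)⟩
  have hw' : ∀ j, FreeGroup.map Fin.succ (cl (j + L)) =
      FreeGroup.map Fin.succ v * FreeGroup.map Fin.succ (cl j) := fun j => by rw [hw, map_mul]
  obtain ⟨η, C, h1, h2⟩ := Brk.exists_height H' hL (fun j => by rw [hp]) hw'
  let _ : Dat (Fin (n + 1)) :=
    ⟨0, _, _, η, H', fun j => Fin.succ_ne_zero _, fun j => map_succ_mem _⟩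
  refine coarseMedian (fun i hi => ?_) (fix_map hf v) hs hL hw' h1 h2
  obtain ⟨i, rfl⟩ := Fin.exists_succ_eq.2 hi
  exact hf i

theorem twist_not_geometric (hv : v ≠ 1) (hc : v ∈ commutator (FreeGroup (Fin n)))
    (hf : ∀ i : Fin n, Φ (of i.succ) = of i.succ)
    (hs : Φ (of 0) = of 0 * FreeGroup.map Fin.succ v) (H : Subgroup (MappingTorus Φ))
    [H.FiniteIndex] {G : Type} [Group G] (f : H →* G) (hi : Function.Injective f) (X : Type u)
    [MetricSpace X] [Nonempty X] [MulAction G X] (hX : IsCAT0 X) : ¬IsGeometricAction G X := by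
  let ι : FreeGroup (Fin n) →* MappingTorus Φ := MonoidHom.comp inl (FreeGroup.map Fin.succ)
  have hι : Function.Injective ι :=
    inl_injective.comp (FreeGroup.map_injective (Fin.succ_injective n))
  have hC : Subgroup.map ι ⊤ ≤ Subgroup.centralizer {mkG Φ 1 1} := by
    rintro _ ⟨x, -, rfl⟩
    rw [Subgroup.mem_centralizer_singleton_iff]
    change mkG Φ (FreeGroup.map Fin.succ x) 0 * mkG Φ 1 1 =
      mkG Φ 1 1 * mkG Φ (FreeGroup.map Fin.succ x) 0
    simp [mkG_mul, fix_map hf]
  refine Neu.not_geometric_virt H (t := mkG Φ 1 1) (s := inl (of 0)) (c := ι v)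
    (Subgroup.commutator_mono hC hC ?_) ?_ ?_ f hi X hX
  · rw [← Subgroup.map_commutator]
    exact Subgroup.mem_map_of_mem ι hc
  · rw [← map_inv]
    change mkG Φ (of 0)⁻¹ 0 * mkG Φ 1 1 * mkG Φ (of 0) 0 =
      mkG Φ (FreeGroup.map Fin.succ v) 0 * mkG Φ 1 1
    simp [mkG_mul, hs]
  · rw [hι.isOfFinOrder_iff]
    exact not_isOfFinOrder_of_isMulTorsionFree hv

end Pool.Agent.Lib.MP_8646f6_al.Gen
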